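import Pool.Agent.R974.Span.Det

open MeasureTheory ProbabilityTheory Filter Topology Set
open scoped ENNReal NNReal

namespace Pool.Agent.R974.Span

/-- a dense sequence of times -/
noncomputable def dq (n : ℕ) : ℝ≥0 := TopologicalSpace.denseSeq ℝ≥0 n

lemma dense_dq : DenseRange dq := TopologicalSpace.denseRange_denseSeq ℝ≥0

/-- the maximum of a path over `[a, b]` -/
noncomputable def mx (w : ℝ≥0 → ℝ) (a b : ℝ≥0) : ℝ := ⨆ n, w (max a (min (dq n) b))

lemma measurable_mx (a b : ℝ≥0) : Measurable (fun w : ℝ≥0 → ℝ => mx w a b) := by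
  unfold mx
  exact Measurable.iSup fun n => measurable_pi_apply _

section
variable {w : ℝ≥0 → ℝ} {a b : ℝ≥0}

lemma image_clamp (hab : a ≤ b) :
    range (fun s => w (max a (min s b))) = w '' Icc a b := by
  ext v
  constructor
  · rintro ⟨s, rfl⟩
    exact ⟨_, ⟨le_max_left _ _, max_le hab (min_le_right _ _)⟩, rfl⟩
  · rintro ⟨s, ⟨h1, h2⟩, rfl⟩
    refine ⟨s, ?_⟩
    simp only
    rw [min_eq_left h2, max_eq_right h1]

lemma bdd_clamp (hw : Continuous w) (hab : a ≤ b) :
    BddAbove (range (fun s => w (max a (min s b)))) := by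
  rw [image_clamp hab]
  exact (isCompact_Icc.image hw).bddAbove

lemma le_mx (hw : Continuous w) {s : ℝ≥0} (h1 : a ≤ s) (h2 : s ≤ b) : w s ≤ mx w a b := by
  have hc : Continuous (fun s => w (max a (min s b))) :=
    hw.comp (continuous_const.max (continuous_id.min continuous_const))
  have hb' : BddAbove (range (fun n => w (max a (min (dq n) b)))) := by
    refine (bdd_clamp hw (h1.trans h2)).mono ?_
    rintro _ ⟨n, rfl⟩
    exact ⟨dq n, rfl⟩
  have h3 : IsClosed {z | w (max a (min z b)) ≤ mx w a b} := isClosed_le hc continuous_const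
  have h4 : range dq ⊆ {z | w (max a (min z b)) ≤ mx w a b} := by
    rintro _ ⟨n, rfl⟩
    exact le_ciSup hb' n
  have h5 := closure_minimal h4 h3
  rw [dense_dq.closure_range] at h5
  have := h5 (mem_univ s)
  simpa only [Set.mem_ofPred_eq, min_eq_left h2, max_eq_right h1] using this

lemma mx_le (hab : a ≤ b) {c : ℝ} (h : ∀ s, a ≤ s → s ≤ b → w s ≤ c) : mx w a b ≤ c :=
  ciSup_le fun _ => h _ (le_max_left _ _) (max_le hab (min_le_right _ _))

end

/-- a Brownian motion with all paths continuous, started at `0`, with measurable coordinates -/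
structure GBM {Ω : Type*} [MeasurableSpace Ω] (B : ℝ≥0 → Ω → ℝ) (P : Measure Ω) : Prop where
  pre : IsPreBrownianReal B P
  meas : ∀ t, Measurable (B t)
  cont : ∀ ω, Continuous (fun t => B t ω)
  zero : ∀ ω, B 0 ω = 0

theorem good_version {Ω : Type*} [MeasurableSpace Ω] {P : Measure Ω} {B : ℝ≥0 → Ω → ℝ}
    (hB : IsBrownianReal B P) : ∃ B' : ℝ≥0 → Ω → ℝ, GBM B' P ∧
      ∀ᵐ ω ∂P, ∀ t, B' t ω = B t ω := by
  classical
  set M : ℕ → Ω → ℝ := fun n => (hB.aemeasurable (TopologicalSpace.denseSeq ℝ≥0 n)).mk with hM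
  have h1 : ∀ᵐ ω ∂P, Continuous (fun t => B t ω) ∧ B 0 ω = 0 ∧
      ∀ n, B (TopologicalSpace.denseSeq ℝ≥0 n) ω = M n ω := by
    have h2 : ∀ᵐ ω ∂P, ∀ n, B (TopologicalSpace.denseSeq ℝ≥0 n) ω = M n ω :=
      ae_all_iff.2 fun n => (hB.aemeasurable (TopologicalSpace.denseSeq ℝ≥0 n)).ae_eq_mk
    filter_upwards [hB.cont, hB.eval_zero_ae_eq_zero, h2] with ω h3 h4 h5 using ⟨h3, h4, h5⟩
  set bad : Set Ω := {ω | ¬ (Continuous (fun t => B t ω) ∧ B 0 ω = 0 ∧
      ∀ n, B (TopologicalSpace.denseSeq ℝ≥0 n) ω = M n ω)} with hbad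
  have hbad0 : P bad = 0 := h1
  set G : Set Ω := (toMeasurable P bad)ᶜ with hG
  have hGm : MeasurableSet G := (measurableSet_toMeasurable P bad).compl
  have hGae : ∀ᵐ ω ∂P, ω ∈ G := by
    rw [ae_iff]
    have : {ω | ω ∉ G} = toMeasurable P bad := by
      ext ω; simp [hG]
    rw [this, measure_toMeasurable, hbad0]
  have hGgood : ∀ ω ∈ G, Continuous (fun t => B t ω) ∧ B 0 ω = 0 ∧
      ∀ n, B (TopologicalSpace.denseSeq ℝ≥0 n) ω = M n ω := by
    intro ω hω
    by_contra h
    exact hω (subset_toMeasurable P bad h)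
  have hcont : ∀ ω, Continuous (fun t => G.indicator (B t) ω) := by
    intro ω
    by_cases hω : ω ∈ G
    · have : (fun t => G.indicator (B t) ω) = fun t => B t ω := by
        funext t; exact indicator_of_mem hω _
      rw [this]; exact (hGgood ω hω).1
    · have : (fun t => G.indicator (B t) ω) = fun t => 0 := by
        funext t; exact indicator_of_notMem hω _
      rw [this]; exact continuous_const
  refine ⟨fun t => G.indicator (B t), ⟨?_, ?_, hcont, ?_⟩, ?_⟩
  · refine hB.toIsPreBrownianReal.congr fun t => ?_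
    filter_upwards [hGae] with ω hω
    rw [indicator_of_mem hω]
  · intro t
    obtain ⟨u, hu1, hu2⟩ := mem_closure_iff_seq_limit.1
      ((TopologicalSpace.denseRange_denseSeq ℝ≥0) t)
    choose n hn using hu1
    have hmn : ∀ k, Measurable (fun ω => G.indicator (B (u k)) ω) := by
      intro k
      have : (fun ω => G.indicator (B (u k)) ω) = G.indicator (M (n k)) := by
        funext ω
        by_cases hω : ω ∈ G
        · rw [indicator_of_mem hω, indicator_of_mem hω, ← (hGgood ω hω).2.2, hn]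
        · rw [indicator_of_notMem hω, indicator_of_notMem hω]
      rw [this]
      exact ((hB.aemeasurable _).measurable_mk).indicator hGm
    refine measurable_of_tendsto_metrizable hmn ?_
    rw [tendsto_pi_nhds]
    intro ω
    exact ((hcont ω).tendsto t).comp hu2
  · intro ω
    by_cases hω : ω ∈ G
    · rw [indicator_of_mem hω]; exact (hGgood ω hω).2.1
    · rw [indicator_of_notMem hω]
  · filter_upwards [hGae] with ω hω t
    rw [indicator_of_mem hω]

section
variable {Ω : Type*} [MeasurableSpace Ω] {P : Measure Ω} {B : ℝ≥0 → Ω → ℝ}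

lemma GBM.prob (hB : GBM B P) : IsProbabilityMeasure P :=
  hB.pre.isGaussianProcess.isProbabilityMeasure

lemma GBM.neg (hB : GBM B P) : GBM (-B) P where
  pre := hB.pre.neg
  meas t := (hB.meas t).neg
  cont ω := (hB.cont ω).neg
  zero ω := by simp [hB.zero ω]

lemma GBM.shift (hB : GBM B P) (s : ℝ≥0) : GBM (fun t ω => B (s + t) ω - B s ω) P where
  pre := hB.pre.shift s
  meas t := (hB.meas _).sub (hB.meas _)
  cont ω := by
    have := hB.cont ω
    fun_prop
  zero ω := by simp

/-- two independent variables, one of which has no atoms, are a.s. different -/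
lemma noatom {X Y : Ω → ℝ} [IsProbabilityMeasure P] (hX : Measurable X) (hY : Measurable Y)
    (hind : IndepFun X Y P) (h0 : ∀ x, P {ω | X ω = x} = 0) : P {ω | X ω = Y ω} = 0 := by
  have hmap := (indepFun_iff_map_prod_eq_prod_map_map hX.aemeasurable hY.aemeasurable).mp hind
  have hS : MeasurableSet {q : ℝ × ℝ | q.1 = q.2} := measurableSet_eq_fun measurable_fst measurable_snd
  have h1 : {ω | X ω = Y ω} = (fun ω => (X ω, Y ω)) ⁻¹' {q : ℝ × ℝ | q.1 = q.2} := rfl
  rw [h1, ← Measure.map_apply (hX.prodMk hY) hS, hmap, Measure.prod_apply_symm hS]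
  rw [lintegral_eq_zero_iff (measurable_measure_prodMk_right hS)]
  filter_upwards with y
  have h2 : (fun x => (x, y)) ⁻¹' {q : ℝ × ℝ | q.1 = q.2} = {y} := by
    ext x; simp
  rw [h2, Measure.map_apply hX (measurableSet_singleton y)]
  exact h0 y

lemma eval_noatom (hB : GBM B P) {c : ℝ≥0} (hc : 0 < c) (x : ℝ) : P {ω | B c ω = x} = 0 := by
  have h1 : P.map (B c) = gaussianReal 0 c := (hB.pre.hasLaw_eval c).map_eq
  have h2 : {ω | B c ω = x} = B c ⁻¹' {x} := rfl
  rw [h2, ← Measure.map_apply (hB.meas c) (measurableSet_singleton x), h1]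
  have := nullSingletonClass_gaussianReal (μ := 0) hc.ne'
  exact measure_singleton x

/-- the maximum over `[c,e]`, `c > 0`, has no atoms -/
lemma mx_noatom (hB : GBM B P) {c e : ℝ≥0} (hc : 0 < c) (hce : c ≤ e) (x : ℝ) :
    P {ω | mx (fun t => B t ω) c e = x} = 0 := by
  have := hB.prob
  set V : Ω → ℝ := fun ω => mx (fun t => B (c + t) ω - B c ω) 0 (e - c) with hV
  have hVB := hB.shift c
  have hVm : Measurable V := (measurable_mx 0 (e - c)).comp (measurable_pi_lambda _ fun t => hVB.meas t)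
  have hdec : ∀ ω, mx (fun t => B t ω) c e = B c ω + V ω := by
    intro ω
    apply le_antisymm
    · apply mx_le hce
      intro s h1 h2
      have h3 := le_mx (w := fun t => B (c + t) ω - B c ω) (hVB.cont ω) (a := 0) (b := e - c)
        (s := s - c) zero_le (tsub_le_tsub_right h2 c)
      simp only [add_tsub_cancel_of_le h1] at h3
      simp only [hV]
      linarith
    · have h4 : V ω ≤ mx (fun t => B t ω) c e - B c ω := by
        apply mx_le zero_le
        intro s _ h2
        have h5 : c + s ≤ e := by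
          calc c + s ≤ c + (e - c) := by gcongr
            _ = e := add_tsub_cancel_of_le hce
        have h6 := le_mx (w := fun t => B t ω) (hB.cont ω) (a := c) (b := e) (s := c + s)
          le_self_add h5
        linarith
      linarith
  have hind : IndepFun (B c) V P := by
    have h1 := (hB.pre.indepFun_shift c).symm
    have hφ : Measurable (fun g : (Set.Iic c → ℝ) => g ⟨c, Set.mem_Iic.mpr le_rfl⟩) := by fun_prop
    exact h1.comp hφ (measurable_mx 0 (e - c))
  have h2 : {ω | mx (fun t => B t ω) c e = x} = {ω | B c ω = x - V ω} := by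
    ext ω
    simp only [Set.mem_ofPred_eq, hdec]
    constructor <;> intro h <;> linarith
  rw [h2]
  apply noatom (hB.meas c) (measurable_const.sub hVm)
  · exact hind.comp measurable_id (measurable_const.sub measurable_id)
  · exact eval_noatom hB hc

/-- maximum over one interval and minimum over a later one are different -/
lemma mx_ne_mn (hB : GBM B P) {a b c e : ℝ≥0} (hab : a ≤ b) (hbc : b < c) (hce : c ≤ e) :
    P {ω | mx (fun t => B t ω) a b = -mx (fun t => -B t ω) c e} = 0 := by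
  have := hB.prob
  have hW := hB.shift b
  -- `Y = -(min over [c,e] of B) + B_b`
  set Y : Ω → ℝ := fun ω => mx (fun t => -(B (b + t) ω - B b ω)) (c - b) (e - b) with hY
  have hcb : 0 < c - b := tsub_pos_of_lt hbc
  have hceb : c - b ≤ e - b := tsub_le_tsub_right hce b
  have hYm : Measurable Y :=
    (measurable_mx _ _).comp (measurable_pi_lambda _ fun t => (hW.meas t).neg)
  have hYna : ∀ x, P {ω | Y ω = x} = 0 := by
    intro x
    have := mx_noatom hW.neg hcb hceb x
    exact this
  set U : Ω → ℝ := fun ω => mx (fun t => B t ω) a b - B b ω with hU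
  have hUm : Measurable U :=
    ((measurable_mx _ _).comp (measurable_pi_lambda _ fun t => hB.meas t)).sub (hB.meas b)
  have hdec : ∀ ω, mx (fun t => -B t ω) c e = Y ω - B b ω := by
    intro ω
    have hce' := hce
    apply le_antisymm
    · apply mx_le hce
      intro s h1 h2
      have hbs : b ≤ s := hbc.le.trans h1
      have h3 := le_mx (w := fun t => -(B (b + t) ω - B b ω)) (hW.cont ω).neg (a := c - b)
        (b := e - b) (s := s - b) (tsub_le_tsub_right h1 b) (tsub_le_tsub_right h2 b)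
      simp only [add_tsub_cancel_of_le hbs] at h3
      simp only [hY]
      linarith
    · have h4 : Y ω ≤ mx (fun t => -B t ω) c e + B b ω := by
        apply mx_le hceb
        intro s h1 h2
        have h5 : b + s ≤ e := by
          calc b + s ≤ b + (e - b) := by gcongr
            _ = e := add_tsub_cancel_of_le (hbc.le.trans hce)
        have h5' : c ≤ b + s := by
          calc c = b + (c - b) := (add_tsub_cancel_of_le hbc.le).symm
            _ ≤ b + s := by gcongr
        have h6 := le_mx (w := fun t => -B t ω) (hB.cont ω).neg (a := c) (b := e) (s := b + s)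
          h5' h5
        linarith
      linarith
  have hind : IndepFun Y U P := by
    have h1 := hB.pre.indepFun_shift b
    have hφ : Measurable (fun w : (ℝ≥0 → ℝ) => mx (fun t => -(w t)) (c - b) (e - b)) :=
      (measurable_mx _ _).comp (measurable_pi_lambda _ fun t => (measurable_pi_apply t).neg)
    have hψ : Measurable (fun g : (Set.Iic b → ℝ) =>
        mx (fun t => g ⟨min t b, Set.mem_Iic.mpr (min_le_right _ _)⟩) a b -
          g ⟨b, Set.mem_Iic.mpr le_rfl⟩) := by
      have hext : Measurable (fun (g : Set.Iic b → ℝ) (t : ℝ≥0) =>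
          g ⟨min t b, Set.mem_Iic.mpr (min_le_right _ _)⟩) := by fun_prop
      have hev : Measurable (fun (g : Set.Iic b → ℝ) => g ⟨b, Set.mem_Iic.mpr le_rfl⟩) := by
        fun_prop
      exact ((measurable_mx a b).comp hext).sub hev
    have h2 := h1.comp hφ hψ
    have h3 : ((fun g : (Set.Iic b → ℝ) =>
        mx (fun t => g ⟨min t b, Set.mem_Iic.mpr (min_le_right _ _)⟩) a b -
          g ⟨b, Set.mem_Iic.mpr le_rfl⟩) ∘ fun ω (t : Set.Iic b) => B t ω) = U := by
      funext ω
      simp only [Function.comp, hU]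
      congr 1
      unfold mx
      congr 1
      funext n
      have : max a (min (dq n) b) ≤ b := max_le hab (min_le_right _ _)
      show B (min (max a (min (dq n) b)) b) ω = B (max a (min (dq n) b)) ω
      rw [min_eq_left this]
    rw [h3] at h2
    exact h2
  have h2 : {ω | mx (fun t => B t ω) a b = -mx (fun t => -B t ω) c e} = {ω | Y ω = -U ω} := by
    ext ω
    simp only [Set.mem_ofPred_eq, hdec, hU]
    constructor <;> intro h <;> linarith
  rw [h2]
  exact noatom hYm hUm.neg (hind.comp measurable_id measurable_neg) hYna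

end

/-- separation of maxima from later minima on rational intervals -/
def Sep (f : ℝ≥0 → ℝ) : Prop :=
  ∀ q1 q2 q3 q4 : ℚ, (q1 : ℝ).toNNReal ≤ (q2 : ℝ).toNNReal → (q2 : ℝ).toNNReal < (q3 : ℝ).toNNReal →
    (q3 : ℝ).toNNReal ≤ min (q4 : ℝ).toNNReal 1 →
    mx f (q1 : ℝ).toNNReal (q2 : ℝ).toNNReal ≠ -mx (fun t => -f t) (q3 : ℝ).toNNReal (min (q4 : ℝ).toNNReal 1)

lemma ae_sep {Ω : Type*} [MeasurableSpace Ω] {P : Measure Ω} {B : ℝ≥0 → Ω → ℝ} (hB : GBM B P) :
    ∀ᵐ ω ∂P, Sep (fun t => B t ω) := by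
  unfold Sep
  simp only [ae_all_iff, eventually_imp_distrib_left]
  intro q1 q2 q3 q4 h1 h2 h3
  rw [ae_iff]
  simpa using mx_ne_mn hB h1 h2 h3

lemma sep_half {f : ℝ≥0 → ℝ} (hf : Continuous f) (hs : Sep f) {s t : ℝ≥0} (hst : s < t)
    (ht : t ≤ 1) (heq : f s = f t) {ε : ℝ} (hε : 0 < ε) :
    ∃ s' t' : ℝ≥0, s' ≤ 1 ∧ t' ≤ 1 ∧ |(s' : ℝ) - s| < ε ∧ |(t' : ℝ) - t| < ε ∧ f t' < f s' := by
  by_contra hcon
  push Not at hcon
  have hst' : (s:ℝ) < t := by exact_mod_cast hst
  have ht' : (t:ℝ) ≤ 1 := by exact_mod_cast ht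
  have hs0 : (0:ℝ) ≤ s := s.2
  set r : ℝ := min ε (((t:ℝ) - s) / 3) with hr
  have hr0 : 0 < r := lt_min hε (by linarith)
  have hrε : r ≤ ε := min_le_left _ _
  have hr3 : 3 * r ≤ t - s := by have := min_le_right ε (((t:ℝ) - s) / 3); linarith
  obtain ⟨q1, h1a, h1b⟩ := exists_rat_btwn (show (s:ℝ) - r < s by linarith)
  obtain ⟨q2, h2a, h2b⟩ := exists_rat_btwn (show (s:ℝ) < s + r by linarith)
  obtain ⟨q3, h3a, h3b⟩ := exists_rat_btwn (show (t:ℝ) - r < t by linarith)
  obtain ⟨q4, h4a, h4b⟩ := exists_rat_btwn (show (t:ℝ) < t + r by linarith)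
  have e2 : (((q2 : ℝ).toNNReal : ℝ≥0) : ℝ) = q2 := Real.coe_toNNReal _ (by linarith)
  have e3 : (((q3 : ℝ).toNNReal : ℝ≥0) : ℝ) = q3 := Real.coe_toNNReal _ (by linarith)
  have e4 : (((q4 : ℝ).toNNReal : ℝ≥0) : ℝ) = q4 := Real.coe_toNNReal _ (by linarith)
  have e1 : (q1 : ℝ) ≤ (((q1 : ℝ).toNNReal : ℝ≥0) : ℝ) := Real.le_coe_toNNReal _
  have ha : (q1 : ℝ).toNNReal ≤ s := by
    rw [Real.toNNReal_le_iff_le_coe]; exact h1b.le
  have hb : s ≤ (q2 : ℝ).toNNReal := by
    rw [← NNReal.coe_le_coe, e2]; exact h2a.le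
  have hc : (q3 : ℝ).toNNReal ≤ t := by
    rw [← NNReal.coe_le_coe, e3]; exact h3b.le
  have he : t ≤ min (q4 : ℝ).toNNReal 1 := by
    apply le_min _ ht
    rw [← NNReal.coe_le_coe, e4]; exact h4a.le
  have hbc : (q2 : ℝ).toNNReal < (q3 : ℝ).toNNReal := by
    rw [← NNReal.coe_lt_coe, e2, e3]; linarith
  apply hs q1 q2 q3 q4 (ha.trans hb) hbc (hc.trans he)
  -- points
  have hI : ∀ u, (q1 : ℝ).toNNReal ≤ u → u ≤ (q2 : ℝ).toNNReal → u ≤ 1 ∧ |(u:ℝ) - s| < ε := by
    intro u hu1 hu2
    have g1 : (((q1 : ℝ).toNNReal : ℝ≥0) : ℝ) ≤ u := by exact_mod_cast hu1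
    have g2 : (u : ℝ) ≤ q2 := by rw [← e2]; exact_mod_cast hu2
    constructor
    · rw [← NNReal.coe_le_coe]; push_cast; linarith
    · rw [abs_lt]; constructor <;> linarith
  have hJ : ∀ u, (q3 : ℝ).toNNReal ≤ u → u ≤ min (q4 : ℝ).toNNReal 1 → u ≤ 1 ∧ |(u:ℝ) - t| < ε := by
    intro u hu1 hu2
    have g1 : (q3 : ℝ) ≤ u := by rw [← e3]; exact_mod_cast hu1
    have g2 : (u : ℝ) ≤ q4 := by rw [← e4]; exact_mod_cast hu2.trans (min_le_left _ _)
    refine ⟨hu2.trans (min_le_right _ _), ?_⟩
    rw [abs_lt]; constructor <;> linarith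
  have hsI := hI s ha hb
  have htJ := hJ t hc he
  have hmax : mx f (q1 : ℝ).toNNReal (q2 : ℝ).toNNReal = f s := by
    apply le_antisymm
    · apply mx_le (ha.trans hb)
      intro u hu1 hu2
      have := hI u hu1 hu2
      rw [heq]
      exact hcon u t this.1 ht this.2 htJ.2
    · exact le_mx hf ha hb
  have hmin : mx (fun t => -f t) (q3 : ℝ).toNNReal (min (q4 : ℝ).toNNReal 1) = -f t := by
    apply le_antisymm
    · apply mx_le (hc.trans he)
      intro u hu1 hu2
      have h5 := hJ u hu1 hu2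
      have h6 := hcon s u hsI.1 h5.1 hsI.2 h5.2
      linarith
    · exact le_mx (w := fun t => -f t) hf.neg hc he
  rw [hmax, hmin, neg_neg, heq]

lemma ndg_of_sep {f : ℝ≥0 → ℝ} (hf : Continuous f) (hs : Sep f) (hs' : Sep (fun t => -f t)) :
    NDG f := by
  intro s t hst ht heq ε hε
  refine ⟨?_, sep_half hf hs hst ht heq hε⟩
  obtain ⟨s', t', h1, h2, h3, h4, h5⟩ := sep_half hf.neg hs' hst ht
    (by show -f s = -f t; rw [heq]) hε
  exact ⟨s', t', h1, h2, h3, h4, neg_lt_neg_iff.mp h5⟩

/-- almost every Brownian path is nondegenerate -/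
theorem ae_ndg {Ω : Type*} [MeasurableSpace Ω] {P : Measure Ω} {B : ℝ≥0 → Ω → ℝ} (hB : GBM B P) :
    ∀ᵐ ω ∂P, NDG (fun t => B t ω) := by
  filter_upwards [ae_sep hB, ae_sep hB.neg] with ω h1 h2
  exact ndg_of_sep (hB.cont ω) h1 h2

end Pool.Agent.R974.Span
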