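import Mathlib

open Filter Topology Set
open scoped NNReal

namespace Pool.Agent.R974.Span

/-- The span set on `[0,1]` of a path. -/
def Sp (f : ℝ≥0 → ℝ) : Set ℝ :=
  {u | ∃ s t : ℝ≥0, s ≤ t ∧ t ≤ 1 ∧ f s = f t ∧ u = (t : ℝ) - s}

/-- The rescaled span set of the first `N` steps of a sequence. -/
def SpN (N : ℕ) (S : ℕ → ℝ) : Set ℝ :=
  {u | ∃ l k : ℕ, l ≤ k ∧ k ≤ N ∧ S k = S l ∧ u = ((k : ℝ) - l) / N}

/-- every nontrivial zero of `f t - f s` is a change of sign. -/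
def NDG (f : ℝ≥0 → ℝ) : Prop :=
  ∀ s t : ℝ≥0, s < t → t ≤ 1 → f s = f t → ∀ ε : ℝ, 0 < ε →
    (∃ s' t' : ℝ≥0, s' ≤ 1 ∧ t' ≤ 1 ∧ |(s' : ℝ) - s| < ε ∧ |(t' : ℝ) - t| < ε ∧ f s' < f t') ∧
    (∃ s' t' : ℝ≥0, s' ≤ 1 ∧ t' ≤ 1 ∧ |(s' : ℝ) - s| < ε ∧ |(t' : ℝ) - t| < ε ∧ f t' < f s')

/-- discrete intermediate value theorem, increasing order -/
lemma ivt_up (g : ℕ → ℤ) {a b : ℕ} (hab : a ≤ b)
    (hstep : ∀ i, a ≤ i → i < b → |g (i + 1) - g i| ≤ 1) (ha : g a ≤ 0) (hb : 0 ≤ g b) :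
    ∃ i, a ≤ i ∧ i ≤ b ∧ g i = 0 := by
  induction b, hab using Nat.le_induction with
  | base => exact ⟨a, le_rfl, le_rfl, le_antisymm ha hb⟩
  | succ b hab ih =>
    by_cases h : 0 ≤ g b
    · obtain ⟨i, h1, h2, h3⟩ := ih (fun i hi hi2 => hstep i hi (by omega)) h
      exact ⟨i, h1, by omega, h3⟩
    · have h4 := hstep b hab (by omega)
      rw [abs_le] at h4
      exact ⟨b + 1, by omega, le_rfl, by omega⟩

/-- discrete intermediate value theorem -/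
lemma ivt (g : ℕ → ℤ) {a b : ℕ}
    (hstep : ∀ i, min a b ≤ i → i < max a b → |g (i + 1) - g i| ≤ 1) (ha : g a ≤ 0) (hb : 0 ≤ g b) :
    ∃ i, min a b ≤ i ∧ i ≤ max a b ∧ g i = 0 := by
  rcases le_total a b with h | h
  · rw [min_eq_left h, max_eq_right h] at *
    exact ivt_up g h hstep ha hb
  · rw [min_eq_right h, max_eq_left h] at *
    obtain ⟨i, h1, h2, h3⟩ := ivt_up (fun i => -g i) h (fun i hi hi2 => by
      have := hstep i hi hi2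
      rw [abs_sub_comm]
      simpa [neg_add_eq_sub] using this) (by simpa using hb) (by simpa using ha)
    exact ⟨i, h1, h2, by simpa using h3⟩

/-- two-parameter version -/
lemma ivt2 (Z : ℕ → ℤ) {N l1 k1 l2 k2 : ℕ} (hstep : ∀ i < N, |Z (i + 1) - Z i| ≤ 1)
    (hl1 : l1 ≤ N) (hl2 : l2 ≤ N) (hk1 : k1 ≤ N) (hk2 : k2 ≤ N)
    (h1 : Z l1 < Z k1) (h2 : Z k2 < Z l2) :
    ∃ l k, min l1 l2 ≤ l ∧ l ≤ max l1 l2 ∧ min k1 k2 ≤ k ∧ k ≤ max k1 k2 ∧ Z k = Z l := by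
  rcases le_total (Z k1) (Z l2) with h | h
  · -- move in `l` from `l1` to `l2` with `k1` fixed
    obtain ⟨l, ha, hb, hc⟩ := ivt (fun l => Z l - Z k1) (a := l1) (b := l2) (fun i _ hi => by
      have := hstep i (lt_of_lt_of_le hi (max_le hl1 hl2))
      simpa using this) (by omega) (by omega)
    exact ⟨l, k1, ha, hb, min_le_left _ _, le_max_left _ _, by omega⟩
  · -- move in `k` from `k2` to `k1` with `l2` fixed
    obtain ⟨k, ha, hb, hc⟩ := ivt (fun k => Z k - Z l2) (a := k2) (b := k1) (fun i _ hi => by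
      have := hstep i (lt_of_lt_of_le hi (max_le hk2 hk1))
      simpa using this) (by omega) (by omega)
    exact ⟨l2, k, min_le_right _ _, le_max_right _ _, by rw [min_comm]; exact ha,
      by rw [max_comm]; exact hb, by omega⟩

lemma floor_tendsto (t : ℝ≥0) :
    Tendsto (fun N : ℕ => ((⌊t * N⌋₊ : ℕ) : ℝ≥0) / N) atTop (𝓝 t) := by
  have h := tendsto_nat_floor_mul_div_atTop (R := ℝ) (a := t) t.2
  have h2 := h.comp (tendsto_natCast_atTop_atTop (R := ℝ))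
  rw [← NNReal.tendsto_coe]
  refine h2.congr fun N => ?_
  simp only [Function.comp]
  push_cast
  congr 2

lemma floor_le' (t : ℝ≥0) (N : ℕ) (hN : 0 < N) : (((⌊t * N⌋₊ : ℕ) : ℝ) / N) ≤ t := by
  have hN' : (0:ℝ) < N := by exact_mod_cast hN
  rw [div_le_iff₀ hN']
  have h : ((⌊t * N⌋₊ : ℕ) : ℝ≥0) ≤ t * N := Nat.floor_le zero_le
  exact_mod_cast h

lemma lt_floor' (t : ℝ≥0) (N : ℕ) (hN : 0 < N) : (t : ℝ) - 1 / N < (((⌊t * N⌋₊ : ℕ) : ℝ) / N) := by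
  have hN' : (0:ℝ) < N := by exact_mod_cast hN
  rw [sub_lt_iff_lt_add, ← add_div, lt_div_iff₀ hN']
  have h : t * N < ((⌊t * N⌋₊ : ℕ) : ℝ≥0) + 1 := Nat.lt_floor_add_one _
  exact_mod_cast h

lemma floor_le_N {t : ℝ≥0} (ht : t ≤ 1) (N : ℕ) : ⌊t * N⌋₊ ≤ N := by
  have h : t * N ≤ N := mul_le_of_le_one_left zero_le ht
  calc ⌊t * N⌋₊ ≤ ⌊(N : ℝ≥0)⌋₊ := Nat.floor_mono h
    _ = N := Nat.floor_natCast N

/-- approximation of a nontrivial span -/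
lemma lower_local {f : ℝ≥0 → ℝ} (hf : Continuous f) (hnd : NDG f) {u : ℝ} (hu : u ∈ Sp f) {ε : ℝ}
    (hε : 0 < ε) : ∃ δ > 0, ∃ N0 : ℕ, ∀ N ≥ N0, 0 < N → ∀ a : ℝ, 0 < a → ∀ Z : ℕ → ℤ,
      (∀ k < N, |Z (k + 1) - Z k| ≤ 1) → (∀ k ≤ N, |a * Z k - f ((k : ℝ≥0) / N)| ≤ δ) →
      ∃ x ∈ SpN N (fun k => Z k), |u - x| ≤ ε := by
  obtain ⟨s, t, hst, ht1, hfst, rfl⟩ := hu
  rcases hst.eq_or_lt with rfl | hlt
  · refine ⟨1, one_pos, 0, fun N _ _ a _ Z _ _ => ⟨0, ⟨0, 0, le_rfl, Nat.zero_le _, rfl, by simp⟩, ?_⟩⟩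
    simpa using hε.le
  have hlt' : (s:ℝ) < t := by exact_mod_cast hlt
  set r : ℝ := min (ε / 4) (((t:ℝ) - s) / 4) with hr
  have hr0 : 0 < r := lt_min (by linarith) (by linarith)
  have hr1 : 4 * r ≤ ε := by have := min_le_left (ε / 4) (((t:ℝ) - s) / 4); linarith
  have hr2 : 4 * r ≤ (t:ℝ) - s := by have := min_le_right (ε / 4) (((t:ℝ) - s) / 4); linarith
  obtain ⟨⟨s1, t1, hs1, ht1', hs1r, ht1r, h1⟩, ⟨s2, t2, hs2, ht2', hs2r, ht2r, h2⟩⟩ :=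
    hnd s t hlt ht1 hfst r hr0
  set η : ℝ := min (f t1 - f s1) (f s2 - f t2) with hη
  have hη0 : 0 < η := lt_min (by linarith) (by linarith)
  have hη1 : η ≤ f t1 - f s1 := min_le_left _ _
  have hη2 : η ≤ f s2 - f t2 := min_le_right _ _
  have hcont : ∀ q : ℝ≥0, ∀ᶠ N : ℕ in atTop,
      |f (((⌊q * N⌋₊ : ℕ) : ℝ≥0) / N) - f q| < η / 8 := by
    intro q
    have h3 := (hf.tendsto q).comp (floor_tendsto q)
    exact (Metric.tendsto_nhds.mp h3) (η / 8) (by linarith)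
  have hN1 : ∀ᶠ N : ℕ in atTop, (1:ℝ) / N < r := by
    have h4 := tendsto_one_div_atTop_nhds_zero_nat (𝕜 := ℝ)
    exact h4.eventually (gt_mem_nhds hr0)
  obtain ⟨N0, hN0⟩ := ((hcont s1).and ((hcont t1).and ((hcont s2).and
    ((hcont t2).and hN1)))).exists_forall_of_atTop
  refine ⟨η / 8, by linarith, N0, fun N hN hNpos a ha Z hZ hclose => ?_⟩
  obtain ⟨c1, c2, c3, c4, hNr⟩ := hN0 N hN
  rw [abs_lt] at c1 c2 c3 c4
  have hNR : (0:ℝ) < N := by exact_mod_cast hNpos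
  have d1 := hclose _ (floor_le_N hs1 N)
  have d2 := hclose _ (floor_le_N ht1' N)
  have d3 := hclose _ (floor_le_N hs2 N)
  have d4 := hclose _ (floor_le_N ht2' N)
  rw [abs_le] at d1 d2 d3 d4
  have e1 : Z ⌊s1 * N⌋₊ < Z ⌊t1 * N⌋₊ := by
    have : a * (Z ⌊s1 * N⌋₊ : ℝ) < a * Z ⌊t1 * N⌋₊ := by linarith
    have h5 : (Z ⌊s1 * N⌋₊ : ℝ) < Z ⌊t1 * N⌋₊ := lt_of_mul_lt_mul_left this ha.le
    exact_mod_cast h5
  have e2 : Z ⌊t2 * N⌋₊ < Z ⌊s2 * N⌋₊ := by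
    have : a * (Z ⌊t2 * N⌋₊ : ℝ) < a * Z ⌊s2 * N⌋₊ := by linarith
    have h5 : (Z ⌊t2 * N⌋₊ : ℝ) < Z ⌊s2 * N⌋₊ := lt_of_mul_lt_mul_left this ha.le
    exact_mod_cast h5
  obtain ⟨l, k, hl1, hl2, hk1, hk2, hZ0⟩ := ivt2 Z hZ (floor_le_N hs1 N) (floor_le_N hs2 N)
    (floor_le_N ht1' N) (floor_le_N ht2' N) e1 e2
  -- real bounds
  have key : ∀ (q q1 q2 : ℝ≥0) (i : ℕ), |(q1:ℝ) - q| < r → |(q2:ℝ) - q| < r →
      min ⌊q1 * N⌋₊ ⌊q2 * N⌋₊ ≤ i → i ≤ max ⌊q1 * N⌋₊ ⌊q2 * N⌋₊ → |(i:ℝ) / N - q| < 2 * r := by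
    intro q q1 q2 i hq1 hq2 hi1 hi2
    rw [abs_lt] at hq1 hq2
    have f1 := floor_le' q1 N hNpos
    have f2 := floor_le' q2 N hNpos
    have g1 := lt_floor' q1 N hNpos
    have g2 := lt_floor' q2 N hNpos
    rw [abs_lt]
    constructor
    · rcases min_le_iff.mp hi1 with h | h
      · have : (((⌊q1 * N⌋₊ : ℕ) : ℝ) / N) ≤ (i:ℝ) / N := by
          apply div_le_div_of_nonneg_right _ hNR.le
          exact_mod_cast h
        linarith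
      · have : (((⌊q2 * N⌋₊ : ℕ) : ℝ) / N) ≤ (i:ℝ) / N := by
          apply div_le_div_of_nonneg_right _ hNR.le
          exact_mod_cast h
        linarith
    · rcases le_max_iff.mp hi2 with h | h
      · have : (i:ℝ) / N ≤ (((⌊q1 * N⌋₊ : ℕ) : ℝ) / N) := by
          apply div_le_div_of_nonneg_right _ hNR.le
          exact_mod_cast h
        linarith
      · have : (i:ℝ) / N ≤ (((⌊q2 * N⌋₊ : ℕ) : ℝ) / N) := by
          apply div_le_div_of_nonneg_right _ hNR.le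
          exact_mod_cast h
        linarith
  have hl := key s s1 s2 l hs1r hs2r hl1 hl2
  have hk := key t t1 t2 k ht1r ht2r hk1 hk2
  rw [abs_lt] at hl hk
  have hlk : (l:ℝ) / N ≤ (k:ℝ) / N := by linarith
  have hlk' : l ≤ k := by
    have := (div_le_div_iff_of_pos_right hNR).mp hlk
    exact_mod_cast this
  have hkN : k ≤ N := hk2.trans (max_le (floor_le_N ht1' N) (floor_le_N ht2' N))
  refine ⟨((k:ℝ) - l) / N, ⟨l, k, hlk', hkN, by simp only; exact_mod_cast hZ0, rfl⟩, ?_⟩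
  rw [sub_div, abs_le]
  constructor <;> linarith

lemma isCompact_tri : IsCompact {q : ℝ≥0 × ℝ≥0 | q.1 ≤ q.2 ∧ q.2 ≤ 1} := by
  have h1 : IsCompact (Icc (0:ℝ≥0) 1 ×ˢ Icc (0:ℝ≥0) 1) := isCompact_Icc.prod isCompact_Icc
  refine h1.of_isClosed_subset ?_ ?_
  · have h2 : IsClosed {q : ℝ≥0 × ℝ≥0 | q.1 ≤ q.2} := isClosed_le continuous_fst continuous_snd
    have h3 : IsClosed {q : ℝ≥0 × ℝ≥0 | q.2 ≤ 1} := isClosed_le continuous_snd continuous_const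
    exact h2.inter h3
  · rintro q ⟨ha, hb⟩
    exact ⟨⟨zero_le, ha.trans hb⟩, ⟨zero_le, hb⟩⟩

lemma isCompact_Sp {f : ℝ≥0 → ℝ} (hf : Continuous f) : IsCompact (Sp f) := by
  have h1 : Sp f = (fun q : ℝ≥0 × ℝ≥0 => (q.2 : ℝ) - q.1) ''
      ({q | q.1 ≤ q.2 ∧ q.2 ≤ 1} ∩ {q | f q.1 = f q.2}) := by
    ext u
    constructor
    · rintro ⟨s, t, h1, h2, h3, rfl⟩
      exact ⟨(s, t), ⟨⟨h1, h2⟩, h3⟩, rfl⟩
    · rintro ⟨⟨s, t⟩, ⟨⟨h1, h2⟩, h3⟩, rfl⟩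
      exact ⟨s, t, h1, h2, h3, rfl⟩
  rw [h1]
  apply IsCompact.image
  · exact isCompact_tri.inter_right (isClosed_eq (hf.comp continuous_fst) (hf.comp continuous_snd))
  · fun_prop

lemma upper {f : ℝ≥0 → ℝ} (hf : Continuous f) {ε : ℝ} (hε : 0 < ε) :
    ∃ δ > 0, ∀ s t : ℝ≥0, s ≤ t → t ≤ 1 → |f s - f t| ≤ δ → ∃ y ∈ Sp f, |((t:ℝ) - s) - y| ≤ ε := by
  set C : Set (ℝ≥0 × ℝ≥0) := {q | q.1 ≤ q.2 ∧ q.2 ≤ 1} ∩
    ⋂ y ∈ Sp f, {q | ε ≤ |((q.2:ℝ) - q.1) - y|} with hC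
  have hCc : IsCompact C := by
    apply isCompact_tri.inter_right
    refine isClosed_biInter fun y _ => isClosed_le continuous_const ?_
    fun_prop
  rcases C.eq_empty_or_nonempty with hE | hN
  · refine ⟨1, one_pos, fun s t hst ht _ => ?_⟩
    by_contra hcon
    push Not at hcon
    have : (s, t) ∈ C := by
      refine ⟨⟨hst, ht⟩, ?_⟩
      simp only [mem_iInter]
      intro y hy
      exact (hcon y hy).le
    rw [hE] at this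
    exact this
  · obtain ⟨q, hq, hmin⟩ := hCc.exists_isMinOn hN
      (f := fun q : ℝ≥0 × ℝ≥0 => |f q.1 - f q.2|) (by fun_prop)
    have hpos : 0 < |f q.1 - f q.2| := by
      rw [abs_pos, sub_ne_zero]
      intro heq
      have hmem : ((q.2:ℝ) - q.1) ∈ Sp f := ⟨q.1, q.2, hq.1.1, hq.1.2, heq, rfl⟩
      have h2 := mem_iInter₂.mp hq.2 _ hmem
      simp only [Set.mem_ofPred_eq, sub_self, abs_zero] at h2
      linarith
    refine ⟨|f q.1 - f q.2| / 2, by linarith, fun s t hst ht hd => ?_⟩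
    by_contra hcon
    push Not at hcon
    have h3 : (s, t) ∈ C := by
      refine ⟨⟨hst, ht⟩, ?_⟩
      simp only [mem_iInter]
      intro y hy
      exact (hcon y hy).le
    have h4 : |f q.1 - f q.2| ≤ |f s - f t| := hmin h3
    linarith

/-- **Stability of the span set.** -/
theorem stab {f : ℝ≥0 → ℝ} (hf : Continuous f) (hnd : NDG f) {ε : ℝ} (hε : 0 < ε) :
    ∃ δ > 0, ∃ N0 : ℕ, ∀ N ≥ N0, 0 < N → ∀ a : ℝ, 0 < a → ∀ Z : ℕ → ℤ,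
      (∀ k < N, |Z (k + 1) - Z k| ≤ 1) → (∀ k ≤ N, |a * Z k - f ((k : ℝ≥0) / N)| ≤ δ) →
      Metric.hausdorffDist (SpN N (fun k => Z k)) (Sp f) ≤ ε := by
  obtain ⟨δ1, hδ1, hup⟩ := upper hf hε
  have hlow : ∃ δ > 0, ∃ N0 : ℕ, ∀ N ≥ N0, 0 < N → ∀ a : ℝ, 0 < a → ∀ Z : ℕ → ℤ,
      (∀ k < N, |Z (k + 1) - Z k| ≤ 1) → (∀ k ≤ N, |a * Z k - f ((k : ℝ≥0) / N)| ≤ δ) →
      ∀ u ∈ Sp f, ∃ x ∈ SpN N (fun k => Z k), |u - x| ≤ ε := by
    refine (isCompact_Sp hf).induction_on (p := fun A => ∃ δ > 0, ∃ N0 : ℕ, ∀ N ≥ N0, 0 < N →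
      ∀ a : ℝ, 0 < a → ∀ Z : ℕ → ℤ, (∀ k < N, |Z (k + 1) - Z k| ≤ 1) →
      (∀ k ≤ N, |a * Z k - f ((k : ℝ≥0) / N)| ≤ δ) →
      ∀ u ∈ A, ∃ x ∈ SpN N (fun k => Z k), |u - x| ≤ ε) ?_ ?_ ?_ ?_
    · exact ⟨1, one_pos, 0, fun N _ _ a _ Z _ _ u hu => absurd hu (notMem_empty _)⟩
    · rintro A B hAB ⟨δ, hδ, N0, h⟩
      exact ⟨δ, hδ, N0, fun N hN hN0 a ha Z hZ hc u hu => h N hN hN0 a ha Z hZ hc u (hAB hu)⟩
    · rintro A B ⟨δ, hδ, N0, h⟩ ⟨δ', hδ', N0', h'⟩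
      refine ⟨min δ δ', lt_min hδ hδ', max N0 N0', fun N hN hN0 a ha Z hZ hc u hu => ?_⟩
      rcases hu with hu | hu
      · exact h N ((le_max_left _ _).trans hN) hN0 a ha Z hZ
          (fun k hk => (hc k hk).trans (min_le_left _ _)) u hu
      · exact h' N ((le_max_right _ _).trans hN) hN0 a ha Z hZ
          (fun k hk => (hc k hk).trans (min_le_right _ _)) u hu
    · intro u hu
      obtain ⟨δ, hδ, N0, h⟩ := lower_local hf hnd hu (ε := ε / 2) (by linarith)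
      refine ⟨Metric.ball u (ε / 2), mem_nhdsWithin_of_mem_nhds (Metric.ball_mem_nhds _ (by linarith)),
        δ, hδ, N0, fun N hN hN0 a ha Z hZ hc v hv => ?_⟩
      obtain ⟨x, hx, hxu⟩ := h N hN hN0 a ha Z hZ hc
      refine ⟨x, hx, ?_⟩
      rw [Metric.mem_ball, Real.dist_eq] at hv
      calc |v - x| = |(v - u) + (u - x)| := by ring_nf
        _ ≤ |v - u| + |u - x| := abs_add_le _ _
        _ ≤ ε := by linarith
  obtain ⟨δ2, hδ2, N0, hlow⟩ := hlow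
  refine ⟨min (δ1 / 2) δ2, lt_min (by linarith) hδ2, N0, fun N hN hNpos a ha Z hZ hc => ?_⟩
  have hNR : (0:ℝ) < N := by exact_mod_cast hNpos
  apply Metric.hausdorffDist_le_of_mem_dist hε.le
  · rintro x ⟨l, k, hlk, hkN, hS, rfl⟩
    have h1 : ((l : ℝ≥0) / N) ≤ (k : ℝ≥0) / N := by gcongr
    have h2 : ((k : ℝ≥0) / N) ≤ 1 := by
      apply div_le_one_of_le₀ _ zero_le
      exact_mod_cast hkN
    have h3 : |f ((l : ℝ≥0) / N) - f ((k : ℝ≥0) / N)| ≤ δ1 := by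
      have hk := (hc k hkN).trans (min_le_left _ _)
      have hl := (hc l (hlk.trans hkN)).trans (min_le_left _ _)
      simp only at hS
      rw [hS] at hk
      rw [abs_le] at hk hl ⊢
      constructor <;> linarith
    obtain ⟨y, hy, hxy⟩ := hup _ _ h1 h2 h3
    refine ⟨y, hy, ?_⟩
    rw [Real.dist_eq]
    have h4 : ((k:ℝ) - l) / N = (((k : ℝ≥0) / N : ℝ≥0) : ℝ) - (((l : ℝ≥0) / N : ℝ≥0) : ℝ) := by
      push_cast; ring
    rw [h4]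
    exact hxy
  · intro u hu
    obtain ⟨x, hx, hxu⟩ := hlow N hN hNpos a ha Z hZ
      (fun k hk => (hc k hk).trans (min_le_right _ _)) u hu
    exact ⟨x, hx, by rw [Real.dist_eq]; exact hxu⟩

end Pool.Agent.R974.Span
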