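import Pool.Agent.R974.Span.Inv4

open MeasureTheory ProbabilityTheory Filter Topology Set
open scoped ENNReal NNReal BoundedContinuousFunction

namespace Pool.Agent.R974.Span

variable {Ω : Type*} [MeasurableSpace Ω] {P : Measure Ω}
variable {Ω' : Type*} [MeasurableSpace Ω'] {P' : Measure Ω'}
variable {ξ : ℕ → Ω → ℤ} {B : ℝ≥0 → Ω' → ℝ}
variable {E : Type*} [MetricSpace E] [MeasurableSpace E] [BorelSpace E]

/-- `T N Z` is close to `y` as soon as the (nearest neighbour) path `a Z` is uniformly close to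
`f` on the grid `k / N`. -/
def Stable (T : ℕ → (ℕ → ℤ) → E) (f : ℝ≥0 → ℝ) (y : E) : Prop :=
  ∀ ε > 0, ∃ δ > 0, ∃ N0 : ℕ, ∀ N ≥ N0, 0 < N → ∀ a > 0, ∀ z : ℕ → ℤ,
    (∀ k < N, |z (k + 1) - z k| ≤ 1) → (∀ k ≤ N, |a * z k - f ((k : ℝ≥0) / N)| ≤ δ) →
      dist (T N z) y ≤ ε

lemma exists_good_N {f : ℝ≥0 → ℝ} (hf : Continuous f) (j : ℕ) :
    ∃ N : ℕ, j + 1 ≤ N ∧ ∀ k < N, |⌊((j : ℝ) + 1) * f (((k + 1 : ℕ) : ℝ≥0) / N)⌋ -
      ⌊((j : ℝ) + 1) * f ((k : ℝ≥0) / N)⌋| ≤ 1 := by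
  have h1 : UniformContinuousOn f (Icc 0 1) :=
    isCompact_Icc.uniformContinuousOn_of_continuous hf.continuousOn
  obtain ⟨δ, hδ, h2⟩ := Metric.uniformContinuousOn_iff.mp h1 (1 / ((j : ℝ) + 1)) (by positivity)
  obtain ⟨M0, hM0⟩ := exists_nat_gt (1 / δ)
  refine ⟨max (j + 1) (M0 + 1), le_max_left _ _, fun k hk => ?_⟩
  set N := max (j + 1) (M0 + 1) with hN
  have hNpos : 0 < N := lt_of_lt_of_le (by omega) (le_max_left _ _)
  have hN' : (0:ℝ) < N := by exact_mod_cast hNpos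
  have hNM : (M0 : ℝ) + 1 ≤ N := by
    have : M0 + 1 ≤ N := le_max_right _ _
    exact_mod_cast this
  have h3 : ((k : ℝ≥0) / N) ∈ Icc (0:ℝ≥0) 1 := by
    refine ⟨zero_le, ?_⟩
    rw [← NNReal.coe_le_coe]
    push_cast
    rw [div_le_one hN']; exact_mod_cast hk.le
  have h4 : (((k + 1 : ℕ) : ℝ≥0) / N) ∈ Icc (0:ℝ≥0) 1 := by
    refine ⟨zero_le, ?_⟩
    rw [← NNReal.coe_le_coe]
    push_cast
    rw [div_le_one hN']; exact_mod_cast hk
  have h5 := h2 _ h4 _ h3 (by
    rw [NNReal.dist_eq]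
    push_cast
    rw [← sub_div, add_sub_cancel_left, abs_of_nonneg (by positivity)]
    rw [div_lt_comm₀ hN' hδ]
    linarith)
  rw [Real.dist_eq, lt_div_iff₀ (by positivity), ← abs_of_pos (by positivity : (0:ℝ) < (j:ℝ) + 1),
    ← abs_mul, sub_mul, mul_comm, mul_comm (f _) ((j:ℝ) + 1)] at h5
  set x := ((j : ℝ) + 1) * f (((k + 1 : ℕ) : ℝ≥0) / N)
  set y := ((j : ℝ) + 1) * f ((k : ℝ≥0) / N)
  have h6 := abs_lt.mp h5
  have e1 := Int.floor_le x
  have e2 := Int.lt_floor_add_one x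
  have e3 := Int.floor_le y
  have e4 := Int.lt_floor_add_one y
  have f1 : ((⌊x⌋ - ⌊y⌋ : ℤ) : ℝ) < 2 := by push_cast; linarith
  have f2 : (-2 : ℝ) < ((⌊x⌋ - ⌊y⌋ : ℤ) : ℝ) := by push_cast; linarith
  have f1' : ⌊x⌋ - ⌊y⌋ < 2 := by exact_mod_cast f1
  have f2' : -2 < ⌊x⌋ - ⌊y⌋ := by exact_mod_cast f2
  rw [abs_le]
  omega

/-- local functionals of an integer valued discrete process are measurable -/
lemma meas_local' {z : ℕ → Ω' → ℤ} (hz : ∀ k, Measurable (z k)) {N : ℕ}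
    {Φ : (ℕ → ℤ) → E} (hloc : ∀ z z', (∀ k ≤ N, z k = z' k) → Φ z = Φ z') :
    Measurable (fun ω => Φ (fun k => z k ω)) := by
  have e : (fun ω => Φ (fun k => z k ω)) =
      (fun v : Fin (N + 1) → ℤ => Φ (fun k => if hk : k < N + 1 then v ⟨k, hk⟩ else 0)) ∘
        (fun ω (k : Fin (N + 1)) => z k ω) := by
    funext ω
    apply hloc
    intro k hk
    have : k < N + 1 := by omega
    simp [this]
  rw [e]
  exact (Measurable.of_discrete).comp (measurable_pi_lambda _ fun k => hz k)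

theorem aemeas_limit (hB : GBM B P') {T : ℕ → (ℕ → ℤ) → E}
    (hloc : ∀ N z z', (∀ k ≤ N, z k = z' k) → T N z = T N z') {Y : Ω' → E}
    (hst : ∀ᵐ ω ∂P', Stable T (fun t => B t ω) (Y ω)) : AEMeasurable Y P' := by
  classical
  set z : ℕ → ℕ → ℕ → Ω' → ℤ := fun j N k ω => ⌊((j : ℝ) + 1) * B ((k : ℝ≥0) / N) ω⌋ with hz
  have hzm : ∀ j N k, Measurable (z j N k) := fun j N k =>
    Int.measurable_floor.comp ((hB.meas _).const_mul _)
  have hex : ∀ j ω, ∃ N : ℕ, j + 1 ≤ N ∧ ∀ k < N, |z j N (k + 1) ω - z j N k ω| ≤ 1 :=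
    fun j ω => exists_good_N (hB.cont ω) j
  set A : ℕ → Ω' → E := fun j ω => T (Nat.find (hex j ω)) (fun k => z j (Nat.find (hex j ω)) k ω)
    with hA
  have hAm : ∀ j, Measurable (A j) := by
    intro j
    refine Measurable.find (f := fun N ω => T N (fun k => z j N k ω)) (fun N => ?_) (fun N => ?_)
      (hex j)
    · exact meas_local' (hzm j N) (hloc N)
    · have : {ω | j + 1 ≤ N ∧ ∀ k < N, |z j N (k + 1) ω - z j N k ω| ≤ 1} =
          {_ω | j + 1 ≤ N} ∩ ⋂ k, ⋂ _ : k < N, {ω | |z j N (k + 1) ω - z j N k ω| ≤ 1} := by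
        ext ω; simp
      rw [this]
      refine (MeasurableSet.const _).inter (MeasurableSet.iInter fun k =>
        MeasurableSet.iInter fun _ => ?_)
      have hm : Measurable (fun ω => |z j N (k + 1) ω - z j N k ω|) :=
        (Measurable.of_discrete (f := fun p : ℤ × ℤ => |p.1 - p.2|)).comp
          ((hzm j N (k + 1)).prodMk (hzm j N k))
      exact hm (MeasurableSet.of_discrete (s := {m : ℤ | m ≤ 1}))
  refine aemeasurable_of_tendsto_metrizable_ae' (fun j => (hAm j).aemeasurable) ?_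
  filter_upwards [hst] with ω hω
  rw [Metric.tendsto_atTop]
  intro ε hε
  obtain ⟨δ, hδ, N0, hN0⟩ := hω (ε / 2) (by positivity)
  obtain ⟨n1, hn1⟩ := exists_nat_gt (1 / δ)
  refine ⟨max N0 n1, fun j hj => ?_⟩
  obtain ⟨h1, h2⟩ := Nat.find_spec (hex j ω)
  have hjN0 : N0 ≤ j := (le_max_left _ _).trans hj
  have hjn1 : n1 ≤ j := (le_max_right _ _).trans hj
  have hj' : (n1 : ℝ) ≤ j := by exact_mod_cast hjn1
  have hδj : 1 / ((j : ℝ) + 1) ≤ δ := by
    rw [div_le_comm₀ (by positivity) hδ]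
    linarith
  refine (hN0 _ (by omega) (by omega) (1 / ((j : ℝ) + 1)) (by positivity)
    (fun k => z j (Nat.find (hex j ω)) k ω) h2 fun k _ => ?_).trans_lt (by linarith)
  refine le_trans ?_ hδj
  set x := B ((k : ℝ≥0) / (Nat.find (hex j ω) : ℕ)) ω
  have e1 := Int.floor_le (((j : ℝ) + 1) * x)
  have e2 := Int.lt_floor_add_one (((j : ℝ) + 1) * x)
  have hjpos : (0:ℝ) < (j : ℝ) + 1 := by positivity
  change |1 / ((j : ℝ) + 1) * (⌊((j : ℝ) + 1) * x⌋ : ℤ) - x| ≤ 1 / ((j : ℝ) + 1)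
  have e3 : 1 / ((j : ℝ) + 1) * (((j : ℝ) + 1) * x) = x := by field_simp
  have hpos : 0 ≤ 1 / ((j : ℝ) + 1) := by positivity
  have e4 := mul_le_mul_of_nonneg_left e1 hpos
  have e5 := mul_le_mul_of_nonneg_left e2.le hpos
  rw [mul_add, mul_one] at e5
  rw [abs_le]
  constructor <;> linarith

/-- **Invariance principle** for functionals which are almost surely stable under uniform
approximation of the Brownian path by nearest neighbour discrete paths. -/
theorem donsker (h : Steps ξ P) (hB : GBM B P') [IsProbabilityMeasure P] [IsProbabilityMeasure P']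
    {T : ℕ → (ℕ → ℤ) → E}
    (hloc : ∀ N z z', (∀ k ≤ N, z k = z' k) → T N z = T N z') {Y : Ω' → E}
    (hst : ∀ᵐ ω ∂P', Stable T (fun t => B t ω) (Y ω)) :
    TendstoInDistribution (fun N ω => T N (fun k => walk ξ k ω)) atTop Y (fun _ => P) P' where
  forall_aemeasurable N := (h.meas_local (hloc N)).aemeasurable
  aemeasurable_limit := aemeas_limit hB hloc hst
  tendsto := by
    have hYm := aemeas_limit hB hloc hst
    refine ProbabilityMeasure.tendsto_iff_forall_integral_tendsto.mpr fun F => ?_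
    have key : ∀ F : E →ᵇ ℝ, ∀ ε > 0, ∀ᶠ N in atTop,
        ∫ ω, F (T N (fun k => walk ξ k ω)) ∂P ≤ ∫ ω, F (Y ω) ∂P' + ε := by
      intro F ε hε
      refine inv_upper (Φ := fun N z => F (T N z)) (C0 := ‖F‖) (y := fun ω => F (Y ω)) h hB
        (fun N z => F.norm_coe_le_norm _) (fun N z z' hzz => by rw [hloc N z z' hzz])
        (fun ω => F.norm_coe_le_norm _)
        (F.continuous.measurable.comp_aemeasurable hYm).aestronglyMeasurable ?_ hε
      filter_upwards [hst] with ω hω ε' hε'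
      have hFc : ContinuousAt F (Y ω) := F.continuous.continuousAt
      rw [Metric.continuousAt_iff] at hFc
      obtain ⟨ρ, hρ, hFρ⟩ := hFc ε' hε'
      obtain ⟨δ, hδ, N0, hN0⟩ := hω (ρ / 2) (by positivity)
      refine ⟨δ, hδ, N0, fun N hN hN' a ha z hz hclose => ?_⟩
      have h1 := hFρ ((hN0 N hN hN' a ha z hz hclose).trans_lt (by linarith))
      rw [Real.dist_eq] at h1
      have h2 := (abs_lt.mp h1).2
      linarith
    have e1 : ∀ (F : E →ᵇ ℝ) (N : ℕ), ∫ x, F x ∂(P.map (fun ω => T N (fun k => walk ξ k ω))) =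
        ∫ ω, F (T N (fun k => walk ξ k ω)) ∂P := fun F N =>
      integral_map (h.meas_local (hloc N)).aemeasurable
        F.continuous.measurable.stronglyMeasurable.aestronglyMeasurable
    have e2 : ∀ (F : E →ᵇ ℝ), ∫ x, F x ∂(P'.map Y) = ∫ ω, F (Y ω) ∂P' := fun F =>
      integral_map hYm F.continuous.measurable.stronglyMeasurable.aestronglyMeasurable
    change Tendsto (fun N => ∫ x, F x ∂(P.map (fun ω => T N (fun k => walk ξ k ω)))) atTop
      (𝓝 (∫ x, F x ∂(P'.map Y)))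
    simp_rw [e1 F, e2 F]
    rw [Metric.tendsto_atTop]
    intro ε hε
    obtain ⟨N1, hN1⟩ := eventually_atTop.mp (key F (ε / 2) (by positivity))
    obtain ⟨N2, hN2⟩ := eventually_atTop.mp (key (-F) (ε / 2) (by positivity))
    refine ⟨max N1 N2, fun N hN => ?_⟩
    have h1 := hN1 N ((le_max_left _ _).trans hN)
    have h2 := hN2 N ((le_max_right _ _).trans hN)
    simp only [BoundedContinuousFunction.coe_neg, Pi.neg_apply, integral_neg] at h2
    rw [Real.dist_eq, abs_lt]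
    constructor <;> linarith

end Pool.Agent.R974.Span
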