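import Pool.Agent.R974.Span.RW

open MeasureTheory ProbabilityTheory Filter Topology Set
open scoped ENNReal NNReal BoundedContinuousFunction

namespace Pool.Agent.R974.Span

variable {Ω : Type*} [MeasurableSpace Ω] {P : Measure Ω}
variable {Ω' : Type*} [MeasurableSpace Ω'] {P' : Measure Ω'}

lemma iIndepFun_curry {ι κ 𝓧 : Type*} [MeasurableSpace 𝓧] {Y : ι → κ → Ω → 𝓧}
    (mY : ∀ i j, Measurable (Y i j))
    (h : iIndepFun (fun (p : (_ : ι) × κ) ω => Y p.1 p.2 ω) P) :
    iIndepFun (fun i ω j => Y i j ω) P := by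
  have := h.isProbabilityMeasure
  have : ∀ i j, IsProbabilityMeasure (P.map (Y i j)) :=
    fun i j ↦ Measure.isProbabilityMeasure_map (mY i j).aemeasurable
  have h1 : (MeasurableEquiv.piCurry (fun (_ : ι) (_ : κ) => 𝓧)) ∘
      (fun ω (p : (_ : ι) × κ) ↦ Y p.1 p.2 ω) = fun ω i j ↦ Y i j ω := by
    ext; simp [Sigma.curry]
  rw [iIndepFun_iff_map_fun_eq_infinitePi_map (by fun_prop), ← h1,
    ← Measure.map_map (by fun_prop) (by fun_prop),
    (iIndepFun_iff_map_fun_eq_infinitePi_map (by fun_prop)).1 h,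
    Measure.infinitePi_map_piCurry (fun i j ↦ P.map (Y i j))]
  congr 1
  funext i
  exact ((iIndepFun_iff_map_fun_eq_infinitePi_map (by fun_prop)).1
    (h.precomp (g := Sigma.mk i) sigma_mk_injective)).symm

variable {ξ : ℕ → Ω → ℤ}

lemma Steps.map_X (h : Steps ξ P) (i : ℕ) : P.map (X ξ i) =
    ((1 / 2 : ℝ≥0∞) • Measure.dirac (1 : ℤ) + (1 / 2 : ℝ≥0∞) • Measure.dirac (-1 : ℤ)).map
      (fun z : ℤ => (z : ℝ)) := by
  rw [← h.map_eq i, Measure.map_map measurable_from_top (h.meas i)]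
  rfl

omit [MeasurableSpace Ω] in
lemma S_eq_sum_fin (ξ : ℕ → Ω → ℤ) (b : ℕ) : S ξ b = (fun x : Fin b → ℝ => ∑ i, x i) ∘
      (fun ω (i : Fin b) => X ξ i ω) := by
  funext ω
  simp only [S, Function.comp]
  exact Finset.sum_range fun i => X ξ i ω

lemma Steps.law_vec {ξ' : ℕ → Ω' → ℤ} (h : Steps ξ P) (h' : Steps ξ' P') (b : ℕ) :
    P.map (fun ω (i : Fin b) => X ξ i ω) = P'.map (fun ω (i : Fin b) => X ξ' i ω) := by
  have := h.prob
  have := h'.prob
  rw [(iIndepFun_iff_map_fun_eq_pi_map fun i : Fin b => (h.measX i).aemeasurable).mp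
    (h.indepX.precomp Fin.val_injective),
    (iIndepFun_iff_map_fun_eq_pi_map fun i : Fin b => (h'.measX i).aemeasurable).mp
    (h'.indepX.precomp Fin.val_injective)]
  congr 1
  funext i
  rw [h.map_X, h'.map_X]

lemma Steps.law_S {ξ' : ℕ → Ω' → ℤ} (h : Steps ξ P) (h' : Steps ξ' P') (b : ℕ) :
    P.map (S ξ b) = P'.map (S ξ' b) := by
  have hm1 : Measurable (fun ω (i : Fin b) => X ξ i ω) := measurable_pi_lambda _ fun i => h.measX i
  have hm2 : Measurable (fun ω (i : Fin b) => X ξ' i ω) := measurable_pi_lambda _ fun i => h'.measX i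
  rw [S_eq_sum_fin ξ, S_eq_sum_fin ξ', ← Measure.map_map (by fun_prop) hm1,
    ← Measure.map_map (by fun_prop) hm2, h.law_vec h' b]

/-- the sum of the steps in the `j`-th block of length `b` -/
noncomputable def blk (ξ : ℕ → Ω → ℤ) (b j : ℕ) (ω : Ω) : ℝ :=
  ∑ i ∈ Finset.range b, X ξ (j * b + i) ω

omit [MeasurableSpace Ω] in
lemma blk_eq (ξ : ℕ → Ω → ℤ) (b j : ℕ) (ω : Ω) :
    blk ξ b j ω = S ξ ((j + 1) * b) ω - S ξ (j * b) ω := by
  unfold blk S
  rw [add_mul, one_mul, Finset.sum_range_add]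
  ring

lemma Steps.meas_blk (h : Steps ξ P) (b j : ℕ) : Measurable (blk ξ b j) :=
  Finset.measurable_fun_sum _ fun i _ => h.measX _

lemma Steps.law_blk (h : Steps ξ P) (b j : ℕ) : P.map (blk ξ b j) = P.map (S ξ b) := by
  have h1 := (h.shift (j * b)).law_S h b
  rw [← h1]
  rfl

lemma Steps.indep_blk (h : Steps ξ P) {b : ℕ} : iIndepFun (fun j => blk ξ b j) P := by
  have h1 : iIndepFun (fun (p : (_ : ℕ) × Fin b) ω => X ξ (p.1 * b + p.2) ω) P := by
    refine h.indepX.precomp (g := fun p : (_ : ℕ) × Fin b => p.1 * b + (p.2 : ℕ)) ?_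
    rintro ⟨i, k⟩ ⟨j, l⟩ h2
    have hk := k.2
    have hl := l.2
    simp only at h2
    have hij : i = j := by
      have e1 : (i * b + (k : ℕ)) / b = i := by
        rw [mul_comm, Nat.mul_add_div (by omega), Nat.div_eq_of_lt hk, add_zero]
      have e2 : (j * b + (l : ℕ)) / b = j := by
        rw [mul_comm, Nat.mul_add_div (by omega), Nat.div_eq_of_lt hl, add_zero]
      rw [← e1, ← e2, h2]
    subst hij
    have : k = l := Fin.ext (by omega)
    subst this
    rfl
  have h2 := iIndepFun_curry (Y := fun (j : ℕ) (i : Fin b) ω => X ξ (j * b + i) ω)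
    (fun j i => h.measX _) h1
  have h3 := h2.comp (fun _ (x : Fin b → ℝ) => ∑ i, x i) (fun _ => by fun_prop)
  convert! h3 using 2 with j
  funext ω
  simp only [blk, Function.comp]
  exact Finset.sum_range fun i => X ξ (j * b + i) ω

/-- the central limit theorem for the vector of block sums -/
lemma Steps.clt (h : Steps ξ P) (M : ℕ) (G : (Fin M → ℝ) →ᵇ ℝ) :
    Tendsto (fun b : ℕ => ∫ ω, G (fun j : Fin M => (√b)⁻¹ * blk ξ b j ω) ∂P) atTop
      (𝓝 (∫ x, G x ∂(Measure.pi fun _ => gaussianReal 0 1))) := by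
  have := h.prob
  have hY : HasLaw (id : ℝ → ℝ) (gaussianReal 0 1) (gaussianReal 0 1) :=
    ⟨aemeasurable_id, Measure.map_id⟩
  have h1 := tendstoInDistribution_inv_sqrt_mul_sum (P := P) (X := X ξ) hY (h.mean 0)
    (by simpa using h.second 0) h.indepX h.identX
  have h2 := h1.tendsto
  set μ : ℕ → ProbabilityMeasure ℝ := fun n => ⟨P.map (fun ω => (√n)⁻¹ * ∑ k ∈ Finset.range n, X ξ k ω),
    Measure.isProbabilityMeasure_map (h1.forall_aemeasurable n)⟩ with hμ
  have h3 : Tendsto (fun n => ProbabilityMeasure.pi (fun _ : Fin M => μ n)) atTop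
      (𝓝 (ProbabilityMeasure.pi (fun _ : Fin M => (⟨(gaussianReal 0 1).map id,
        Measure.isProbabilityMeasure_map aemeasurable_id⟩ : ProbabilityMeasure ℝ)))) :=
    (ProbabilityMeasure.continuous_pi.tendsto _).comp (tendsto_pi_nhds.mpr fun _ => h2)
  have h4 : Tendsto (fun n : ℕ => ∫ x, G x ∂(Measure.pi fun _ : Fin M =>
      P.map (fun ω => (√n)⁻¹ * ∑ k ∈ Finset.range n, X ξ k ω))) atTop
      (𝓝 (∫ x, G x ∂(Measure.pi fun _ : Fin M => (gaussianReal 0 1).map id))) :=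
    (ProbabilityMeasure.tendsto_iff_forall_integral_tendsto.mp h3) G
  rw [Measure.map_id] at h4
  refine h4.congr fun b => ?_
  have h5 : iIndepFun (fun (j : Fin M) ω => (√b)⁻¹ * blk ξ b j ω) P :=
    (h.indep_blk.precomp Fin.val_injective).comp (fun _ x => (√b)⁻¹ * x) fun _ => by fun_prop
  have h6 := (iIndepFun_iff_map_fun_eq_pi_map
    fun j : Fin M => ((h.meas_blk b j).const_mul _).aemeasurable).mp h5
  have h7 : ∀ j : Fin M, P.map (fun ω => (√b)⁻¹ * blk ξ b j ω) =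
      P.map (fun ω => (√b)⁻¹ * ∑ k ∈ Finset.range b, X ξ k ω) := by
    intro j
    have e1 : (fun ω => (√b)⁻¹ * blk ξ b j ω) = (fun x => (√b)⁻¹ * x) ∘ blk ξ b j := rfl
    have e2 : (fun ω => (√b)⁻¹ * ∑ k ∈ Finset.range b, X ξ k ω) =
      (fun x => (√b)⁻¹ * x) ∘ S ξ b := rfl
    rw [e1, e2, ← Measure.map_map (by fun_prop) (h.meas_blk b j),
      ← Measure.map_map (by fun_prop) (h.measS b), h.law_blk]
  simp_rw [h7] at h6
  have hm : Measurable (fun ω (j : Fin M) => (√b)⁻¹ * blk ξ b j ω) :=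
    measurable_pi_lambda _ fun j => (h.meas_blk b j).const_mul _
  rw [← h6, integral_map hm.aemeasurable G.continuous.aestronglyMeasurable]

end Pool.Agent.R974.Span
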