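import Pool.Agent.R974.Span.Inv

open MeasureTheory ProbabilityTheory Filter Topology Set
open scoped ENNReal NNReal BoundedContinuousFunction

namespace Pool.Agent.R974.Span

variable {Ω : Type*} [MeasurableSpace Ω] {P : Measure Ω}
variable {Ω' : Type*} [MeasurableSpace Ω'] {P' : Measure Ω'}
variable {ξ : ℕ → Ω → ℤ} {B : ℝ≥0 → Ω' → ℝ}

/-- scaled Brownian increments -/
lemma GBM.law_incr (hB : GBM B P') {M : ℕ} (hM : 0 < M) :
    P'.map (fun ω (j : Fin M) => √M * (B (((j : ℕ) + 1 : ℕ) / (M : ℝ≥0)) ω - B ((j : ℕ) / (M : ℝ≥0)) ω)) =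
      Measure.pi (fun _ => gaussianReal 0 1) := by
  have := hB.prob
  have hM' : (0 : ℝ≥0) < M := by exact_mod_cast hM
  have hM'' : (0 : ℝ) < M := by exact_mod_cast hM
  have hmono : Monotone (fun j : ℕ => (j : ℝ≥0) / (M : ℝ≥0)) := by
    intro i j hij
    have : (i : ℝ≥0) ≤ j := by exact_mod_cast hij
    exact div_le_div_of_nonneg_right this (zero_le)
  have h1 := hB.pre.hasIndepIncrements.nat hmono
  have h2 : iIndepFun (fun (j : Fin M) ω => √M * (B (((j : ℕ) + 1 : ℕ) / (M : ℝ≥0)) ω -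
      B ((j : ℕ) / (M : ℝ≥0)) ω)) P' :=
    (h1.precomp Fin.val_injective).comp (fun _ x => √M * x) fun _ => by fun_prop
  have hmeas : ∀ j : Fin M, Measurable (fun ω => √M * (B (((j : ℕ) + 1 : ℕ) / (M : ℝ≥0)) ω -
      B ((j : ℕ) / (M : ℝ≥0)) ω)) := fun j => ((hB.meas _).sub (hB.meas _)).const_mul _
  rw [(iIndepFun_iff_map_fun_eq_pi_map fun j => (hmeas j).aemeasurable).mp h2]
  congr 1
  funext j
  have h3 := gaussianReal_const_mul (hB.pre.hasLaw_sub (((j : ℕ) + 1 : ℕ) / (M : ℝ≥0))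
    ((j : ℕ) / (M : ℝ≥0))) (√M)
  have h4 := h3.map_eq
  refine (Eq.trans ?_ h4).trans ?_
  · rfl
  · congr 1
    · simp
    · apply NNReal.eq
      push_cast
      have e1 : dist (((((j : ℕ) : ℝ≥0) + 1) / (M : ℝ≥0) : ℝ≥0) : ℝ)
          (((j : ℕ) / (M : ℝ≥0) : ℝ≥0) : ℝ) = 1 / M := by
        rw [Real.dist_eq]
        push_cast
        rw [← sub_div, add_sub_cancel_left, abs_of_nonneg (by positivity)]
      refine (congrArg (fun t => √(M : ℝ) ^ 2 * t) e1).trans ?_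
      rw [Real.sq_sqrt hM''.le]
      field_simp

lemma Steps.block_conv (h : Steps ξ P) (hB : GBM B P') {M : ℕ} (hM : 0 < M)
    (G : (Fin M → ℝ) →ᵇ ℝ) :
    Tendsto (fun b : ℕ => ∫ ω, G (fun j : Fin M => (√(M * b : ℝ))⁻¹ * blk ξ b j ω) ∂P) atTop
      (𝓝 (∫ ω, G (fun j : Fin M => B (((j : ℕ) + 1 : ℕ) / (M : ℝ≥0)) ω -
        B ((j : ℕ) / (M : ℝ≥0)) ω) ∂P')) := by
  have := hB.prob
  have hM'' : (0 : ℝ) < M := by exact_mod_cast hM
  set g : C(Fin M → ℝ, Fin M → ℝ) := ⟨fun x j => (√M)⁻¹ * x j, by fun_prop⟩ with hg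
  have h1 := h.clt M (G.compContinuous g)
  have hmeas : Measurable (fun ω (j : Fin M) => √M * (B (((j : ℕ) + 1 : ℕ) / (M : ℝ≥0)) ω -
      B ((j : ℕ) / (M : ℝ≥0)) ω)) :=
    measurable_pi_lambda _ fun j => ((hB.meas _).sub (hB.meas _)).const_mul _
  rw [← hB.law_incr hM, integral_map hmeas.aemeasurable
    (G.compContinuous g).continuous.aestronglyMeasurable] at h1
  have e1 : ∀ b : ℕ, ∫ ω, G (fun j : Fin M => (√(M * b : ℝ))⁻¹ * blk ξ b j ω) ∂P =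
      ∫ ω, (G.compContinuous g) (fun j : Fin M => (√b)⁻¹ * blk ξ b j ω) ∂P := by
    intro b
    apply integral_congr_ae
    filter_upwards with ω
    simp only [BoundedContinuousFunction.compContinuous_apply, hg, ContinuousMap.coe_mk]
    congr 1
    funext j
    rw [Real.sqrt_mul hM''.le, mul_inv, mul_assoc]
  have e2 : ∫ ω, G (fun j : Fin M => B (((j : ℕ) + 1 : ℕ) / (M : ℝ≥0)) ω -
      B ((j : ℕ) / (M : ℝ≥0)) ω) ∂P' = ∫ ω, (G.compContinuous g) (fun j : Fin M =>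
        √M * (B (((j : ℕ) + 1 : ℕ) / (M : ℝ≥0)) ω - B ((j : ℕ) / (M : ℝ≥0)) ω)) ∂P' := by
    apply integral_congr_ae
    filter_upwards with ω
    simp only [BoundedContinuousFunction.compContinuous_apply, hg, ContinuousMap.coe_mk]
    congr 1
    funext j
    rw [← mul_assoc, inv_mul_cancel₀ (by positivity), one_mul]
  rw [e2]
  exact h1.congr fun b => (e1 b).symm

/-- partial sums of `x` -/
def cum {M : ℕ} (x : Fin M → ℝ) (j : ℕ) : ℝ := ∑ i : Fin M, if (i : ℕ) < j then x i else 0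

lemma cum_telescope {M : ℕ} (f : ℕ → ℝ) {j : ℕ} (hj : j ≤ M) :
    cum (fun i : Fin M => f ((i : ℕ) + 1) - f i) j = f j - f 0 := by
  unfold cum
  rw [Fin.sum_univ_eq_sum_range (fun i => if i < j then f (i + 1) - f i else 0) M,
    ← Finset.sum_filter]
  have : Finset.filter (fun i => i < j) (Finset.range M) = Finset.range j := by
    ext i; simp only [Finset.mem_filter, Finset.mem_range]; omega
  rw [this, Finset.sum_range_sub]

lemma cum_lip {M : ℕ} (x y : Fin M → ℝ) (j : ℕ) : |cum x j - cum y j| ≤ M * dist x y := by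
  unfold cum
  rw [← Finset.sum_sub_distrib]
  refine (Finset.abs_sum_le_sum_abs _ _).trans ?_
  calc ∑ i : Fin M, |(if (i : ℕ) < j then x i else 0) - (if (i : ℕ) < j then y i else 0)|
      ≤ ∑ _i : Fin M, dist x y := by
        apply Finset.sum_le_sum
        intro i _
        split_ifs
        · rw [← Real.dist_eq]; exact dist_le_pi_dist x y i
        · simp [dist_nonneg]
    _ = M * dist x y := by simp

/-- the penalty -/
noncomputable def pen (η d : ℝ) : ℝ := min 1 (max 0 ((d - η) / η))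

lemma pen_nonneg (η d : ℝ) : 0 ≤ pen η d := le_min zero_le_one (le_max_left _ _)

lemma pen_le_one (η d : ℝ) : pen η d ≤ 1 := min_le_left _ _

lemma pen_zero {η d : ℝ} (hη : 0 < η) (h : d ≤ η) : pen η d = 0 := by
  have : (d - η) / η ≤ 0 := div_nonpos_of_nonpos_of_nonneg (by linarith) hη.le
  rw [pen, max_eq_left this]; simp

lemma pen_one {η d : ℝ} (hη : 0 < η) (h : 2 * η ≤ d) : pen η d = 1 := by
  have : 1 ≤ (d - η) / η := by rw [le_div_iff₀ hη]; linarith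
  rw [pen, min_eq_left (this.trans (le_max_right _ _))]

lemma pen_le {η d d' δ : ℝ} (hη : 0 < η) (hδ : 0 ≤ δ) (h : d ≤ d' + δ) :
    pen η d ≤ pen η d' + δ / η := by
  unfold pen
  have h1 : (d - η) / η ≤ (d' - η) / η + δ / η := by
    rw [← add_div]
    exact div_le_div_of_nonneg_right (by linarith) hη.le
  have h2 : 0 ≤ δ / η := by positivity
  rcases le_total 1 (max 0 ((d' - η) / η)) with h3 | h3
  · rw [min_eq_left h3]; exact (min_le_left _ _).trans (by linarith)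
  · rw [min_eq_right h3]
    refine (min_le_right _ _).trans (max_le ?_ ?_)
    · have := le_max_left 0 ((d' - η) / η); linarith
    · have := le_max_right 0 ((d' - η) / η); linarith

/-- distance of a scaled discrete path from the sampled path -/
noncomputable def Dd (N : ℕ) (a : ℝ) (z : ℕ → ℤ) {M : ℕ} (x : Fin M → ℝ) : ℝ :=
  ⨆ k : Fin (N + 1), |a * z k - cum x ((k : ℕ) * M / N)|

lemma Dd_le {N : ℕ} {a : ℝ} {z : ℕ → ℤ} {M : ℕ} {x : Fin M → ℝ} {c : ℝ}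
    (h : ∀ k ≤ N, |a * z k - cum x (k * M / N)| ≤ c) : Dd N a z x ≤ c :=
  ciSup_le fun k => h k (by omega)

lemma le_Dd {N : ℕ} {a : ℝ} {z : ℕ → ℤ} {M : ℕ} (x : Fin M → ℝ) {k : ℕ} (hk : k ≤ N) :
    |a * z k - cum x (k * M / N)| ≤ Dd N a z x :=
  le_ciSup (f := fun k : Fin (N + 1) => |a * z k - cum x ((k : ℕ) * M / N)|)
    (Set.finite_range _).bddAbove ⟨k, by omega⟩

lemma Dd_lip {N : ℕ} {a : ℝ} {z : ℕ → ℤ} {M : ℕ} (x y : Fin M → ℝ) :
    Dd N a z x ≤ Dd N a z y + M * dist x y := by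
  refine Dd_le fun k hk => ?_
  have h1 := le_Dd (a := a) (z := z) y hk
  have h2 := cum_lip x y (k * M / N)
  have h3 : |a * z k - cum x (k * M / N)| ≤ |a * z k - cum y (k * M / N)| +
      |cum x (k * M / N) - cum y (k * M / N)| := by
    rw [abs_sub_comm (cum x (k * M / N))]
    exact abs_sub_le _ _ _
  linarith

/-- the discrete test paths -/
structure Tst (n : ℕ) where
  N : ℕ
  a : ℝ
  z : ℕ → ℤ
  hN : n ≤ N
  hN0 : 0 < N
  ha : 0 < a
  hz : ∀ k < N, |z (k + 1) - z k| ≤ 1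

instance (n : ℕ) : Nonempty (Tst n) :=
  ⟨⟨n + 1, 1, fun _ => 0, by omega, by omega, one_pos, fun _ _ => by simp⟩⟩

/-- the upper envelope -/
noncomputable def Hf (Φ : ℕ → (ℕ → ℤ) → ℝ) (C0 η : ℝ) (n M : ℕ) (x : Fin M → ℝ) : ℝ :=
  ⨆ p : Tst n, (Φ p.N p.z - 2 * C0 * pen η (Dd p.N p.a p.z x))

section
variable {Φ : ℕ → (ℕ → ℤ) → ℝ} {C0 η : ℝ} (hΦ : ∀ N z, |Φ N z| ≤ C0) (hη : 0 < η)
include hΦ

omit hΦ in
lemma C0_nonneg (hΦ : ∀ N z, |Φ N z| ≤ C0) : 0 ≤ C0 := (abs_nonneg _).trans (hΦ 0 fun _ => 0)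

lemma term_le (n M : ℕ) (x : Fin M → ℝ) (p : Tst n) :
    Φ p.N p.z - 2 * C0 * pen η (Dd p.N p.a p.z x) ≤ C0 := by
  have h1 := (abs_le.mp (hΦ p.N p.z)).2
  have h2 := C0_nonneg hΦ
  have h3 := mul_nonneg h2 (pen_nonneg η (Dd p.N p.a p.z x))
  linarith

lemma term_le_Hf (n M : ℕ) (x : Fin M → ℝ) (p : Tst n) :
    Φ p.N p.z - 2 * C0 * pen η (Dd p.N p.a p.z x) ≤ Hf Φ C0 η n M x :=
  le_ciSup (f := fun p : Tst n => Φ p.N p.z - 2 * C0 * pen η (Dd p.N p.a p.z x))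
    ⟨C0, by rintro _ ⟨p, rfl⟩; exact term_le hΦ n M x p⟩ p

lemma Hf_le (n M : ℕ) (x : Fin M → ℝ) : Hf Φ C0 η n M x ≤ C0 :=
  ciSup_le fun p => term_le hΦ n M x p

lemma le_Hf (n M : ℕ) (x : Fin M → ℝ) : -(3 * C0) ≤ Hf Φ C0 η n M x := by
  obtain ⟨p⟩ : Nonempty (Tst n) := inferInstance
  have h0 := term_le_Hf (η := η) hΦ n M x p
  have h1 := (abs_le.mp (hΦ p.N p.z)).1
  have h2 := C0_nonneg hΦ
  have h3 := mul_le_mul_of_nonneg_left (pen_le_one η (Dd p.N p.a p.z x)) h2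
  linarith

lemma Hf_abs (n M : ℕ) (x : Fin M → ℝ) : |Hf Φ C0 η n M x| ≤ 3 * C0 := by
  have h2 := C0_nonneg hΦ
  rw [abs_le]
  exact ⟨le_Hf hΦ n M x, (Hf_le hΦ n M x).trans (by linarith)⟩

include hη in
lemma Hf_cont (n M : ℕ) : Continuous (Hf Φ C0 η n M) := by
  have h2 := C0_nonneg hΦ
  refine (LipschitzWith.of_le_add_mul' (2 * C0 * (M / η)) fun x y => ?_).continuous
  refine ciSup_le fun p => ?_
  have h1 := term_le_Hf (η := η) hΦ n M y p
  have h3 : pen η (Dd p.N p.a p.z y) ≤ pen η (Dd p.N p.a p.z x) + (M * dist x y) / η := by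
    refine pen_le hη (by positivity) ?_
    rw [dist_comm]
    exact Dd_lip y x
  have h4 := mul_le_mul_of_nonneg_left h3 (by positivity : 0 ≤ 2 * C0)
  have h5 : 2 * C0 * (M / η) * dist x y = 2 * C0 * ((M * dist x y) / η) := by ring
  rw [h5]
  linarith

/-- as a bounded continuous function -/
noncomputable def Hb (hη : 0 < η) (n M : ℕ) : (Fin M → ℝ) →ᵇ ℝ :=
  BoundedContinuousFunction.ofNormedAddCommGroup (Hf Φ C0 η n M) (Hf_cont hΦ hη n M) (3 * C0)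
    (fun x => by rw [Real.norm_eq_abs]; exact Hf_abs hΦ n M x)

include hη in
lemma Hf_good {n M : ℕ} {x : Fin M → ℝ} {N : ℕ} {a : ℝ} {z : ℕ → ℤ} (hN : n ≤ N) (hN0 : 0 < N)
    (ha : 0 < a) (hz : ∀ k < N, |z (k + 1) - z k| ≤ 1)
    (hgood : ∀ k ≤ N, |a * z k - cum x (k * M / N)| ≤ η) : Φ N z ≤ Hf Φ C0 η n M x := by
  have h1 := term_le_Hf (η := η) hΦ n M x ⟨N, a, z, hN, hN0, ha, hz⟩
  simp only at h1
  rw [pen_zero hη (Dd_le hgood)] at h1
  linarith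

lemma Hf_bad {n M : ℕ} {x : Fin M → ℝ} {N : ℕ} {z : ℕ → ℤ} (hN : n ≤ N) (hN0 : 0 < N)
    (hz : ∀ k < N, |z (k + 1) - z k| ≤ 1) : Φ N z ≤ Hf Φ C0 η n M x + 2 * C0 := by
  have h1 := term_le_Hf (η := η) hΦ n M x ⟨N, 1, z, hN, hN0, one_pos, hz⟩
  simp only at h1
  have h2 := C0_nonneg hΦ
  have h3 := mul_le_mul_of_nonneg_left (pen_le_one η (Dd N 1 z x)) h2
  linarith

include hη in
lemma Hf_limit {n M : ℕ} {f : ℝ≥0 → ℝ} (hf0 : f 0 = 0) {Y ε : ℝ}
    (hY : -C0 ≤ Y) (hε : 0 ≤ ε)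
    (hstab : ∀ N ≥ n, 0 < N → ∀ a > 0, ∀ z : ℕ → ℤ, (∀ k < N, |z (k + 1) - z k| ≤ 1) →
      (∀ k ≤ N, |a * z k - f ((k : ℝ≥0) / N)| ≤ 3 * η) → Φ N z ≤ Y + ε)
    (hosc : ∀ N : ℕ, 0 < N → ∀ k ≤ N, |f ((k : ℝ≥0) / N) - f (((k * M / N : ℕ) : ℝ≥0) / M)| ≤ η) :
    Hf Φ C0 η n M (fun j => f (((j : ℕ) + 1 : ℕ) / (M : ℝ≥0)) - f ((j : ℕ) / (M : ℝ≥0))) ≤ Y + ε := by
  refine ciSup_le fun p => ?_
  set x : Fin M → ℝ := fun j => f (((j : ℕ) + 1 : ℕ) / (M : ℝ≥0)) - f ((j : ℕ) / (M : ℝ≥0)) with hx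
  have h2 := C0_nonneg hΦ
  rcases le_total (2 * η) (Dd p.N p.a p.z x) with h | h
  · rw [pen_one hη h]
    have h1 := (abs_le.mp (hΦ p.N p.z)).2
    linarith
  · have hp := mul_nonneg h2 (pen_nonneg η (Dd p.N p.a p.z x))
    have h3 : Φ p.N p.z ≤ Y + ε := by
      refine hstab p.N p.hN p.hN0 p.a p.ha p.z p.hz fun k hk => ?_
      have h4 := le_Dd (a := p.a) (z := p.z) x hk
      have h5 : k * M / p.N ≤ M := by
        rw [Nat.div_le_iff_le_mul_add_pred p.hN0]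
        have := Nat.mul_le_mul_right M hk
        omega
      have h6 : cum x (k * M / p.N) = f (((k * M / p.N : ℕ) : ℝ≥0) / M) := by
        have := cum_telescope (M := M) (fun j => f ((j : ℝ≥0) / (M : ℝ≥0))) h5
        simp only [Nat.cast_zero, zero_div, hf0, sub_zero] at this
        exact this
      rw [h6] at h4
      have h7 := hosc p.N p.hN0 k hk
      have h8 := abs_sub_le (p.a * (p.z k : ℝ)) (f (((k * M / p.N : ℕ) : ℝ≥0) / M))
        (f ((k : ℝ≥0) / p.N))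
      rw [abs_sub_comm (f (((k * M / p.N : ℕ) : ℝ≥0) / M))] at h8
      linarith
    linarith

end

end Pool.Agent.R974.Span
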