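import Pool.Agent.R974.Span.Inv2

open MeasureTheory ProbabilityTheory Filter Topology Set
open scoped ENNReal NNReal BoundedContinuousFunction

namespace Pool.Agent.R974.Span

variable {Ω : Type*} [MeasurableSpace Ω] {P : Measure Ω}
variable {Ω' : Type*} [MeasurableSpace Ω'] {P' : Measure Ω'}
variable {ξ : ℕ → Ω → ℤ} {B : ℝ≥0 → Ω' → ℝ}

lemma revFatou {u : ℕ → Ω' → ℝ} {g : Ω' → ℝ} {C : ℝ} [IsFiniteMeasure P']
    (hu : ∀ n, AEStronglyMeasurable (u n) P') (hg : AEStronglyMeasurable g P')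
    (hub : ∀ n ω, |u n ω| ≤ C) (hgb : ∀ ω, |g ω| ≤ C)
    (h : ∀ᵐ ω ∂P', ∀ ε > 0, ∀ᶠ n in atTop, u n ω ≤ g ω + ε) {ε : ℝ} (hε : 0 < ε) :
    ∀ᶠ n in atTop, ∫ ω, u n ω ∂P' ≤ ∫ ω, g ω ∂P' + ε := by
  have hui : ∀ n, Integrable (u n) P' := fun n =>
    Integrable.of_bound (hu n) C (Eventually.of_forall fun ω => by
      rw [Real.norm_eq_abs]; exact hub n ω)
  have hgi : Integrable g P' := Integrable.of_bound hg C (Eventually.of_forall fun ω => by
      rw [Real.norm_eq_abs]; exact hgb ω)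
  have h1 : Tendsto (fun n => ∫ ω, max (u n ω - g ω) 0 ∂P') atTop (𝓝 (∫ _ω, (0:ℝ) ∂P')) := by
    apply tendsto_integral_of_dominated_convergence (fun _ => 2 * C)
    · intro n
      exact ((hui n).sub hgi).pos_part.aestronglyMeasurable
    · exact integrable_const _
    · intro n
      filter_upwards with ω
      rw [Real.norm_eq_abs, abs_of_nonneg (le_max_right _ _)]
      have h2 := abs_le.mp (hub n ω)
      have h3 := abs_le.mp (hgb ω)
      exact max_le (by linarith) (by linarith)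
    · filter_upwards [h] with ω hω
      rw [Metric.tendsto_atTop]
      intro δ hδ
      obtain ⟨N, hN⟩ := eventually_atTop.mp (hω (δ / 2) (by positivity))
      refine ⟨N, fun n hn => ?_⟩
      rw [Real.dist_eq, sub_zero, abs_of_nonneg (le_max_right _ _)]
      have := hN n hn
      exact (max_le (by linarith) (by positivity) : _ ≤ δ / 2).trans_lt (by linarith)
  rw [integral_zero] at h1
  filter_upwards [h1.eventually (Iio_mem_nhds hε)] with n hn
  have h2 : ∫ ω, u n ω ∂P' - ∫ ω, g ω ∂P' ≤ ∫ ω, max (u n ω - g ω) 0 ∂P' := by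
    rw [← integral_sub (hui n) hgi]
    exact integral_mono ((hui n).sub hgi) ((hui n).sub hgi).pos_part fun ω => le_max_left _ _
  have h3 : ∫ ω, max (u n ω - g ω) 0 ∂P' < ε := hn
  linarith

lemma div_bounds {M N k : ℕ} (hM : 0 < M) (hN : 0 < N) (hk : k ≤ N) :
    k * M / N ≤ M ∧ ((k * M / N : ℕ) : ℝ) / M ≤ (k : ℝ) / N ∧
      (k : ℝ) / N < ((k * M / N : ℕ) : ℝ) / M + 1 / M := by
  have hM' : (0:ℝ) < M := by exact_mod_cast hM
  have hN' : (0:ℝ) < N := by exact_mod_cast hN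
  have h1 : (k * M / N) * N ≤ k * M := Nat.div_mul_le_self _ _
  have h2 : k * M < (k * M / N + 1) * N :=
    (Nat.lt_mul_div_succ (k * M) hN).trans_le (mul_comm _ _).le
  have h1' : ((k * M / N : ℕ) : ℝ) * N ≤ k * M := by exact_mod_cast h1
  have h2' : (k : ℝ) * M < (((k * M / N : ℕ) : ℝ) + 1) * N := by exact_mod_cast h2
  refine ⟨?_, ?_, ?_⟩
  · rw [Nat.div_le_iff_le_mul_add_pred hN]
    have := Nat.mul_le_mul_right M hk
    omega
  · rw [div_le_div_iff₀ hM' hN']; exact h1'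
  · rw [← add_div, div_lt_div_iff₀ hN' hM']; exact h2'

lemma osc_le {f : ℝ≥0 → ℝ} (hf : Continuous f) {η : ℝ} (hη : 0 < η) :
    ∀ᶠ M : ℕ in atTop, ∀ N : ℕ, 0 < N → ∀ k ≤ N,
      |f ((k : ℝ≥0) / N) - f (((k * M / N : ℕ) : ℝ≥0) / M)| ≤ η := by
  have h1 : UniformContinuousOn f (Icc 0 1) :=
    isCompact_Icc.uniformContinuousOn_of_continuous hf.continuousOn
  obtain ⟨δ, hδ, h2⟩ := Metric.uniformContinuousOn_iff.mp h1 η hη
  obtain ⟨M0, hM0⟩ := exists_nat_gt (1 / δ)
  filter_upwards [eventually_ge_atTop (M0 + 1)] with M hM N hN k hk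
  have hMpos : 0 < M := by omega
  have hM' : (0:ℝ) < M := by exact_mod_cast hMpos
  have hN' : (0:ℝ) < N := by exact_mod_cast hN
  obtain ⟨b1, b2, b3⟩ := div_bounds hMpos hN hk
  have h3 : ((k : ℝ≥0) / N) ∈ Icc (0:ℝ≥0) 1 := by
    refine ⟨zero_le, ?_⟩
    rw [← NNReal.coe_le_coe]
    push_cast
    rw [div_le_one hN']; exact_mod_cast hk
  have h4 : (((k * M / N : ℕ) : ℝ≥0) / M) ∈ Icc (0:ℝ≥0) 1 := by
    refine ⟨zero_le, ?_⟩
    rw [← NNReal.coe_le_coe]
    push_cast
    rw [div_le_one hM']; exact_mod_cast b1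
  have h5 := h2 _ h3 _ h4 (by
    rw [NNReal.dist_eq]
    push_cast
    rw [abs_of_nonneg (by linarith)]
    have h6 : (1:ℝ) / M < δ := by
      rw [div_lt_comm₀ hM' hδ]
      refine hM0.trans ?_
      have : (M0 : ℝ) + 1 ≤ M := by exact_mod_cast hM
      linarith
    linarith)
  rw [Real.dist_eq] at h5
  exact h5.le

omit [MeasurableSpace Ω] in
lemma S_shift (k i : ℕ) (ω : Ω) : S (fun i => ξ (k + i)) i ω = S ξ (k + i) ω - S ξ k ω := by
  unfold S
  rw [Finset.sum_range_add]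
  have : ∀ j, X (fun i => ξ (k + i)) j ω = X ξ (k + j) ω := fun _ => rfl
  simp [this]

lemma Steps.dev (h : Steps ξ P) {M N : ℕ} (hM : 0 < M) (hN : M * M ≤ N) {η : ℝ} (hη : 0 < η) :
    P.real {ω | ∃ k ≤ N, η < |(√(M * (N / M : ℕ) : ℝ))⁻¹ * S ξ k ω -
      (√(M * (N / M : ℕ) : ℝ))⁻¹ * S ξ ((k * M / N) * (N / M)) ω|} ≤
      (M + 1) * (4 * Real.exp (-(η ^ 2 * M / 16))) := by
  have := h.prob
  have hNpos : 0 < N := lt_of_lt_of_le (Nat.mul_pos hM hM) hN
  set b : ℕ := N / M with hb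
  have hMb : M ≤ b := by rw [hb, Nat.le_div_iff_mul_le hM]; exact hN
  have hbpos : 0 < b := lt_of_lt_of_le hM hMb
  have hM' : (0:ℝ) < M := by exact_mod_cast hM
  have hb' : (0:ℝ) < b := by exact_mod_cast hbpos
  have hMb' : (M:ℝ) ≤ b := by exact_mod_cast hMb
  set s : ℝ := √(M * (b : ℕ) : ℝ) with hs
  have hspos : 0 < s := Real.sqrt_pos.mpr (by positivity)
  have hs2 : s ^ 2 = M * b := Real.sq_sqrt (by positivity)
  have hsub : {ω | ∃ k ≤ N, η < |s⁻¹ * S ξ k ω - s⁻¹ * S ξ ((k * M / N) * b) ω|} ⊆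
      ⋃ j ∈ Finset.range (M + 1), {ω | ∃ i ≤ b + M, η * s ≤ |S (fun i => ξ (j * b + i)) i ω|} := by
    rintro ω ⟨k, hk, hkη⟩
    obtain ⟨b1, -, -⟩ := div_bounds hM hNpos hk
    set j := k * M / N with hj
    have c1 : j * N ≤ k * M := Nat.div_mul_le_self _ _
    have c2 : k * M < (j + 1) * N := by
      rw [mul_comm (j + 1)]
      exact Nat.lt_mul_div_succ (k * M) hNpos
    have c3 : b * M ≤ N := Nat.div_mul_le_self _ _
    have c4 : N < M * (b + 1) := Nat.lt_mul_div_succ N hM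
    have d1 : j * b ≤ k := by
      have : j * b * M ≤ k * M := by
        calc j * b * M = j * (b * M) := by ring
          _ ≤ j * N := Nat.mul_le_mul_left _ c3
          _ ≤ k * M := c1
      exact Nat.le_of_mul_le_mul_right this hM
    have d2 : k < (j + 1) * (b + 1) := by
      have : k * M < (j + 1) * (b + 1) * M := by
        calc k * M < (j + 1) * N := c2
          _ ≤ (j + 1) * (M * (b + 1)) := Nat.mul_le_mul_left _ c4.le
          _ = _ := by ring
      exact Nat.lt_of_mul_lt_mul_right this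
    have d3 : k - j * b ≤ b + M := by
      have : (j + 1) * (b + 1) = j * b + j + b + 1 := by ring
      omega
    refine mem_iUnion₂.mpr ⟨j, Finset.mem_range.mpr (by omega), k - j * b, d3, ?_⟩
    rw [S_shift, Nat.add_sub_cancel' d1]
    rw [← mul_sub, abs_mul, abs_of_pos (inv_pos.mpr hspos), inv_mul_eq_div, lt_div_iff₀ hspos] at hkη
    exact hkη.le
  calc P.real {ω | ∃ k ≤ N, η < |s⁻¹ * S ξ k ω - s⁻¹ * S ξ ((k * M / N) * b) ω|}
      ≤ P.real (⋃ j ∈ Finset.range (M + 1),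
        {ω | ∃ i ≤ b + M, η * s ≤ |S (fun i => ξ (j * b + i)) i ω|}) :=
        measureReal_mono hsub (measure_ne_top P _)
    _ ≤ ∑ j ∈ Finset.range (M + 1),
        P.real {ω | ∃ i ≤ b + M, η * s ≤ |S (fun i => ξ (j * b + i)) i ω|} :=
        measureReal_biUnion_finset_le _ _
    _ ≤ ∑ _j ∈ Finset.range (M + 1), 4 * Real.exp (-(η ^ 2 * M / 16)) := by
        apply Finset.sum_le_sum
        intro j _
        refine ((h.shift (j * b)).maximal (b + M) (a := η * s) (by positivity)).trans ?_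
        apply mul_le_mul_of_nonneg_left _ (by norm_num)
        apply Real.exp_le_exp.mpr
        rw [mul_pow, hs2, neg_div, neg_le_neg_iff]
        push_cast
        rw [div_le_div_iff₀ (by norm_num) (by positivity)]
        have : η ^ 2 * M * M ≤ η ^ 2 * M * b := by gcongr
        nlinarith
    _ = (M + 1) * (4 * Real.exp (-(η ^ 2 * M / 16))) := by
        rw [Finset.sum_const, Finset.card_range, nsmul_eq_mul]; push_cast; ring

end Pool.Agent.R974.Span
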