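import Pool.Agent.R974.Span.Inv3

open MeasureTheory ProbabilityTheory Filter Topology Set
open scoped ENNReal NNReal BoundedContinuousFunction

namespace Pool.Agent.R974.Span

variable {Ω : Type*} [MeasurableSpace Ω] {P : Measure Ω}
variable {Ω' : Type*} [MeasurableSpace Ω'] {P' : Measure Ω'}
variable {ξ : ℕ → Ω → ℤ} {B : ℝ≥0 → Ω' → ℝ}

lemma Steps.measWalk (h : Steps ξ P) (k : ℕ) : Measurable (walk ξ k) :=
  Finset.measurable_fun_sum _ fun i _ => h.meas i

/-- local functionals of the walk are measurable -/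
lemma Steps.meas_local {E : Type*} [MeasurableSpace E] (h : Steps ξ P) {N : ℕ}
    {Φ : (ℕ → ℤ) → E} (hloc : ∀ z z', (∀ k ≤ N, z k = z' k) → Φ z = Φ z') :
    Measurable (fun ω => Φ (fun k => walk ξ k ω)) := by
  have e : (fun ω => Φ (fun k => walk ξ k ω)) =
      (fun v : Fin (N + 1) → ℤ => Φ (fun k => if hk : k < N + 1 then v ⟨k, hk⟩ else 0)) ∘
        (fun ω (k : Fin (N + 1)) => walk ξ k ω) := by
    funext ω
    apply hloc
    intro k hk
    have : k < N + 1 := by omega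
    simp [this]
  rw [e]
  exact (Measurable.of_discrete).comp (measurable_pi_lambda _ fun k => h.measWalk k)

lemma Steps.ae_nn (h : Steps ξ P) : ∀ᵐ ω ∂P, ∀ k, |walk ξ (k + 1) ω - walk ξ k ω| ≤ 1 := by
  filter_upwards [h.ae_step] with ω hω k
  have : walk ξ (k + 1) ω - walk ξ k ω = ξ k ω := by
    unfold walk
    rw [Finset.sum_range_succ]; ring
  rw [this]
  rcases hω k with h1 | h1 <;> rw [h1] <;> simp

section
variable {Φ : ℕ → (ℕ → ℤ) → ℝ} {C0 : ℝ}

lemma step_one (h : Steps ξ P) (hB : GBM B P') (hΦ : ∀ N z, |Φ N z| ≤ C0)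
    (hloc : ∀ N z z', (∀ k ≤ N, z k = z' k) → Φ N z = Φ N z') {η : ℝ} (hη : 0 < η) (n : ℕ)
    {M : ℕ} (hM : 0 < M) {ε : ℝ} (hε : 0 < ε) :
    ∀ᶠ N in atTop, ∫ ω, Φ N (fun k => walk ξ k ω) ∂P ≤
      ∫ ω, Hf Φ C0 η n M (fun j => B (((j : ℕ) + 1 : ℕ) / (M : ℝ≥0)) ω -
        B ((j : ℕ) / (M : ℝ≥0)) ω) ∂P' + ε +
      2 * C0 * ((M + 1) * (4 * Real.exp (-(η ^ 2 * M / 16)))) := by
  have := h.prob
  have hC := C0_nonneg hΦ
  have h1 := h.block_conv hB hM (Hb hΦ hη n M)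
  have h2 : Tendsto (fun N : ℕ => N / M) atTop atTop := Nat.tendsto_div_const_atTop hM.ne'
  have e0 : (∫ ω, (Hb hΦ hη n M) (fun j => B (((j : ℕ) + 1 : ℕ) / (M : ℝ≥0)) ω -
        B ((j : ℕ) / (M : ℝ≥0)) ω) ∂P') = ∫ ω, Hf Φ C0 η n M
        (fun j => B (((j : ℕ) + 1 : ℕ) / (M : ℝ≥0)) ω - B ((j : ℕ) / (M : ℝ≥0)) ω) ∂P' := rfl
  have h3 := Tendsto.eventually_lt_const (u := ∫ ω, Hf Φ C0 η n M
    (fun j => B (((j : ℕ) + 1 : ℕ) / (M : ℝ≥0)) ω - B ((j : ℕ) / (M : ℝ≥0)) ω) ∂P' + ε) (by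
      rw [e0]; linarith) (h1.comp h2)
  filter_upwards [h3, eventually_ge_atTop (max (n + 1) (M * M))] with N hN1 hN2
  have hN3 : ∫ ω, Hf Φ C0 η n M (fun j : Fin M => (√(M * (N / M : ℕ) : ℝ))⁻¹ * blk ξ (N / M) j ω) ∂P <
      ∫ ω, Hf Φ C0 η n M (fun j => B (((j : ℕ) + 1 : ℕ) / (M : ℝ≥0)) ω -
        B ((j : ℕ) / (M : ℝ≥0)) ω) ∂P' + ε := hN1
  have hNn : n + 1 ≤ N := (le_max_left _ _).trans hN2
  have hNM : M * M ≤ N := (le_max_right _ _).trans hN2
  set a : ℝ := (√(M * (N / M : ℕ) : ℝ))⁻¹ with ha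
  have hapos : 0 < a := by
    have : 0 < N / M := Nat.div_pos (by nlinarith) hM
    have h5 : (0:ℝ) < (N / M : ℕ) := by exact_mod_cast this
    have h6 : (0:ℝ) < M := by exact_mod_cast hM
    exact inv_pos.mpr (Real.sqrt_pos.mpr (by positivity))
  set E : Set Ω := {ω | ∃ k ≤ N, η < |a * S ξ k ω - a * S ξ ((k * M / N) * (N / M)) ω|} with hE
  have hEm : MeasurableSet E := by
    have : E = ⋃ k, ⋃ _ : k ≤ N,
        {ω | η < |a * S ξ k ω - a * S ξ ((k * M / N) * (N / M)) ω|} := by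
      ext ω; simp [hE]
    rw [this]
    exact MeasurableSet.iUnion fun k => MeasurableSet.iUnion fun _ =>
      measurableSet_lt measurable_const
        (((h.measS _).const_mul _).sub ((h.measS _).const_mul _)).abs
  have hEP := h.dev hM hNM hη
  have hEP' : P.real E ≤ (M + 1) * (4 * Real.exp (-(η ^ 2 * M / 16))) := hEP
  have hHm : Measurable (fun ω => Hf Φ C0 η n M (fun j : Fin M => a * blk ξ (N / M) j ω)) :=
    (Hf_cont hΦ hη n M).measurable.comp
      (measurable_pi_lambda _ fun j => (h.meas_blk _ _).const_mul _)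
  have hHi : Integrable (fun ω => Hf Φ C0 η n M (fun j : Fin M => a * blk ξ (N / M) j ω)) P :=
    Integrable.of_bound hHm.aestronglyMeasurable (3 * C0) (Eventually.of_forall fun ω => by
      rw [Real.norm_eq_abs]; exact Hf_abs hΦ n M _)
  have hΦi : Integrable (fun ω => Φ N (fun k => walk ξ k ω)) P :=
    Integrable.of_bound (h.meas_local (hloc N)).aestronglyMeasurable C0
      (Eventually.of_forall fun ω => by rw [Real.norm_eq_abs]; exact hΦ N _)
  have hEi : Integrable (fun ω => E.indicator (fun _ => 2 * C0) ω) P :=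
    (integrable_const _).indicator hEm
  have h7 : ∫ ω, Φ N (fun k => walk ξ k ω) ∂P ≤
      ∫ ω, (Hf Φ C0 η n M (fun j : Fin M => a * blk ξ (N / M) j ω) +
        E.indicator (fun _ => 2 * C0) ω) ∂P := by
    apply integral_mono_ae hΦi (hHi.add hEi)
    filter_upwards [h.ae_nn] with ω hω
    change Φ N (fun k => walk ξ k ω) ≤ Hf Φ C0 η n M (fun j : Fin M => a * blk ξ (N / M) j ω) +
        E.indicator (fun _ => 2 * C0) ω
    by_cases hωE : ω ∈ E
    · rw [indicator_of_mem hωE]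
      exact Hf_bad hΦ (by omega) (by omega) fun k _ => hω k
    · rw [indicator_of_notMem hωE, add_zero]
      refine Hf_good hΦ hη (by omega) (by omega) hapos (fun k _ => hω k) fun k hk => ?_
      have h8 : ¬ ∃ k ≤ N, η < |a * S ξ k ω - a * S ξ ((k * M / N) * (N / M)) ω| := hωE
      push Not at h8
      have h9 := h8 k hk
      obtain ⟨b1, -, -⟩ := div_bounds hM (by omega : 0 < N) hk
      have h10 : cum (fun j : Fin M => a * blk ξ (N / M) j ω) (k * M / N) =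
          a * S ξ ((k * M / N) * (N / M)) ω := by
        have h11 := cum_telescope (M := M) (fun j => a * S ξ (j * (N / M)) ω) b1
        simp only [zero_mul] at h11
        have h12 : S ξ 0 ω = 0 := by simp [S]
        rw [h12, mul_zero, sub_zero] at h11
        rw [← h11]
        congr 1
        funext j
        rw [blk_eq, mul_sub]
      rw [h10, ← S_eq]
      exact h9
  rw [integral_add hHi hEi, integral_indicator hEm, setIntegral_const, smul_eq_mul] at h7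
  have h8 : P.real E * (2 * C0) ≤ 2 * C0 * ((M + 1) * (4 * Real.exp (-(η ^ 2 * M / 16)))) := by
    rw [mul_comm]
    exact mul_le_mul_of_nonneg_left hEP' (by positivity)
  linarith

lemma tail_tendsto (C0 : ℝ) {η : ℝ} (hη : 0 < η) :
    Tendsto (fun M : ℕ => 2 * C0 * (((M : ℝ) + 1) * (4 * Real.exp (-(η ^ 2 * M / 16))))) atTop
      (𝓝 0) := by
  have h1 : Tendsto (fun x : ℝ => (x + 1) * Real.exp (-(η ^ 2 / 16) * x)) atTop (𝓝 0) := by
    have h2 : Tendsto (fun x : ℝ => x ^ (1:ℝ) * Real.exp (-(η ^ 2 / 16) * x)) atTop (𝓝 0) :=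
      tendsto_rpow_mul_exp_neg_mul_atTop_nhds_zero 1 (η ^ 2 / 16) (by positivity)
    have h3 : Tendsto (fun x : ℝ => x ^ (0:ℝ) * Real.exp (-(η ^ 2 / 16) * x)) atTop (𝓝 0) :=
      tendsto_rpow_mul_exp_neg_mul_atTop_nhds_zero 0 (η ^ 2 / 16) (by positivity)
    have h4 := h2.add h3
    simp only [Real.rpow_one, Real.rpow_zero, add_zero] at h4
    refine h4.congr fun x => ?_
    ring
  have h5 := (h1.comp tendsto_natCast_atTop_atTop).const_mul (8 * C0)
  rw [mul_zero] at h5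
  refine h5.congr fun M => ?_
  simp only [Function.comp]
  rw [show -(η ^ 2 / 16) * (M : ℝ) = -(η ^ 2 * M / 16) by ring]
  ring

/-- one half of the invariance principle -/
theorem inv_upper (h : Steps ξ P) (hB : GBM B P') (hΦ : ∀ N z, |Φ N z| ≤ C0)
    (hloc : ∀ N z z', (∀ k ≤ N, z k = z' k) → Φ N z = Φ N z') {y : Ω' → ℝ}
    (hy : ∀ ω, |y ω| ≤ C0) (hym : AEStronglyMeasurable y P')
    (hst : ∀ᵐ ω ∂P', ∀ ε > 0, ∃ δ > 0, ∃ N0 : ℕ, ∀ N ≥ N0, 0 < N → ∀ a > 0, ∀ z : ℕ → ℤ,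
      (∀ k < N, |z (k + 1) - z k| ≤ 1) → (∀ k ≤ N, |a * z k - B ((k : ℝ≥0) / N) ω| ≤ δ) →
      Φ N z ≤ y ω + ε) {ε : ℝ} (hε : 0 < ε) :
    ∀ᶠ N in atTop, ∫ ω, Φ N (fun k => walk ξ k ω) ∂P ≤ ∫ ω, y ω ∂P' + ε := by
  have := hB.prob
  have hC := C0_nonneg hΦ
  set u : ℕ → ℕ → Ω' → ℝ := fun n M ω => Hf Φ C0 (1 / (n + 1)) n M
    (fun j => B (((j : ℕ) + 1 : ℕ) / (M : ℝ≥0)) ω - B ((j : ℕ) / (M : ℝ≥0)) ω) with hu
  set g : ℕ → Ω' → ℝ := fun n ω => limsup (fun M => u n M ω) atTop with hg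
  have hηpos : ∀ n : ℕ, (0:ℝ) < 1 / (n + 1) := fun n => by positivity
  have hum : ∀ n M, Measurable (u n M) := fun n M =>
    (Hf_cont hΦ (hηpos n) n M).measurable.comp
      (measurable_pi_lambda _ fun j => (hB.meas _).sub (hB.meas _))
  have hub : ∀ n M ω, |u n M ω| ≤ 3 * C0 := fun n M ω => Hf_abs hΦ n M _
  have hbdd : ∀ n ω, IsBoundedUnder (· ≤ ·) atTop (fun M => u n M ω) := fun n ω =>
    ⟨3 * C0, Filter.eventually_map.mpr (Eventually.of_forall fun M => (abs_le.mp (hub n M ω)).2)⟩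
  have hbdd' : ∀ n ω, IsBoundedUnder (· ≥ ·) atTop (fun M => u n M ω) := fun n ω =>
    ⟨-(3 * C0), Filter.eventually_map.mpr (Eventually.of_forall fun M => (abs_le.mp (hub n M ω)).1)⟩
  have hcob : ∀ n ω, IsCoboundedUnder (· ≤ ·) atTop (fun M => u n M ω) := fun n ω =>
    (hbdd' n ω).isCoboundedUnder_le
  have hgm : ∀ n, Measurable (g n) := fun n => Measurable.limsup (hum n)
  have hgb : ∀ n ω, |g n ω| ≤ 3 * C0 := by
    intro n ω
    rw [abs_le]
    constructor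
    · exact le_limsup_of_frequently_le
        (Eventually.frequently (Eventually.of_forall fun M => (abs_le.mp (hub n M ω)).1))
        (hbdd n ω)
    · exact limsup_le_of_le (hcob n ω) (Eventually.of_forall fun M => (abs_le.mp (hub n M ω)).2)
  -- n → ∞
  have hA : ∀ᶠ n in atTop, ∫ ω, g n ω ∂P' ≤ ∫ ω, y ω ∂P' + ε / 4 := by
    refine revFatou (C := 3 * C0) (fun n => (hgm n).aestronglyMeasurable) hym hgb
      (fun ω => (hy ω).trans (by linarith)) ?_ (by positivity)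
    filter_upwards [hst] with ω hω ε' hε'
    obtain ⟨δ, hδ, N0, hN0⟩ := hω ε' hε'
    obtain ⟨n1, hn1⟩ := exists_nat_gt (3 / δ)
    filter_upwards [eventually_ge_atTop (max N0 n1)] with n hn
    have hnN0 : N0 ≤ n := (le_max_left _ _).trans hn
    have hnn1 : n1 ≤ n := (le_max_right _ _).trans hn
    have h3η : 3 * (1 / ((n:ℝ) + 1)) ≤ δ := by
      have h1 : (n1 : ℝ) ≤ n := by exact_mod_cast hnn1
      have h2 : 3 / δ < (n:ℝ) + 1 := by linarith
      rw [div_lt_iff₀ hδ] at h2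
      rw [mul_one_div, div_le_iff₀ (by positivity)]
      linarith
    refine limsup_le_of_le (hcob n ω) ?_
    filter_upwards [osc_le (hB.cont ω) (hηpos n)] with M hM
    exact Hf_limit (f := fun t => B t ω) hΦ (hηpos n) (hB.zero ω) (abs_le.mp (hy ω)).1 hε'.le
      (fun N hN hN' a ha z hz hclose => hN0 N (hnN0.trans hN) hN' a ha z hz
        fun k hk => (hclose k hk).trans h3η) hM
  obtain ⟨n, hn⟩ := hA.exists
  -- M → ∞
  have hBev : ∀ᶠ M in atTop, ∫ ω, u n M ω ∂P' ≤ ∫ ω, g n ω ∂P' + ε / 4 := by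
    refine revFatou (C := 3 * C0) (fun M => (hum n M).aestronglyMeasurable)
      (hgm n).aestronglyMeasurable (hub n) (hgb n) ?_ (by positivity)
    filter_upwards with ω ε' hε'
    have h1 : limsup (fun M => u n M ω) atTop < g n ω + ε' := by
      simp only [hg]; linarith
    filter_upwards [eventually_lt_of_limsup_lt h1 (hbdd n ω)] with M hM using hM.le
  have hCev : ∀ᶠ M : ℕ in atTop,
      2 * C0 * (((M : ℝ) + 1) * (4 * Real.exp (-((1 / ((n:ℝ) + 1)) ^ 2 * M / 16)))) < ε / 4 :=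
    (tail_tendsto C0 (hηpos n)).eventually (Iio_mem_nhds (by positivity))
  obtain ⟨M, ⟨hM1, hM2⟩, hM3⟩ := ((hBev.and hCev).and (eventually_gt_atTop 0)).exists
  filter_upwards [step_one h hB hΦ hloc (hηpos n) n hM3 (ε := ε / 4) (by positivity)] with N hN
  have hN' : ∫ ω, Φ N (fun k => walk ξ k ω) ∂P ≤ ∫ ω, u n M ω ∂P' + ε / 4 +
    2 * C0 * (((M : ℝ) + 1) * (4 * Real.exp (-((1 / ((n:ℝ) + 1)) ^ 2 * M / 16)))) := hN
  linarith

end

end Pool.Agent.R974.Span
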