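import Pool.Agent.R974.Span.BM

open MeasureTheory ProbabilityTheory Filter Topology Set
open scoped ENNReal NNReal

namespace Pool.Agent.R974.Span

/-- the times after `s` at which `f` is at distance `a` from `f s` -/
def nxt (a : ℝ) (f : ℝ≥0 → ℝ) (s : ℝ≥0) : Set ℝ≥0 := {t | s < t ∧ |f t - f s| = a}

/-- Knight's times `τ_0 = 0`, `τ_{k+1} = inf {t > τ_k : |f t - f τ_k| = a}` -/
noncomputable def kt (a : ℝ) (f : ℝ≥0 → ℝ) : ℕ → ℝ≥0
  | 0 => 0
  | k + 1 => sInf (nxt a f (kt a f k))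

/-- the first `k` of Knight's times exist -/
def ok (a : ℝ) (f : ℝ≥0 → ℝ) (k : ℕ) : Prop := ∀ j < k, (nxt a f (kt a f j)).Nonempty

section
variable {a : ℝ} {f : ℝ≥0 → ℝ}

lemma nxt_spec (hf : Continuous f) (ha : 0 < a) {s : ℝ≥0} (hne : (nxt a f s).Nonempty) :
    s < sInf (nxt a f s) ∧ |f (sInf (nxt a f s)) - f s| = a ∧
      ∀ r, s ≤ r → r < sInf (nxt a f s) → |f r - f s| < a := by
  have h1 : nxt a f s = {t | s ≤ t} ∩ {t | |f t - f s| = a} := by
    ext t
    simp only [nxt, Set.mem_ofPred_eq, mem_inter_iff]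
    constructor
    · rintro ⟨h1, h2⟩; exact ⟨h1.le, h2⟩
    · rintro ⟨h1, h2⟩
      refine ⟨lt_of_le_of_ne h1 ?_, h2⟩
      rintro rfl
      simp at h2
      exact ha.ne h2
  have hcl : IsClosed (nxt a f s) := by
    rw [h1]
    exact (isClosed_le continuous_const continuous_id).inter
      (isClosed_eq (by fun_prop) continuous_const)
  have hmem := hcl.csInf_mem hne (OrderBot.bddBelow _)
  refine ⟨hmem.1, hmem.2, fun r hr1 hr2 => ?_⟩
  by_contra hcon
  push Not at hcon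
  have hg : ContinuousOn (fun t => |f t - f s|) (Icc s r) := by fun_prop
  have h2 := intermediate_value_Icc hr1 hg
  have h3 : a ∈ Icc (|f s - f s|) (|f r - f s|) := by
    rw [sub_self, abs_zero]; exact ⟨ha.le, hcon⟩
  obtain ⟨r', hr', hr'2⟩ := h2 h3
  have h4 : r' ∈ nxt a f s := by
    rw [h1]; exact ⟨hr'.1, hr'2⟩
  have h5 := csInf_le (OrderBot.bddBelow _) h4
  exact absurd (h5.trans hr'.2) (not_le.mpr hr2)

/-- the state at time `s`: exactly `c` of Knight's times are `≤ s` and `f` is at `A` at the last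
one -/
structure Tr (a : ℝ) (f : ℝ≥0 → ℝ) (s : ℝ≥0) (A : ℝ) (c : ℕ) : Prop where
  ok : ok a f c
  le : kt a f c ≤ s
  val : f (kt a f c) = A
  near : ∀ r, kt a f c ≤ r → r ≤ s → |f r - A| < a

lemma Tr.zero (ha : 0 < a) (h0 : f 0 = 0) : Tr a f 0 0 0 where
  ok := fun j hj => absurd hj (Nat.not_lt_zero _)
  le := le_rfl
  val := h0
  near r _ hr := by
    have : r = 0 := le_antisymm hr zero_le
    subst this
    rw [h0]; simpa using ha

lemma Tr.cross (hf : Continuous f) (ha : 0 < a) {s s' : ℝ≥0} {A : ℝ} {c : ℕ} (h : Tr a f s A c)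
    (hosc : ∀ r r', s ≤ r → r ≤ s' → s ≤ r' → r' ≤ s' → |f r - f r'| < a)
    {r : ℝ≥0} (hr1 : s ≤ r) (hr2 : r ≤ s') (hr : |f r - A| = a) : Tr a f s' (f r) (c + 1) := by
  have hcr : kt a f c < r := by
    refine lt_of_le_of_ne (h.le.trans hr1) ?_
    intro heq
    have := h.near r heq.le.ge (heq ▸ h.le)
    exact absurd hr this.ne
  have hmem : r ∈ nxt a f (kt a f c) := ⟨hcr, by rw [h.val]; exact hr⟩
  obtain ⟨h1, h2, h3⟩ := nxt_spec hf ha ⟨r, hmem⟩
  have h4 : kt a f (c + 1) = sInf (nxt a f (kt a f c)) := rfl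
  rw [← h4] at h1 h2 h3
  rw [h.val] at h2 h3
  have h5 : kt a f (c + 1) ≤ r := csInf_le (OrderBot.bddBelow _) hmem
  have h6 : s ≤ kt a f (c + 1) := by
    by_contra hcon
    push Not at hcon
    exact absurd h2 (h.near _ h1.le hcon.le).ne
  have h7 : f (kt a f (c + 1)) = f r := by
    have h8 := hosc _ _ h6 (h5.trans hr2) hr1 hr2
    have h9 := abs_lt.mp h8
    rcases abs_cases (f (kt a f (c + 1)) - A) with ⟨h10, _⟩ | ⟨h10, _⟩ <;>
    rcases abs_cases (f r - A) with ⟨h11, _⟩ | ⟨h11, _⟩ <;> linarith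
  refine ⟨fun j hj => ?_, h5.trans hr2, h7, fun r' h8 h9 => ?_⟩
  · rcases Nat.lt_succ_iff_lt_or_eq.mp hj with h8 | h8
    · exact h.ok j h8
    · rw [h8]; exact ⟨r, hmem⟩
  · rw [← h7]
    exact hosc _ _ (h6.trans h8) h9 h6 (h8.trans h9)

lemma Tr.stay {s s' : ℝ≥0} {A : ℝ} {c : ℕ} (h : Tr a f s A c) (hss : s ≤ s')
    (hst : ∀ r, s ≤ r → r ≤ s' → |f r - A| < a) : Tr a f s' A c where
  ok := h.ok
  le := h.le.trans hss
  val := h.val
  near r h1 h2 := by
    rcases le_total r s with h3 | h3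
    · exact h.near r h1 h3
    · exact hst r h3 h2

lemma hit_up (hf : Continuous f) {s s' : ℝ≥0} (hss : s ≤ s') {x : ℝ} (h1 : f s ≤ x)
    (h2 : x ≤ mx f s s') : ∃ r, s ≤ r ∧ r ≤ s' ∧ f r = x := by
  obtain ⟨r0, hr0, hmax⟩ := isCompact_Icc.exists_isMaxOn (nonempty_Icc.mpr hss)
    (hf.continuousOn (s := Icc s s'))
  have h3 : mx f s s' ≤ f r0 := mx_le hss fun r hr1 hr2 => hmax ⟨hr1, hr2⟩
  obtain ⟨r, hr, hrx⟩ := intermediate_value_Icc hr0.1 (hf.continuousOn (s := Icc s r0))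
    ⟨h1, h2.trans h3⟩
  exact ⟨r, hr.1, hr.2.trans hr0.2, hrx⟩

/-- uniqueness of the state -/
lemma kt_mono_ok (hf : Continuous f) (ha : 0 < a) {c : ℕ} (h : ok a f c) {j k : ℕ} (hjk : j ≤ k)
    (hk : k ≤ c) : kt a f j ≤ kt a f k := by
  induction k, hjk using Nat.le_induction with
  | base => exact le_rfl
  | succ k hjk ih =>
    exact (ih (by omega)).trans (nxt_spec hf ha (h k (by omega))).1.le

lemma Tr.lt_next (hf : Continuous f) (ha : 0 < a) {s : ℝ≥0} {A : ℝ} {c : ℕ} (h : Tr a f s A c)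
    {k : ℕ} (hk : c < k) (hok : Pool.Agent.R974.Span.ok a f k) : s < kt a f k := by
  have h1 := kt_mono_ok hf ha hok (j := c + 1) (k := k) hk le_rfl
  obtain ⟨h2, h3, -⟩ := nxt_spec hf ha (hok c hk)
  have h4 : kt a f (c + 1) = sInf (nxt a f (kt a f c)) := rfl
  rw [← h4] at h2 h3
  rw [h.val] at h3
  by_contra hcon
  push Not at hcon
  exact absurd h3 (h.near _ h2.le (h1.trans hcon)).ne

lemma Tr.unique (hf : Continuous f) (ha : 0 < a) {s : ℝ≥0} {A A' : ℝ} {c c' : ℕ}
    (h : Tr a f s A c) (h' : Tr a f s A' c') : c = c' ∧ A = A' := by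
  have hc : c = c' := by
    rcases lt_trichotomy c c' with h1 | h1 | h1
    · exact absurd h'.le (not_le.mpr (h.lt_next hf ha h1 h'.ok))
    · exact h1
    · exact absurd h.le (not_le.mpr (h'.lt_next hf ha h1 h.ok))
  subst hc
  exact ⟨rfl, by rw [← h.val, ← h'.val]⟩

end

/-- the grid times -/
noncomputable def gt (h : ℝ≥0) (i : ℕ) : ℝ≥0 := (i : ℝ≥0) * h

/-- the anchor, computed along the grid -/
noncomputable def anc (a : ℝ) (h : ℝ≥0) (w : ℝ≥0 → ℝ) : ℕ → ℝ
  | 0 => 0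
  | i + 1 =>
    if anc a h w i + a ≤ mx w (gt h i) (gt h (i + 1)) then anc a h w i + a
    else if a - anc a h w i ≤ mx (fun t => -w t) (gt h i) (gt h (i + 1)) then anc a h w i - a
    else anc a h w i

/-- the number of changes of the anchor, computed along the grid -/
noncomputable def cnt (a : ℝ) (h : ℝ≥0) (w : ℝ≥0 → ℝ) : ℕ → ℕ
  | 0 => 0
  | i + 1 =>
    if anc a h w i + a ≤ mx w (gt h i) (gt h (i + 1)) then cnt a h w i + 1
    else if a - anc a h w i ≤ mx (fun t => -w t) (gt h i) (gt h (i + 1)) then cnt a h w i + 1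
    else cnt a h w i

/-- truncation to `[-a,a]` -/
noncomputable def clip (a x : ℝ) : ℝ := max (-a) (min a x)

lemma clip_eq {a x : ℝ} (h : |x| ≤ a) : clip a x = x := by
  have := abs_le.mp h
  rw [clip, min_eq_right this.2, max_eq_right this.1]

lemma abs_clip_le {a x : ℝ} (ha : 0 ≤ a) : |clip a x| ≤ a := by
  rw [abs_le]
  exact ⟨le_max_left _ _, max_le (by linarith) (min_le_left _ _)⟩

/-- the increments -/
noncomputable def inc (h : ℝ≥0) (w : ℝ≥0 → ℝ) (i : ℕ) : ℝ := w (gt h (i + 1)) - w (gt h i)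

/-- the discrete martingale -/
noncomputable def mg (a : ℝ) (h : ℝ≥0) (w : ℝ≥0 → ℝ) (m : ℕ) : ℝ :=
  ∑ i ∈ Finset.range m,
    (2 * clip a (w (gt h i) - anc a h w i) * inc h w i + (inc h w i ^ 2 - h))

lemma gt_zero (h : ℝ≥0) : gt h 0 = 0 := by simp [gt]

lemma gt_succ (h : ℝ≥0) (i : ℕ) : gt h (i + 1) = gt h i + h := by
  unfold gt; push_cast; ring

lemma gt_le_succ (h : ℝ≥0) (i : ℕ) : gt h i ≤ gt h (i + 1) := by
  rw [gt_succ]; exact le_self_add

lemma track {a : ℝ} {f : ℝ≥0 → ℝ} (hf : Continuous f) (h0 : f 0 = 0) {h : ℝ≥0} {ρ : ℝ}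
    (hρ0 : 0 ≤ ρ) (hρ : ρ < a) {m : ℕ}
    (hosc : ∀ i < m, ∀ r r', gt h i ≤ r → r ≤ gt h (i + 1) → gt h i ≤ r' → r' ≤ gt h (i + 1) →
      |f r - f r'| ≤ ρ) {i : ℕ} (hi : i ≤ m) :
    Tr a f (gt h i) (anc a h f i) (cnt a h f i) ∧
    |a ^ 2 * cnt a h f i + (f (gt h i) - anc a h f i) ^ 2 - gt h i - mg a h f i| ≤
      2 * a * ρ * cnt a h f i := by
  have ha : 0 < a := lt_of_le_of_lt hρ0 hρ
  induction i with
  | zero =>
    refine ⟨?_, ?_⟩
    · rw [gt_zero]; exact Tr.zero ha h0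
    · simp [gt_zero, anc, cnt, mg, h0]
  | succ i ih =>
    obtain ⟨ih1, ih2⟩ := ih (by omega)
    have hle := gt_le_succ h i
    have ho := hosc i (by omega)
    have ho' : ∀ r r', gt h i ≤ r → r ≤ gt h (i + 1) → gt h i ≤ r' → r' ≤ gt h (i + 1) →
      |f r - f r'| < a := fun r r' h1 h2 h3 h4 => (ho r r' h1 h2 h3 h4).trans_lt hρ
    have hnear := ih1.near (gt h i) ih1.le le_rfl
    have hn := abs_lt.mp hnear
    set A := anc a h f i with hA
    set c := cnt a h f i with hc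
    have hmg : mg a h f (i + 1) = mg a h f i +
        (2 * (f (gt h i) - A) * inc h f i + (inc h f i ^ 2 - h)) := by
      rw [mg, Finset.sum_range_succ, ← mg, ← hA, clip_eq hnear.le]
    have hgt : ((gt h (i + 1) : ℝ≥0) : ℝ) = gt h i + h := by rw [gt_succ]; push_cast; ring
    have hinc : f (gt h (i + 1)) = f (gt h i) + inc h f i := by unfold inc; ring
    by_cases hU : A + a ≤ mx f (gt h i) (gt h (i + 1))
    · have e1 : anc a h f (i + 1) = A + a := by rw [anc, ← hA, if_pos hU]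
      have e2 : cnt a h f (i + 1) = c + 1 := by rw [cnt, ← hA, if_pos hU]
      obtain ⟨r, hr1, hr2, hr3⟩ := hit_up hf hle (x := A + a) (by linarith) hU
      have hcr := ih1.cross hf ha ho' hr1 hr2 (by rw [hr3]; simp [abs_of_pos ha])
      rw [e1, e2]
      refine ⟨hr3 ▸ hcr, ?_⟩
      have h4 := ho (gt h (i + 1)) r hle le_rfl hr1 hr2
      rw [hr3] at h4
      have h5 : a ^ 2 * ((c + 1 : ℕ) : ℝ) + (f (gt h (i + 1)) - (A + a)) ^ 2 - gt h (i + 1) -
          mg a h f (i + 1) = (a ^ 2 * c + (f (gt h i) - A) ^ 2 - gt h i - mg a h f i) +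
            (-(2 * a) * (f (gt h (i + 1)) - (A + a))) := by
        rw [hmg, hgt, hinc]; push_cast; ring
      rw [h5]
      refine (abs_add_le _ _).trans ?_
      rw [abs_mul, abs_neg, abs_of_pos (by positivity : 0 < 2 * a)]
      have h6 : 2 * a * |f (gt h (i + 1)) - (A + a)| ≤ 2 * a * ρ := by gcongr
      push_cast
      linarith
    · by_cases hL : a - A ≤ mx (fun t => -f t) (gt h i) (gt h (i + 1))
      · have e1 : anc a h f (i + 1) = A - a := by rw [anc, ← hA, if_neg hU, if_pos hL]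
        have e2 : cnt a h f (i + 1) = c + 1 := by rw [cnt, ← hA, if_neg hU, if_pos hL]
        obtain ⟨r, hr1, hr2, hr3⟩ := hit_up hf.neg hle (x := a - A)
          (by simp only [Pi.neg_apply]; linarith) hL
        have hr3' : f r = A - a := by
          have : -f r = a - A := hr3
          linarith
        have hcr := ih1.cross hf ha ho' hr1 hr2 (by rw [hr3']; simp [abs_of_pos ha])
        rw [e1, e2]
        refine ⟨hr3' ▸ hcr, ?_⟩
        have h4 := ho (gt h (i + 1)) r hle le_rfl hr1 hr2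
        rw [hr3'] at h4
        have h5 : a ^ 2 * ((c + 1 : ℕ) : ℝ) + (f (gt h (i + 1)) - (A - a)) ^ 2 - gt h (i + 1) -
            mg a h f (i + 1) = (a ^ 2 * c + (f (gt h i) - A) ^ 2 - gt h i - mg a h f i) +
              (2 * a * (f (gt h (i + 1)) - (A - a))) := by
          rw [hmg, hgt, hinc]; push_cast; ring
        rw [h5]
        refine (abs_add_le _ _).trans ?_
        rw [abs_mul, abs_of_pos (by positivity : 0 < 2 * a)]
        have h6 : 2 * a * |f (gt h (i + 1)) - (A - a)| ≤ 2 * a * ρ := by gcongr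
        push_cast
        linarith
      · have e1 : anc a h f (i + 1) = A := by rw [anc, ← hA, if_neg hU, if_neg hL]
        have e2 : cnt a h f (i + 1) = c := by rw [cnt, ← hA, if_neg hU, if_neg hL]
        rw [e1, e2]
        push Not at hU hL
        refine ⟨ih1.stay hle fun r hr1 hr2 => ?_, ?_⟩
        · have g1 := le_mx hf hr1 hr2
          have g2 := le_mx hf.neg hr1 hr2
          simp only [Pi.neg_apply] at g2
          rw [abs_lt]
          constructor
          · have : -f r < a - A := lt_of_le_of_lt g2 hL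
            linarith
          · linarith
        · have h5 : a ^ 2 * (c : ℝ) + (f (gt h (i + 1)) - A) ^ 2 - gt h (i + 1) -
              mg a h f (i + 1) = (a ^ 2 * c + (f (gt h i) - A) ^ 2 - gt h i - mg a h f i) := by
            rw [hmg, hgt, hinc]; ring
          rw [h5]
          exact ih2

end Pool.Agent.R974.Span
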