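import Pool.Agent.R974.Span.K1

open MeasureTheory ProbabilityTheory Filter Topology Set
open scoped ENNReal NNReal

namespace Pool.Agent.R974.Span

/-! ### measurability and locality of the grid functionals -/

lemma measurable_anc (a : ℝ) (h : ℝ≥0) (i : ℕ) : Measurable (fun w : ℝ≥0 → ℝ => anc a h w i) := by
  induction i with
  | zero => exact measurable_const
  | succ i ih =>
    simp only [anc]
    have hneg : Measurable (fun w : ℝ≥0 → ℝ => mx (fun t => -w t) (gt h i) (gt h (i + 1))) :=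
      (measurable_mx _ _).comp (measurable_pi_lambda _ fun t => (measurable_pi_apply t).neg)
    refine Measurable.ite (measurableSet_le (ih.add_const _) (measurable_mx _ _)) (ih.add_const _) ?_
    exact Measurable.ite (measurableSet_le (measurable_const.sub ih) hneg) (ih.sub_const _) ih

lemma mx_congr {w w' : ℝ≥0 → ℝ} {x y : ℝ≥0} (hxy : x ≤ y) (h : ∀ r, r ≤ y → w r = w' r) :
    mx w x y = mx w' x y := by
  unfold mx
  congr 1
  funext n
  exact h _ (max_le hxy (min_le_right _ _))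

lemma gt_mono (h : ℝ≥0) : Monotone (gt h) := by
  intro i j hij
  unfold gt
  have : (i : ℝ≥0) ≤ j := by exact_mod_cast hij
  gcongr

lemma anc_congr {a : ℝ} {h : ℝ≥0} {w w' : ℝ≥0 → ℝ} {i : ℕ} (hw : ∀ r, r ≤ gt h i → w r = w' r) :
    anc a h w i = anc a h w' i := by
  induction i with
  | zero => rfl
  | succ i ih =>
    have h1 := ih fun r hr => hw r (hr.trans (gt_le_succ h i))
    have h2 := mx_congr (gt_le_succ h i) hw
    have h3 : mx (fun t => -w t) (gt h i) (gt h (i + 1)) =
      mx (fun t => -w' t) (gt h i) (gt h (i + 1)) :=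
      mx_congr (gt_le_succ h i) fun r hr => by rw [hw r hr]
    simp only [anc, h1, h2, h3]

/-- the clipped distance to the anchor -/
noncomputable def cx (a : ℝ) (h : ℝ≥0) (i : ℕ) (w : ℝ≥0 → ℝ) : ℝ :=
  clip a (w (gt h i) - anc a h w i)

lemma measurable_cx (a : ℝ) (h : ℝ≥0) (i : ℕ) : Measurable (cx a h i) := by
  unfold cx clip
  exact measurable_const.max (measurable_const.min
    ((measurable_pi_apply _).sub (measurable_anc a h i)))

lemma cx_congr {a : ℝ} {h : ℝ≥0} {w w' : ℝ≥0 → ℝ} {i : ℕ} (hw : ∀ r, r ≤ gt h i → w r = w' r) :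
    cx a h i w = cx a h i w' := by
  unfold cx
  rw [anc_congr hw, hw _ le_rfl]

lemma abs_cx_le {a : ℝ} (ha : 0 ≤ a) (h : ℝ≥0) (i : ℕ) (w : ℝ≥0 → ℝ) : |cx a h i w| ≤ a := by
  unfold cx
  exact abs_clip_le ha

lemma measurable_inc (h : ℝ≥0) (i : ℕ) : Measurable (fun w : ℝ≥0 → ℝ => inc h w i) :=
  (measurable_pi_apply _).sub (measurable_pi_apply _)

lemma mg_succ (a : ℝ) (h : ℝ≥0) (w : ℝ≥0 → ℝ) (m : ℕ) :
    mg a h w (m + 1) = mg a h w m + (2 * cx a h m w * inc h w m + (inc h w m ^ 2 - h)) := by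
  rw [mg, Finset.sum_range_succ, ← mg]; rfl

lemma measurable_mg (a : ℝ) (h : ℝ≥0) (m : ℕ) : Measurable (fun w : ℝ≥0 → ℝ => mg a h w m) := by
  induction m with
  | zero => simp only [mg, Finset.range_zero, Finset.sum_empty]; exact measurable_const
  | succ m ih =>
    simp only [mg_succ]
    exact ih.add ((((measurable_cx a h m).const_mul 2).mul (measurable_inc h m)).add
      (((measurable_inc h m).pow_const 2).sub_const _))

lemma mg_congr {a : ℝ} {h : ℝ≥0} {w w' : ℝ≥0 → ℝ} {m : ℕ} (hw : ∀ r, r ≤ gt h m → w r = w' r) :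
    mg a h w m = mg a h w' m := by
  induction m with
  | zero => simp [mg]
  | succ m ih =>
    have h1 : ∀ r, r ≤ gt h m → w r = w' r := fun r hr => hw r (hr.trans (gt_le_succ h m))
    have h2 : inc h w m = inc h w' m := by
      unfold inc
      rw [hw _ le_rfl, hw _ (gt_le_succ h m)]
    rw [mg_succ, mg_succ, ih h1, cx_congr h1, h2]

/-! ### independence -/

variable {Ω : Type*} [MeasurableSpace Ω] {P : Measure Ω} {B : ℝ≥0 → Ω → ℝ}

lemma indep_local (hB : GBM B P) (s h : ℝ≥0) {F : (ℝ≥0 → ℝ) → ℝ} (hF : Measurable F)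
    (hloc : ∀ w w' : ℝ≥0 → ℝ, (∀ r, r ≤ s → w r = w' r) → F w = F w') :
    IndepFun (fun ω => B (s + h) ω - B s ω) (fun ω => F (fun t => B t ω)) P := by
  have h1 := hB.pre.indepFun_shift s
  have hφ : Measurable (fun w : (ℝ≥0 → ℝ) => w h) := measurable_pi_apply h
  have hext : Measurable (fun (g : Set.Iic s → ℝ) (t : ℝ≥0) =>
      g ⟨min t s, Set.mem_Iic.mpr (min_le_right _ _)⟩) := by fun_prop
  have h2 := h1.comp hφ (hF.comp hext)
  have h3 : ((F ∘ fun (g : Set.Iic s → ℝ) (t : ℝ≥0) =>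
      g ⟨min t s, Set.mem_Iic.mpr (min_le_right _ _)⟩) ∘ fun ω (t : Set.Iic s) => B t ω) =
      fun ω => F (fun t => B t ω) := by
    funext ω
    simp only [Function.comp]
    apply hloc
    intro r hr
    simp only [min_eq_left hr]
  rw [h3] at h2
  exact h2

lemma law_inc (hB : GBM B P) (h : ℝ≥0) (i : ℕ) :
    P.map (fun ω => inc h (fun t => B t ω) i) = gaussianReal 0 h := by
  have h1 := (hB.pre.shift (gt h i)).hasLaw_eval h
  have h2 : (fun ω => inc h (fun t => B t ω) i) = fun ω => B (gt h i + h) ω - B (gt h i) ω := by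
    funext ω
    simp only [inc, gt_succ]
  rw [h2]
  exact h1.map_eq

lemma gauss_scale (h : ℝ≥0) : (gaussianReal 0 1).map (fun x => √h * x) = gaussianReal 0 h := by
  have := gaussianReal_map_const_mul (μ := 0) (v := 1) (√(h : ℝ))
  rw [this]
  congr 1
  · simp
  · apply NNReal.eq
    push_cast
    rw [Real.sq_sqrt (NNReal.coe_nonneg h)]; simp

/-- the variance of the square of a standard normal variable (only its finiteness is used) -/
noncomputable def vv : ℝ := ∫ x, (x ^ 2 - 1) ^ 2 ∂(gaussianReal 0 1)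

lemma vv_nonneg : 0 ≤ vv := integral_nonneg fun _ => sq_nonneg _

lemma meas_incB (hB : GBM B P) (h : ℝ≥0) (i : ℕ) :
    Measurable (fun ω => inc h (fun t => B t ω) i) := (hB.meas _).sub (hB.meas _)

lemma meas_path (hB : GBM B P) : Measurable (fun ω (t : ℝ≥0) => B t ω) :=
  measurable_pi_lambda _ fun t => hB.meas t

lemma meas_comp_path (hB : GBM B P) {F : (ℝ≥0 → ℝ) → ℝ} (hF : Measurable F) :
    Measurable (fun ω => F (fun t => B t ω)) := hF.comp (meas_path hB)

lemma inc_memLp (hB : GBM B P) (h : ℝ≥0) (i : ℕ) (p : ℝ≥0∞) (hp : p ≠ ∞) :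
    MemLp (fun ω => inc h (fun t => B t ω) i) p P := by
  have h1 := memLp_id_gaussianReal' (μ := 0) (v := h) p hp
  rw [← law_inc hB h i] at h1
  exact (memLp_map_measure_iff aestronglyMeasurable_id (meas_incB hB h i).aemeasurable).mp h1

lemma inc_mean (hB : GBM B P) (h : ℝ≥0) (i : ℕ) : ∫ ω, inc h (fun t => B t ω) i ∂P = 0 := by
  have h1 : ∫ x, x ∂(P.map (fun ω => inc h (fun t => B t ω) i)) =
      ∫ ω, inc h (fun t => B t ω) i ∂P :=
    integral_map (meas_incB hB h i).aemeasurable aestronglyMeasurable_id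
  rw [← h1, law_inc hB, integral_id_gaussianReal]

lemma inc_sq (hB : GBM B P) (h : ℝ≥0) (i : ℕ) : ∫ ω, inc h (fun t => B t ω) i ^ 2 ∂P = h := by
  have := hB.prob
  have h1 : Var[(fun ω => inc h (fun t => B t ω) i); P] = h := by
    have h2 := variance_id_gaussianReal (μ := 0) (v := h)
    rw [← law_inc hB h i, variance_map aemeasurable_id (meas_incB hB h i).aemeasurable] at h2
    exact h2
  rw [variance_eq_sub (inc_memLp hB h i 2 (by norm_num)), inc_mean hB] at h1
  simpa using h1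

lemma inc_four (hB : GBM B P) (h : ℝ≥0) (i : ℕ) :
    ∫ ω, (inc h (fun t => B t ω) i ^ 2 - h) ^ 2 ∂P = vv * h ^ 2 := by
  have h1 : ∫ x, (x ^ 2 - (h : ℝ)) ^ 2 ∂(P.map (fun ω => inc h (fun t => B t ω) i)) =
      ∫ ω, (inc h (fun t => B t ω) i ^ 2 - h) ^ 2 ∂P :=
    integral_map (meas_incB hB h i).aemeasurable (by fun_prop)
  rw [← h1, law_inc hB, ← gauss_scale h, integral_map (by fun_prop) (by fun_prop)]
  have h2 : ∀ x : ℝ, ((√(h : ℝ) * x) ^ 2 - (h : ℝ)) ^ 2 = (h : ℝ) ^ 2 * (x ^ 2 - 1) ^ 2 := by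
    intro x
    rw [mul_pow, Real.sq_sqrt (NNReal.coe_nonneg h)]; ring
  simp_rw [h2]
  rw [integral_const_mul, vv, mul_comm]

/-- the `L²` bound for the discrete martingale -/
lemma mg_L2 (hB : GBM B P) {a : ℝ} (ha : 0 ≤ a) (h : ℝ≥0) (m : ℕ) :
    MemLp (fun ω => mg a h (fun t => B t ω) m) 2 P ∧
      ∫ ω, mg a h (fun t => B t ω) m ^ 2 ∂P ≤ m * (8 * a ^ 2 * h + 2 * vv * h ^ 2) := by
  have := hB.prob
  induction m with
  | zero => simp [mg]
  | succ m ih =>
    obtain ⟨ih1, ih2⟩ := ih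
    set D : Ω → ℝ := fun ω => mg a h (fun t => B t ω) m with hD
    set C : Ω → ℝ := fun ω => cx a h m (fun t => B t ω) with hC
    set I : Ω → ℝ := fun ω => inc h (fun t => B t ω) m with hI
    have hCm : Measurable C := meas_comp_path hB (measurable_cx a h m)
    have hDm : Measurable D := meas_comp_path hB (F := fun w => mg a h w m) (measurable_mg a h m)
    have hIm : Measurable I := meas_incB hB h m
    have hCb : ∀ ω, |C ω| ≤ a := fun ω => abs_cx_le ha h m _
    have hI2 : MemLp I 2 P := inc_memLp hB h m 2 (by norm_num)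
    have hI4 : MemLp I 4 P := inc_memLp hB h m 4 (by norm_num)
    have hIsq : MemLp (fun ω => I ω ^ 2) 2 P := by
      have h1 : MemLp (fun ω => I ω * I ω) 2 P := hI4.mul' hI4 (hpqr := ⟨by
        rw [← two_mul, show (4 : ℝ≥0∞) = 2 * 2 by norm_num, ENNReal.mul_inv (by norm_num) (by norm_num), ← mul_assoc,
          ENNReal.mul_inv_cancel (by norm_num) (by norm_num), one_mul]⟩)
      refine h1.congr_norm (hIm.pow_const 2).aestronglyMeasurable ?_
      filter_upwards with ω
      rw [pow_two]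
    have hCI : MemLp (fun ω => 2 * C ω * I ω) 2 P := by
      refine (hI2.const_mul (2 * a)).mono ((hCm.const_mul 2).mul hIm).aestronglyMeasurable ?_
      filter_upwards with ω
      rw [Real.norm_eq_abs, Real.norm_eq_abs, abs_mul, abs_mul _ (I ω)]
      have h1 : |2 * C ω| ≤ |2 * a| := by
        rw [abs_mul, abs_mul, abs_of_nonneg ha]
        exact mul_le_mul_of_nonneg_left (hCb ω) (abs_nonneg _)
      gcongr
    have hJ : MemLp (fun ω => I ω ^ 2 - (h : ℝ)) 2 P := hIsq.sub (memLp_const _)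
    have hψ : MemLp (fun ω => 2 * C ω * I ω + (I ω ^ 2 - h)) 2 P := hCI.add hJ
    have e1 : (fun ω => mg a h (fun t => B t ω) (m + 1)) =
        fun ω => D ω + (2 * C ω * I ω + (I ω ^ 2 - h)) := by
      funext ω; exact mg_succ _ _ _ _
    have hind1 : IndepFun I (fun ω => 2 * D ω * C ω) P := by
      have h1 := indep_local hB (gt h m) h (F := fun w => 2 * mg a h w m * cx a h m w)
        (((measurable_mg a h m).const_mul 2).mul (measurable_cx a h m))
        (fun w w' hw => by rw [mg_congr hw, cx_congr hw])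
      have h2 : I = fun ω => B (gt h m + h) ω - B (gt h m) ω := by
        funext ω; simp only [hI, inc, gt_succ]
      rw [h2]
      exact h1
    have hind2 : IndepFun I D P := by
      have h1 := indep_local hB (gt h m) h (F := fun w => mg a h w m)
        (measurable_mg a h m) (fun w w' hw => mg_congr hw)
      have h2 : I = fun ω => B (gt h m + h) ω - B (gt h m) ω := by
        funext ω; simp only [hI, inc, gt_succ]
      rw [h2]
      exact h1
    have hcross1 : ∫ ω, I ω * (2 * D ω * C ω) ∂P = 0 := by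
      rw [hind1.integral_fun_mul_eq_mul_integral hIm.aestronglyMeasurable
        ((hDm.const_mul 2).mul hCm).aestronglyMeasurable, inc_mean hB, zero_mul]
    have hcross2 : ∫ ω, (I ω ^ 2 - h) * D ω ∂P = 0 := by
      have h1 : IndepFun (fun ω => I ω ^ 2 - (h : ℝ)) D P :=
        hind2.comp (φ := fun x => x ^ 2 - (h : ℝ)) (ψ := id) (by fun_prop) measurable_id
      rw [h1.integral_fun_mul_eq_mul_integral ((hIm.pow_const 2).sub_const _).aestronglyMeasurable
        hDm.aestronglyMeasurable, integral_sub (hI2.integrable_sq) (integrable_const _), inc_sq hB]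
      simp
    refine ⟨by rw [e1]; exact ih1.add hψ, ?_⟩
    have i1 : Integrable (fun ω => D ω ^ 2) P := ih1.integrable_sq
    have i2 : Integrable (fun ω => (I ω ^ 2 - h) * D ω) P := hJ.integrable_mul ih1
    have i3 : Integrable (fun ω => I ω * (2 * D ω * C ω)) P := by
      have h1 : Integrable (fun ω => 2 * C ω * I ω * D ω) P := hCI.integrable_mul ih1
      refine h1.congr ?_
      filter_upwards with ω
      ring
    have i4 : Integrable (fun ω => (2 * C ω * I ω + (I ω ^ 2 - h)) ^ 2) P := hψ.integrable_sq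
    have e2 : ∀ ω, mg a h (fun t => B t ω) (m + 1) ^ 2 = D ω ^ 2 + 2 * (I ω * (2 * D ω * C ω)) +
        2 * ((I ω ^ 2 - h) * D ω) + (2 * C ω * I ω + (I ω ^ 2 - h)) ^ 2 := by
      intro ω
      have h1 : mg a h (fun t => B t ω) (m + 1) = D ω + (2 * C ω * I ω + (I ω ^ 2 - h)) :=
        congrFun e1 ω
      rw [h1]; ring
    have j1 : Integrable (fun ω => 8 * a ^ 2 * I ω ^ 2) P := hI2.integrable_sq.const_mul _
    have j2 : Integrable (fun ω => 2 * (I ω ^ 2 - (h : ℝ)) ^ 2) P := hJ.integrable_sq.const_mul _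
    have e3 : ∫ ω, (2 * C ω * I ω + (I ω ^ 2 - h)) ^ 2 ∂P ≤ 8 * a ^ 2 * h + 2 * vv * h ^ 2 := by
      calc ∫ ω, (2 * C ω * I ω + (I ω ^ 2 - h)) ^ 2 ∂P
          ≤ ∫ ω, (8 * a ^ 2 * I ω ^ 2 + 2 * (I ω ^ 2 - h) ^ 2) ∂P := by
            apply integral_mono i4 (j1.add j2)
            intro ω
            change (2 * C ω * I ω + (I ω ^ 2 - h)) ^ 2 ≤ 8 * a ^ 2 * I ω ^ 2 + 2 * (I ω ^ 2 - h) ^ 2
            have h1 : C ω ^ 2 ≤ a ^ 2 := by
              rw [← sq_abs]; exact pow_le_pow_left₀ (abs_nonneg _) (hCb ω) 2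
            have h2 : C ω ^ 2 * I ω ^ 2 ≤ a ^ 2 * I ω ^ 2 := by gcongr
            nlinarith [sq_nonneg (2 * C ω * I ω - (I ω ^ 2 - h))]
        _ = 8 * a ^ 2 * h + 2 * vv * h ^ 2 := by
            rw [integral_add j1 j2, integral_const_mul, integral_const_mul, inc_sq hB, inc_four hB]
            ring
    simp_rw [e2]
    have k1 : Integrable (fun ω => 2 * (I ω * (2 * D ω * C ω))) P := i3.const_mul 2
    have k2 : Integrable (fun ω => 2 * ((I ω ^ 2 - h) * D ω)) P := i2.const_mul 2
    have k3 : Integrable (fun ω => D ω ^ 2 + 2 * (I ω * (2 * D ω * C ω))) P := i1.add k1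
    have k4 : Integrable (fun ω => D ω ^ 2 + 2 * (I ω * (2 * D ω * C ω)) +
      2 * ((I ω ^ 2 - h) * D ω)) P := k3.add k2
    rw [integral_add k4 i4, integral_add k3 k2, integral_add i1 k1,
      integral_const_mul, integral_const_mul, hcross1, hcross2]
    push_cast
    linarith

end Pool.Agent.R974.Span
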