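import Pool.Agent.R974.Span.K2

open MeasureTheory ProbabilityTheory Filter Topology Set
open scoped ENNReal NNReal

namespace Pool.Agent.R974.Span

/-- at time `t` the number of Knight's times is about `t / a ^ 2` -/
def Good (a : ℝ) (f : ℝ≥0 → ℝ) (t : ℝ≥0) (δ : ℝ) : Prop :=
  ∃ A c, Tr a f t A c ∧ |a ^ 2 * c - t| ≤ δ + a ^ 2

lemma gt_div {t : ℝ≥0} {m : ℕ} (hm : 0 < m) : gt (t / m) m = t := by
  unfold gt
  have : (m : ℝ≥0) ≠ 0 := by exact_mod_cast hm.ne'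
  field_simp

lemma mesh_osc {f : ℝ≥0 → ℝ} (hf : Continuous f) (t : ℝ≥0) {ρ : ℝ} (hρ : 0 < ρ) :
    ∀ᶠ m : ℕ in atTop, ∀ i < m, ∀ r r', gt (t / m) i ≤ r → r ≤ gt (t / m) (i + 1) →
      gt (t / m) i ≤ r' → r' ≤ gt (t / m) (i + 1) → |f r - f r'| ≤ ρ := by
  have h1 : UniformContinuousOn f (Icc 0 t) :=
    isCompact_Icc.uniformContinuousOn_of_continuous hf.continuousOn
  obtain ⟨δ, hδ, h2⟩ := Metric.uniformContinuousOn_iff.mp h1 ρ hρ
  obtain ⟨M0, hM0⟩ := exists_nat_gt ((t : ℝ) / δ)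
  filter_upwards [eventually_ge_atTop (M0 + 1)] with m hm i hi r r' h3 h4 h5 h6
  have hmpos : 0 < m := by omega
  have hm' : (0:ℝ) < m := by exact_mod_cast hmpos
  have hle : gt (t / m) (i + 1) ≤ t := by
    calc gt (t / m) (i + 1) ≤ gt (t / m) m := gt_mono _ hi
      _ = t := gt_div hmpos
  have h7 := h2 r ⟨zero_le, h4.trans hle⟩ r' ⟨zero_le, h6.trans hle⟩ (by
    rw [NNReal.dist_eq]
    have e1 : (gt (t / m) i : ℝ) ≤ r := h3
    have e2 : (r : ℝ) ≤ gt (t / m) (i + 1) := h4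
    have e3 : (gt (t / m) i : ℝ) ≤ r' := h5
    have e4 : (r' : ℝ) ≤ gt (t / m) (i + 1) := h6
    have e5 : (gt (t / m) (i + 1) : ℝ) = gt (t / m) i + t / m := by
      rw [gt_succ]; push_cast; ring
    have e6 : (t : ℝ) / m < δ := by
      rw [div_lt_iff₀ hm']
      rw [div_lt_iff₀ hδ] at hM0
      have : (M0 : ℝ) + 1 ≤ m := by exact_mod_cast hm
      nlinarith
    rw [abs_lt]
    constructor <;> linarith)
  rw [Real.dist_eq] at h7
  exact h7.le

lemma bad_eventually {a : ℝ} (ha : 0 < a) {f : ℝ≥0 → ℝ} (hf : Continuous f) (h0 : f 0 = 0)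
    {t : ℝ≥0} {δ : ℝ} (hbad : ¬ Good a f t δ) :
    ∀ᶠ m : ℕ in atTop, δ < |mg a (t / m) f m| := by
  obtain ⟨m1, hm1, hm1'⟩ := ((mesh_osc hf t (ρ := a / 2) (by positivity)).and
    (eventually_gt_atTop 0)).exists
  obtain ⟨T1, -⟩ := track hf h0 (by positivity : 0 ≤ a / 2) (half_lt_self ha) hm1 le_rfl
  rw [gt_div hm1'] at T1
  set A := anc a (t / m1) f m1
  set c := cnt a (t / m1) f m1
  have hnear := T1.near t T1.le le_rfl
  have hX2 : (f t - A) ^ 2 < a ^ 2 := by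
    rw [← sq_abs]; exact pow_lt_pow_left₀ hnear (abs_nonneg _) two_ne_zero
  have hX0 := sq_nonneg (f t - A)
  have hng : δ + a ^ 2 < |a ^ 2 * c - t| := by
    by_contra hcon
    push Not at hcon
    exact hbad ⟨A, c, T1, hcon⟩
  have hL : δ < |a ^ 2 * c + (f t - A) ^ 2 - t| := by
    rcases abs_cases (a ^ 2 * (c : ℝ) - t) with ⟨h1, _⟩ | ⟨h1, _⟩
    · have := le_abs_self (a ^ 2 * c + (f t - A) ^ 2 - t)
      linarith
    · have := neg_abs_le (a ^ 2 * c + (f t - A) ^ 2 - t)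
      linarith
  set L := a ^ 2 * (c : ℝ) + (f t - A) ^ 2 - t with hLdef
  set ρ := min (a / 2) ((|L| - δ) / (4 * a * (c + 1))) with hρdef
  have hgap : 0 < |L| - δ := by linarith
  have hρpos : 0 < ρ := lt_min (by positivity) (by positivity)
  have hρa : ρ < a := (min_le_left _ _).trans_lt (by linarith)
  filter_upwards [mesh_osc hf t hρpos, eventually_gt_atTop 0] with m hm hm'
  obtain ⟨T2, T3⟩ := track hf h0 hρpos.le hρa hm le_rfl
  rw [gt_div hm'] at T2 T3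
  obtain ⟨u1, u2⟩ := T2.unique hf ha T1
  rw [u1, u2, ← hLdef] at T3
  have h5 : 2 * a * ρ * c < |L| - δ := by
    have h6 : ρ * (4 * a * (c + 1)) ≤ |L| - δ := by
      rw [← le_div_iff₀ (by positivity)]
      exact min_le_right _ _
    have h7 : 0 < a * ρ := by positivity
    have h8 : (0:ℝ) ≤ c := by positivity
    nlinarith
  have h9 : |L| ≤ |L - mg a (t / m) f m| + |mg a (t / m) f m| := by
    calc |L| = |(L - mg a (t / m) f m) + mg a (t / m) f m| := by rw [sub_add_cancel]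
      _ ≤ _ := abs_add_le _ _
  linarith

variable {Ω : Type*} [MeasurableSpace Ω] {P : Measure Ω} {B : ℝ≥0 → Ω → ℝ}

lemma prob_bad (hB : GBM B P) {a : ℝ} (ha : 0 < a) {t : ℝ≥0} (ht : 0 < t) {δ : ℝ} (hδ : 0 < δ) :
    P {ω | ¬ Good a (fun t => B t ω) t δ} ≤ ENNReal.ofReal (9 * a ^ 2 * t / δ ^ 2) := by
  have := hB.prob
  have ht' : (0:ℝ) < t := ht
  set E : ℕ → Set Ω := fun m => {ω | δ < |mg a (t / m) (fun t => B t ω) m|} with hE
  obtain ⟨m1, hm1⟩ := exists_nat_gt (2 * vv * t / a ^ 2)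
  have hv := vv_nonneg
  have hEm : ∀ m, m1 < m → P (E m) ≤ ENNReal.ofReal (9 * a ^ 2 * t / δ ^ 2) := by
    intro m hm
    have hmpos : (0:ℝ) < m := by
      have : 0 < m := by omega
      exact_mod_cast this
    obtain ⟨h1, h2⟩ := mg_L2 hB ha.le (t / m) m
    have h3 : (m : ℝ) * (8 * a ^ 2 * ((t / m : ℝ≥0) : ℝ) + 2 * vv * ((t / m : ℝ≥0) : ℝ) ^ 2) ≤
        9 * a ^ 2 * t := by
      push_cast
      have e1 : (m : ℝ) * (8 * a ^ 2 * ((t : ℝ) / m) + 2 * vv * ((t : ℝ) / m) ^ 2) =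
          8 * a ^ 2 * t + 2 * vv * t * t / m := by
        field_simp
      rw [e1]
      have e2 : 2 * vv * t * t / m ≤ a ^ 2 * t := by
        rw [div_le_iff₀ hmpos]
        rw [div_lt_iff₀ (by positivity)] at hm1
        have e3 : (m1 : ℝ) ≤ m := by exact_mod_cast hm.le
        have e4 : 2 * vv * t ≤ a ^ 2 * m := by nlinarith [sq_nonneg a]
        nlinarith
      linarith
    have h4 : MeasurableSet (E m) := measurableSet_lt measurable_const
      (meas_comp_path hB (F := fun w => mg a (t / m) w m) (measurable_mg a (t / m) m)).abs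
    have h5 : δ ^ 2 * P.real (E m) ≤ ∫ ω, mg a (t / m) (fun t => B t ω) m ^ 2 ∂P := by
      have h6 := mul_meas_ge_le_integral_of_nonneg
        (Eventually.of_forall fun ω => sq_nonneg (mg a (t / m) (fun t => B t ω) m))
        h1.integrable_sq (δ ^ 2)
      refine le_trans ?_ h6
      gcongr
      · exact measure_ne_top _ _
      · intro ω hω
        have h7 : δ < |mg a (t / m) (fun t => B t ω) m| := hω
        show δ ^ 2 ≤ mg a (t / m) (fun t => B t ω) m ^ 2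
        rw [← sq_abs (mg a (t / m) (fun t => B t ω) m)]
        exact pow_le_pow_left₀ hδ.le h7.le 2
    have h8 : P.real (E m) ≤ 9 * a ^ 2 * t / δ ^ 2 := by
      rw [le_div_iff₀ (by positivity)]
      linarith
    rw [← ofReal_measureReal]
    exact ENNReal.ofReal_le_ofReal h8
  set F : ℕ → Set Ω := fun k => ⋂ m, ⋂ _ : k ≤ m, E m with hF
  have hFmono : Monotone F := by
    intro k l hkl ω hω
    simp only [hF, mem_iInter] at hω ⊢
    exact fun m hm => hω m (hkl.trans hm)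
  have hsub : {ω | ¬ Good a (fun t => B t ω) t δ} ⊆ ⋃ k, F k := by
    intro ω hω
    obtain ⟨k, hk⟩ := eventually_atTop.mp
      (bad_eventually ha (hB.cont ω) (hB.zero ω) (show ¬ Good a (fun t => B t ω) t δ from hω))
    refine mem_iUnion.mpr ⟨k, ?_⟩
    simp only [hF, mem_iInter]
    exact fun m hm => hk m hm
  refine (measure_mono hsub).trans ?_
  rw [hFmono.measure_iUnion]
  refine iSup_le fun k => ?_
  refine (measure_mono ?_).trans (hEm (max k (m1 + 1)) (by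
    have := le_max_right k (m1 + 1); omega))
  intro ω hω
  simp only [hF, mem_iInter] at hω
  exact hω _ (le_max_left _ _)

/-- closeness of Knight's times to the deterministic grid -/
lemma time_close {a : ℝ} (ha : 0 < a) {f : ℝ≥0 → ℝ} (hf : Continuous f) {δ : ℝ≥0} (hδ : 0 < δ)
    (haδ : a ^ 2 ≤ δ) (hgood : ∀ j : ℕ, 1 ≤ j → j ≤ ⌈1 / (δ : ℝ)⌉₊ + 2 → Good a f (j * δ) δ)
    {k : ℕ} (hk : k * a ^ 2 ≤ 1) :
    ok a f k ∧ |(kt a f k : ℝ) - k * a ^ 2| ≤ 4 * δ := by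
  have hδ' : (0:ℝ) < δ := hδ
  set x : ℝ := k * a ^ 2 / δ with hx
  have hx0 : 0 ≤ x := by positivity
  have hxle : x ≤ 1 / δ := div_le_div_of_nonneg_right hk hδ'.le
  have hxδ : x * δ = k * a ^ 2 := by rw [hx]; field_simp
  have hc1 : ⌈x⌉₊ ≤ ⌈1 / (δ : ℝ)⌉₊ := Nat.ceil_le_ceil hxle
  have hc2 : x ≤ ⌈x⌉₊ := Nat.le_ceil x
  have hc3 : (⌈x⌉₊ : ℝ) < x + 1 := Nat.ceil_lt_add_one hx0
  -- upper
  obtain ⟨A, c, T, hT⟩ := hgood (⌈x⌉₊ + 2) (by omega) (by omega)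
  push_cast at hT
  have hT' := abs_le.mp hT
  have hkc : k ≤ c := by
    have h1 : (k : ℝ) * a ^ 2 ≤ c * a ^ 2 := by nlinarith
    have h2 : (k : ℝ) ≤ c := le_of_mul_le_mul_right h1 (by positivity)
    exact_mod_cast h2
  have hok : ok a f k := fun j hj => T.ok j (by omega)
  have hup : (kt a f k : ℝ) ≤ (⌈x⌉₊ + 2) * δ := by
    have h1 : kt a f k ≤ ((⌈x⌉₊ + 2 : ℕ) : ℝ≥0) * δ := (kt_mono_ok hf ha T.ok hkc le_rfl).trans T.le
    have h2 : (kt a f k : ℝ) ≤ ((((⌈x⌉₊ + 2 : ℕ) : ℝ≥0) * δ : ℝ≥0) : ℝ) := h1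
    push_cast at h2
    exact h2
  refine ⟨hok, ?_⟩
  rw [abs_le]
  constructor
  · by_cases hx4 : x ≤ 4
    · have : (0:ℝ) ≤ kt a f k := (kt a f k).2
      nlinarith
    · push Not at hx4
      have h4 : 5 ≤ ⌈x⌉₊ := by
        have : (4:ℝ) < ⌈x⌉₊ := lt_of_lt_of_le hx4 hc2
        have : 4 < ⌈x⌉₊ := by exact_mod_cast this
        omega
      obtain ⟨A', c', T', hT1⟩ := hgood (⌈x⌉₊ - 3) (by omega) (by omega)
      have hcast : ((⌈x⌉₊ - 3 : ℕ) : ℝ) = ⌈x⌉₊ - 3 := by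
        rw [Nat.cast_sub (by omega)]; norm_num
      have hcoe : (((((⌈x⌉₊ - 3 : ℕ) : ℝ≥0) * δ : ℝ≥0)) : ℝ) = ((⌈x⌉₊ : ℝ) - 3) * δ := by
        rw [NNReal.coe_mul, NNReal.coe_natCast, hcast]
      rw [hcoe] at hT1
      have hT1' := abs_le.mp hT1
      have hkc' : c' < k := by
        have h1 : (c' : ℝ) * a ^ 2 < k * a ^ 2 := by nlinarith
        have h2 : (c' : ℝ) < k := lt_of_mul_lt_mul_right h1 (by positivity)
        exact_mod_cast h2
      have h5 : (((((⌈x⌉₊ - 3 : ℕ) : ℝ≥0) * δ : ℝ≥0)) : ℝ) < kt a f k := T'.lt_next hf ha hkc' hok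
      rw [hcoe] at h5
      nlinarith
  · nlinarith

/-- the embedded integer walk -/
lemma embed {a : ℝ} (ha : 0 < a) {f : ℝ≥0 → ℝ} (hf : Continuous f) (h0 : f 0 = 0) {K : ℕ}
    (hok : ok a f K) : ∃ Z : ℕ → ℤ, (∀ k ≤ K, f (kt a f k) = a * Z k) ∧
      ∀ k < K, |Z (k + 1) - Z k| ≤ 1 := by
  have h1 : ∀ k ≤ K, ∃ z : ℤ, f (kt a f k) = a * z := by
    intro k hk
    induction k with
    | zero => exact ⟨0, by simp [kt, h0]⟩
    | succ k ih =>
      obtain ⟨z, hz⟩ := ih (by omega)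
      obtain ⟨-, h2, -⟩ := nxt_spec hf ha (hok k (by omega))
      have h4 : kt a f (k + 1) = sInf (nxt a f (kt a f k)) := rfl
      rw [← h4] at h2
      rcases abs_cases (f (kt a f (k + 1)) - f (kt a f k)) with ⟨h5, _⟩ | ⟨h5, _⟩
      · exact ⟨z + 1, by push_cast; rw [mul_add, ← hz]; linarith⟩
      · exact ⟨z - 1, by push_cast; rw [mul_sub, ← hz]; linarith⟩
  choose! Z hZ using h1
  refine ⟨Z, hZ, fun k hk => ?_⟩
  obtain ⟨-, h2, -⟩ := nxt_spec hf ha (hok k hk)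
  have h4 : kt a f (k + 1) = sInf (nxt a f (kt a f k)) := rfl
  rw [← h4, hZ (k + 1) hk, hZ k hk.le, ← mul_sub, abs_mul, abs_of_pos ha] at h2
  have h3 : |((Z (k + 1) : ℝ) - Z k)| = 1 := by
    have := mul_left_cancel₀ ha.ne' (h2.trans (mul_one a).symm)
    exact this
  have h5 : |Z (k + 1) - Z k| = 1 := by exact_mod_cast h3
  exact h5.le

end Pool.Agent.R974.Span
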