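import Pool.Agent.R974.Span.K3
import Pool.Agent.R974.Span.Don

open MeasureTheory ProbabilityTheory Filter Topology Set
open scoped ENNReal NNReal

namespace Pool.Agent.R974.Span

variable {Ω : Type*} [MeasurableSpace Ω] {P : Measure Ω} {B : ℝ≥0 → Ω → ℝ}

lemma SpN_subset (N : ℕ) (S : ℕ → ℝ) : SpN N S ⊆ Icc 0 1 := by
  rintro u ⟨l, k, h1, h2, -, rfl⟩
  have h5 : (l : ℝ) ≤ k := by exact_mod_cast h1
  have h6 : (k : ℝ) ≤ N := by exact_mod_cast h2
  have h7 : (0:ℝ) ≤ l := by positivity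
  exact ⟨div_nonneg (by linarith) (by linarith), div_le_one_of_le₀ (by linarith) (by linarith)⟩

lemma SpN_nonempty (N : ℕ) (S : ℕ → ℝ) : (SpN N S).Nonempty :=
  ⟨0, 0, 0, le_rfl, Nat.zero_le _, rfl, by simp⟩

lemma Sp_subset (f : ℝ≥0 → ℝ) : Sp f ⊆ Icc 0 1 := by
  rintro u ⟨s, t, h1, h2, -, rfl⟩
  have h5 : (s : ℝ) ≤ t := h1
  have h6 : (t : ℝ) ≤ 1 := h2
  have h7 : (0:ℝ) ≤ s := s.2
  exact ⟨by linarith, by linarith⟩

lemma Sp_nonempty (f : ℝ≥0 → ℝ) : (Sp f).Nonempty := ⟨0, 0, 0, le_rfl, zero_le, rfl, by simp⟩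

lemma aemeas_hd (hB : GBM B P) {A : Set ℝ} (hA : A.Nonempty) (hAb : Bornology.IsBounded A) :
    AEMeasurable (fun ω => Metric.hausdorffDist A (Sp fun t => B t ω)) P := by
  refine aemeas_limit hB (T := fun N Z => Metric.hausdorffDist A (SpN N fun k => (Z k : ℝ)))
    (fun N z z' hzz => ?_) ?_
  · have : SpN N (fun k => (z k : ℝ)) = SpN N (fun k => (z' k : ℝ)) := by
      ext u
      constructor
      · rintro ⟨l, k, h1, h2, h3, h4⟩
        refine ⟨l, k, h1, h2, ?_, h4⟩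
        simp only at h3 ⊢
        rw [← hzz k h2, ← hzz l (h1.trans h2)]; exact h3
      · rintro ⟨l, k, h1, h2, h3, h4⟩
        refine ⟨l, k, h1, h2, ?_, h4⟩
        simp only at h3 ⊢
        rw [hzz k h2, hzz l (h1.trans h2)]; exact h3
    simp only [this]
  · filter_upwards [ae_ndg hB] with ω hω ε hε
    obtain ⟨δ, hδ, N0, hN0⟩ := stab (hB.cont ω) hω hε
    refine ⟨δ, hδ, N0, fun N hN hN' a ha z hz hclose => ?_⟩
    have h2 := hN0 N hN hN' a ha z hz hclose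
    have hb1 : Bornology.IsBounded (SpN N fun k => (z k : ℝ)) :=
      (Metric.isBounded_Icc 0 1).subset (SpN_subset _ _)
    have hb2 : Bornology.IsBounded (Sp fun t => B t ω) :=
      (Metric.isBounded_Icc 0 1).subset (Sp_subset _)
    have t1 := Metric.hausdorffDist_triangle (u := Sp fun t => B t ω)
      (Metric.hausdorffEDist_ne_top_of_nonempty_of_bounded hA
        (SpN_nonempty N fun k => (z k : ℝ)) hAb hb1)
    have t2 := Metric.hausdorffDist_triangle (u := SpN N fun k => (z k : ℝ))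
      (Metric.hausdorffEDist_ne_top_of_nonempty_of_bounded hA
        (Sp_nonempty fun t => B t ω) hAb hb2)
    rw [Metric.hausdorffDist_comm (s := Sp fun t => B t ω)] at t2
    rw [Real.dist_eq, abs_le]
    constructor <;> linarith

/-- extension of a finite sequence -/
def extZ (n : ℕ) (v : Fin (4 ^ n + 1) → ℤ) (k : ℕ) : ℤ := if hk : k < 4 ^ n + 1 then v ⟨k, hk⟩ else 0

/-- failure of stability at level `j` -/
def Rs (B : ℝ≥0 → Ω → ℝ) (ε : ℝ) (j : ℕ) : Set Ω :=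
  ⋃ n : ℕ, ⋃ _ : j ≤ n, ⋃ v : Fin (4 ^ n + 1) → ℤ,
    ({_ω | ∀ k < 4 ^ n, |extZ n v (k + 1) - extZ n v k| ≤ 1} ∩
      ⋂ k : ℕ, ⋂ _ : k ≤ 4 ^ n,
        {ω | |(1 / 2 : ℝ) ^ n * extZ n v k - B ((k : ℝ≥0) / ((4 ^ n : ℕ) : ℝ≥0)) ω| ≤ 1 / ((j : ℝ) + 1)}) ∩
      {ω | ε < Metric.hausdorffDist (SpN (4 ^ n) fun k => (extZ n v k : ℝ)) (Sp fun t => B t ω)}

lemma nullMeas_Rs (hB : GBM B P) (ε : ℝ) (j : ℕ) : NullMeasurableSet (Rs B ε j) P := by
  refine NullMeasurableSet.iUnion fun n => NullMeasurableSet.iUnion fun _ =>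
    NullMeasurableSet.iUnion fun v => NullMeasurableSet.inter ?_ ?_
  · refine ((MeasurableSet.const _).inter (MeasurableSet.iInter fun k =>
      MeasurableSet.iInter fun _ => ?_)).nullMeasurableSet
    exact measurableSet_le ((measurable_const.sub (hB.meas _)).abs) measurable_const
  · exact nullMeasurableSet_lt aemeasurable_const (aemeas_hd hB (SpN_nonempty _ _)
      ((Metric.isBounded_Icc 0 1).subset (SpN_subset _ _)))

lemma antitone_Rs (ε : ℝ) : Antitone (Rs B ε) := by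
  intro i j hij ω hω
  simp only [Rs, mem_iUnion] at hω ⊢
  obtain ⟨n, hn, v, ⟨h1, h2⟩, h3⟩ := hω
  refine ⟨n, hij.trans hn, v, ⟨h1, ?_⟩, h3⟩
  simp only [mem_iInter, Set.mem_ofPred_eq] at h2 ⊢
  intro k hk
  refine (h2 k hk).trans ?_
  have : (i : ℝ) ≤ j := by exact_mod_cast hij
  exact one_div_le_one_div_of_le (by positivity) (by linarith)

lemma Rs_tendsto (hB : GBM B P) {ε : ℝ} (hε : 0 < ε) :
    Tendsto (fun j => P (Rs B ε j)) atTop (𝓝 0) := by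
  have := hB.prob
  have h1 := tendsto_measure_iInter_atTop (μ := P) (fun j => nullMeas_Rs hB ε j)
    (antitone_Rs ε) ⟨0, measure_ne_top _ _⟩
  have h2 : P (⋂ j, Rs B ε j) = 0 := by
    have h3 : ∀ᵐ ω ∂P, ω ∉ ⋂ j, Rs B ε j := by
      filter_upwards [ae_ndg hB] with ω hω hmem
      obtain ⟨δ, hδ, N0, hN0⟩ := stab (hB.cont ω) hω hε
      obtain ⟨j1, hj1⟩ := exists_nat_gt (1 / δ)
      have hmem' := mem_iInter.mp hmem (max N0 j1)
      simp only [Rs, mem_iUnion] at hmem'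
      obtain ⟨n, hn, v, ⟨g1, g2⟩, g3⟩ := hmem'
      simp only [mem_iInter, Set.mem_ofPred_eq] at g2
      have g1' : ∀ k < 4 ^ n, |extZ n v (k + 1) - extZ n v k| ≤ 1 := g1
      have g3' : ε < Metric.hausdorffDist (SpN (4 ^ n) fun k => (extZ n v k : ℝ))
        (Sp fun t => B t ω) := g3
      have hn4 : n < 4 ^ n := Nat.lt_pow_self (by norm_num)
      have hle := hN0 (4 ^ n) (by have := le_max_left N0 j1; omega) (by positivity)
        ((1 / 2) ^ n) (by positivity) (extZ n v) g1' (fun k hk => by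
          refine (g2 k hk).trans ?_
          have h4 : (j1 : ℝ) ≤ ((max N0 j1 : ℕ) : ℝ) := by exact_mod_cast le_max_right _ _
          rw [div_le_comm₀ (by positivity) hδ]
          linarith)
      linarith
    have h4 : (⋂ j, Rs B ε j) = {ω | ¬ (ω ∉ ⋂ j, Rs B ε j)} := by ext ω; simp
    rw [h4]
    exact h3
  rw [h2] at h1
  exact h1

/-- large oscillations at small distance -/
def Os (B : ℝ≥0 → Ω → ℝ) (γ : ℝ) (i : ℕ) : Set Ω :=
  ⋃ q : ℕ, ⋃ r : ℕ, ⋃ _ : dq q ≤ 3 ∧ dq r ≤ 3 ∧ |(dq q : ℝ) - dq r| < 1 / ((i : ℝ) + 1),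
    {ω | γ < |B (dq q) ω - B (dq r) ω|}

lemma Os_tendsto (hB : GBM B P) {γ : ℝ} (hγ : 0 < γ) :
    Tendsto (fun i => P (Os B γ i)) atTop (𝓝 0) := by
  have := hB.prob
  have hm : ∀ i, MeasurableSet (Os B γ i) := fun i =>
    MeasurableSet.iUnion fun q => MeasurableSet.iUnion fun r => MeasurableSet.iUnion fun _ =>
      measurableSet_lt measurable_const ((hB.meas _).sub (hB.meas _)).abs
  have hanti : Antitone (Os B γ) := by
    intro i j hij ω hω
    simp only [Os, mem_iUnion] at hω ⊢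
    obtain ⟨q, r, ⟨h1, h2, h3⟩, h4⟩ := hω
    refine ⟨q, r, ⟨h1, h2, h3.trans_le ?_⟩, h4⟩
    have : (i : ℝ) ≤ j := by exact_mod_cast hij
    exact one_div_le_one_div_of_le (by positivity) (by linarith)
  have h1 := tendsto_measure_iInter_atTop (μ := P) (fun j => (hm j).nullMeasurableSet)
    hanti ⟨0, measure_ne_top _ _⟩
  have h2 : (⋂ i, Os B γ i) = ∅ := by
    rw [eq_empty_iff_forall_notMem]
    intro ω hω
    have hu : UniformContinuousOn (fun t => B t ω) (Icc 0 3) :=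
      isCompact_Icc.uniformContinuousOn_of_continuous (hB.cont ω).continuousOn
    obtain ⟨δ, hδ, hu2⟩ := Metric.uniformContinuousOn_iff.mp hu γ hγ
    obtain ⟨i, hi⟩ := exists_nat_gt (1 / δ)
    have hmem := mem_iInter.mp hω i
    simp only [Os, mem_iUnion] at hmem
    obtain ⟨q, r, ⟨h1, h2, h3⟩, h4⟩ := hmem
    have h5 := hu2 (dq q) ⟨zero_le, h1⟩ (dq r) ⟨zero_le, h2⟩ (by
      rw [NNReal.dist_eq]
      refine h3.trans_le ?_
      rw [div_le_comm₀ (by positivity) hδ]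
      linarith)
    rw [Real.dist_eq] at h5
    have h4' : γ < |B (dq q) ω - B (dq r) ω| := h4
    linarith
  rw [h2, measure_empty] at h1
  exact h1

lemma Os_spec (hB : GBM B P) {γ : ℝ} {i : ℕ} {ω : Ω} (hω : ω ∉ Os B γ i) {s t : ℝ≥0}
    (hs : s < 3) (ht : t < 3) (hst : |(s : ℝ) - t| < 1 / ((i : ℝ) + 1)) :
    |B s ω - B t ω| ≤ γ := by
  by_contra hcon
  push Not at hcon
  set U : Set (ℝ≥0 × ℝ≥0) := {p | p.1 < 3} ∩ {p | p.2 < 3} ∩
    {p | |(p.1 : ℝ) - p.2| < 1 / ((i : ℝ) + 1)} ∩ {p | γ < |B p.1 ω - B p.2 ω|} with hU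
  have hc := hB.cont ω
  have hUo : IsOpen U := by
    refine ((isOpen_lt continuous_fst continuous_const).inter
      (isOpen_lt continuous_snd continuous_const)).inter
      (isOpen_lt (by fun_prop) continuous_const) |>.inter (isOpen_lt continuous_const ?_)
    exact ((hc.comp continuous_fst).sub (hc.comp continuous_snd)).abs
  have hd : DenseRange (Prod.map dq dq) := dense_dq.prodMap dense_dq
  obtain ⟨⟨q, r⟩, hqr⟩ := hd.exists_mem_open hUo ⟨(s, t), ⟨⟨⟨hs, ht⟩, hst⟩, hcon⟩⟩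
  obtain ⟨⟨⟨g1, g2⟩, g3⟩, g4⟩ := hqr
  apply hω
  simp only [Os, mem_iUnion]
  exact ⟨q, r, ⟨le_of_lt g1, le_of_lt g2, g3⟩, g4⟩

/-- the deterministic part of the final estimate -/
lemma final_det (hB : GBM B P) {ε : ℝ} {ω : Ω} {i j n : ℕ} (hjn : j ≤ n)
    {δ : ℝ≥0} (hδ : 0 < δ) (hδi : 4 * (δ : ℝ) < 1 / ((i : ℝ) + 1)) (hδ1 : 4 * (δ : ℝ) < 1)
    (hn : ((1 / 2 : ℝ) ^ n) ^ 2 ≤ δ)
    (h1 : ω ∉ Rs B ε j) (h2 : ω ∉ Os B (1 / ((j : ℝ) + 1)) i)
    (h3 : ∀ l : ℕ, 1 ≤ l → l ≤ ⌈1 / (δ : ℝ)⌉₊ + 2 →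
      Good ((1 / 2) ^ n) (fun t => B t ω) (l * δ) δ) :
    Metric.hausdorffDist (SpN (4 ^ n) fun k => 2 ^ n * B (kt ((1 / 2) ^ n) (fun t => B t ω) k) ω)
      (Sp fun t => B t ω) ≤ ε := by
  set a : ℝ := (1 / 2) ^ n with ha
  have hapos : 0 < a := by positivity
  have hf := hB.cont ω
  have h0 := hB.zero ω
  have ha2 : a ^ 2 * (4 ^ n : ℕ) = 1 := by
    rw [ha]; push_cast
    rw [← pow_mul, mul_comm n 2, pow_mul, ← mul_pow]; norm_num
  have hclose : ∀ k ≤ 4 ^ n, ok a (fun t => B t ω) k ∧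
      |(kt a (fun t => B t ω) k : ℝ) - k * a ^ 2| ≤ 4 * δ := by
    intro k hk
    refine time_close hapos hf hδ hn h3 ?_
    rw [← ha2, mul_comm]
    have : (k : ℝ) ≤ (4 ^ n : ℕ) := by exact_mod_cast hk
    gcongr
  obtain ⟨Z, hZ1, hZ2⟩ := embed hapos hf h0 (hclose (4 ^ n) le_rfl).1
  have hSp : (SpN (4 ^ n) fun k => 2 ^ n * B (kt a (fun t => B t ω) k) ω) =
      SpN (4 ^ n) fun k => (Z k : ℝ) := by
    have e : ∀ k ≤ 4 ^ n, 2 ^ n * B (kt a (fun t => B t ω) k) ω = (Z k : ℝ) := by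
      intro k hk
      rw [hZ1 k hk, ← mul_assoc, ha, ← mul_pow]
      norm_num
    ext u
    constructor
    · rintro ⟨l, k, g1, g2, g3, g4⟩
      refine ⟨l, k, g1, g2, ?_, g4⟩
      simp only at g3 ⊢
      rw [← e k g2, ← e l (g1.trans g2)]; exact g3
    · rintro ⟨l, k, g1, g2, g3, g4⟩
      refine ⟨l, k, g1, g2, ?_, g4⟩
      simp only at g3 ⊢
      rw [e k g2, e l (g1.trans g2)]; exact g3
  rw [hSp]
  -- replace `Z` by the extension of a finite sequence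
  set v : Fin (4 ^ n + 1) → ℤ := fun k => Z k with hv
  have hext : ∀ k ≤ 4 ^ n, extZ n v k = Z k := by
    intro k hk
    unfold extZ
    rw [dif_pos (by omega)]
  have hSp2 : (SpN (4 ^ n) fun k => (Z k : ℝ)) = SpN (4 ^ n) fun k => (extZ n v k : ℝ) := by
    ext u
    constructor
    · rintro ⟨l, k, g1, g2, g3, g4⟩
      refine ⟨l, k, g1, g2, ?_, g4⟩
      simp only at g3 ⊢
      rw [hext k g2, hext l (g1.trans g2)]; exact g3
    · rintro ⟨l, k, g1, g2, g3, g4⟩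
      refine ⟨l, k, g1, g2, ?_, g4⟩
      simp only at g3 ⊢
      rw [← hext k g2, ← hext l (g1.trans g2)]; exact g3
  rw [hSp2]
  by_contra hcon
  push Not at hcon
  apply h1
  simp only [Rs, mem_iUnion]
  refine ⟨n, hjn, v, ⟨?_, ?_⟩, hcon⟩
  · intro k hk
    rw [hext _ hk, hext _ hk.le]
    exact hZ2 k hk
  · simp only [mem_iInter, Set.mem_ofPred_eq]
    intro k hk
    rw [hext k hk, ← ha, ← hZ1 k hk]
    have hk1 := (hclose k hk).2
    have hkr : (((k : ℝ≥0) / ((4 ^ n : ℕ) : ℝ≥0) : ℝ≥0) : ℝ) = k * a ^ 2 := by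
      rw [NNReal.coe_div, NNReal.coe_natCast, NNReal.coe_natCast, div_eq_iff (by positivity),
        mul_assoc, ha2, mul_one]
    have hk2 : (k : ℝ) * a ^ 2 ≤ 1 := by
      rw [← ha2, mul_comm]
      have : (k : ℝ) ≤ (4 ^ n : ℕ) := by exact_mod_cast hk
      gcongr
    have hk3 := abs_le.mp hk1
    refine Os_spec hB h2 ?_ ?_ ?_
    · rw [← NNReal.coe_lt_coe]
      push_cast
      linarith
    · rw [← NNReal.coe_lt_coe, hkr]
      push_cast
      linarith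
    · rw [hkr]
      exact hk1.trans_lt hδi

theorem knight_span (hB : GBM B P) {ε : ℝ} (hε : 0 < ε) :
    Tendsto (fun n : ℕ => P {ω | ε < Metric.hausdorffDist
      (SpN (4 ^ n) fun k => 2 ^ n * B (kt ((1 / 2) ^ n) (fun t => B t ω) k) ω)
      (Sp fun t => B t ω)}) atTop (𝓝 0) := by
  rw [ENNReal.tendsto_atTop_zero]
  intro η hη
  have hη3 : 0 < η / 3 := ENNReal.div_pos hη.ne' (by norm_num)
  obtain ⟨j, hj⟩ := (ENNReal.tendsto_atTop_zero.mp (Rs_tendsto hB hε)) (η / 3) hη3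
  obtain ⟨i, hi⟩ := (ENNReal.tendsto_atTop_zero.mp
    (Os_tendsto hB (γ := 1 / ((j : ℝ) + 1)) (by positivity))) (η / 3) hη3
  set δ : ℝ≥0 := 1 / (8 * ((i : ℝ≥0) + 1)) with hδdef
  have hδ : 0 < δ := by positivity
  have hδ' : (0:ℝ) < δ := hδ
  have hδr : (δ : ℝ) = 1 / (8 * ((i : ℝ) + 1)) := by rw [hδdef]; push_cast; ring
  have hδ8 : 8 * (δ : ℝ) = 1 / ((i : ℝ) + 1) := by rw [hδr]; field_simp
  have hi1 : 1 / ((i : ℝ) + 1) ≤ 1 := by
    rw [div_le_one (by positivity)]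
    have : (0:ℝ) ≤ i := by positivity
    linarith
  set J := ⌈1 / (δ : ℝ)⌉₊ + 2 with hJ
  have hpow : Tendsto (fun n : ℕ => ((1 / 2 : ℝ) ^ n) ^ 2) atTop (𝓝 0) := by
    have h1 : Tendsto (fun n : ℕ => (1 / 4 : ℝ) ^ n) atTop (𝓝 0) :=
      tendsto_pow_atTop_nhds_zero_of_lt_one (by norm_num) (by norm_num)
    refine h1.congr fun n => ?_
    rw [← pow_mul, mul_comm n 2, pow_mul]; norm_num
  have hsum : Tendsto (fun n : ℕ => ∑ l ∈ Finset.Icc 1 J,
      ENNReal.ofReal (9 * ((1 / 2 : ℝ) ^ n) ^ 2 * (((l : ℝ≥0) * δ : ℝ≥0) : ℝ) / (δ : ℝ) ^ 2)) atTop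
      (𝓝 0) := by
    have h1 : (0 : ℝ≥0∞) = ∑ l ∈ Finset.Icc 1 J, ENNReal.ofReal
        (9 * 0 * (((l : ℝ≥0) * δ : ℝ≥0) : ℝ) / (δ : ℝ) ^ 2) := by simp
    rw [h1]
    refine tendsto_finsetSum _ fun l _ => ?_
    exact ENNReal.tendsto_ofReal (((hpow.const_mul 9).mul_const _).div_const _)
  obtain ⟨n1, hn1⟩ := (ENNReal.tendsto_atTop_zero.mp hsum) (η / 3) hη3
  obtain ⟨n2, hn2⟩ := eventually_atTop.mp (hpow.eventually (Iio_mem_nhds hδ'))
  refine ⟨max j (max n1 n2), fun n hn => ?_⟩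
  have hjn : j ≤ n := (le_max_left _ _).trans hn
  have hn1' : n1 ≤ n := (le_max_left _ _).trans ((le_max_right _ _).trans hn)
  have hn2' : n2 ≤ n := (le_max_right _ _).trans ((le_max_right _ _).trans hn)
  have hnδ : ((1 / 2 : ℝ) ^ n) ^ 2 < δ := hn2 n hn2'
  have hsub : {ω | ε < Metric.hausdorffDist
      (SpN (4 ^ n) fun k => 2 ^ n * B (kt ((1 / 2) ^ n) (fun t => B t ω) k) ω)
      (Sp fun t => B t ω)} ⊆ Rs B ε j ∪ Os B (1 / ((j : ℝ) + 1)) i ∪
        ⋃ l ∈ Finset.Icc 1 J, {ω | ¬ Good ((1 / 2) ^ n) (fun t => B t ω) (l * δ) δ} := by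
    intro ω hω
    by_contra hcon
    simp only [mem_union, not_or] at hcon
    obtain ⟨⟨c1, c2⟩, c3⟩ := hcon
    have hω' : ε < Metric.hausdorffDist
      (SpN (4 ^ n) fun k => 2 ^ n * B (kt ((1 / 2) ^ n) (fun t => B t ω) k) ω)
      (Sp fun t => B t ω) := hω
    refine absurd (final_det hB (ε := ε) (i := i) (j := j) hjn hδ (by linarith) (by linarith)
      hnδ.le c1 c2 ?_) (not_le.mpr hω')
    intro l hl1 hl2
    by_contra hbad
    exact c3 (mem_iUnion₂.mpr ⟨l, Finset.mem_Icc.mpr ⟨hl1, hl2⟩, hbad⟩)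
  refine (measure_mono hsub).trans ?_
  calc P (Rs B ε j ∪ Os B (1 / ((j : ℝ) + 1)) i ∪
        ⋃ l ∈ Finset.Icc 1 J, {ω | ¬ Good ((1 / 2) ^ n) (fun t => B t ω) (l * δ) δ})
      ≤ P (Rs B ε j) + P (Os B (1 / ((j : ℝ) + 1)) i) +
        P (⋃ l ∈ Finset.Icc 1 J, {ω | ¬ Good ((1 / 2) ^ n) (fun t => B t ω) (l * δ) δ}) :=
        (measure_union_le _ _).trans (by gcongr; exact measure_union_le _ _)
    _ ≤ η / 3 + η / 3 + η / 3 := by
        gcongr
        · exact hj j le_rfl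
        · exact hi i le_rfl
        · refine (measure_biUnion_finset_le _ _).trans (le_trans ?_ (hn1 n hn1'))
          refine Finset.sum_le_sum fun l hl => ?_
          have hl1 : 1 ≤ l := (Finset.mem_Icc.mp hl).1
          refine prob_bad hB (by positivity) (t := (l : ℝ≥0) * δ) ?_ hδ'
          have : (0 : ℝ≥0) < l := by exact_mod_cast hl1
          positivity
    _ = η := ENNReal.add_thirds η

end Pool.Agent.R974.Span
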