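import Pool.Agent.R974.Span.K4

open MeasureTheory ProbabilityTheory Filter Topology Set
open scoped ENNReal NNReal

namespace Pool.Agent.R974.Span

variable {Ω : Type*} [MeasurableSpace Ω] {P : Measure Ω} {B : ℝ≥0 → Ω → ℝ}

lemma ae_ok (hB : GBM B P) {a : ℝ} (ha : 0 < a) (K : ℕ) : ∀ᵐ ω ∂P, ok a (fun t => B t ω) K := by
  rw [ae_iff]
  have h1 : ∀ᶠ m : ℕ in atTop, P {ω | ¬ ok a (fun t => B t ω) K} ≤
      ENNReal.ofReal (36 * a ^ 2 * (1 / (m : ℝ))) := by
    obtain ⟨m0, hm0⟩ := exists_nat_gt (2 * ((K : ℝ) + 1) * a ^ 2)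
    filter_upwards [eventually_ge_atTop (m0 + 1)] with m hm
    have hmpos : (0:ℝ) < m := by
      have : 0 < m := by omega
      exact_mod_cast this
    have hm' : (m0 : ℝ) + 1 ≤ m := by exact_mod_cast hm
    have h2 := prob_bad hB ha (t := (m : ℝ≥0)) (by
      have : 0 < m := by omega
      exact_mod_cast this) (δ := (m : ℝ) / 2) (by positivity)
    refine le_trans (measure_mono ?_) (h2.trans (le_of_eq ?_))
    · intro ω hω hgood
      obtain ⟨A, c, T, hT⟩ := hgood
      apply hω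
      have hT' := abs_le.mp hT
      rw [NNReal.coe_natCast] at hT'
      have h3 : (K : ℝ) * a ^ 2 ≤ c * a ^ 2 := by nlinarith [sq_nonneg a]
      have h4 : (K : ℝ) ≤ c := le_of_mul_le_mul_right h3 (by positivity)
      have h5 : K ≤ c := by exact_mod_cast h4
      exact fun j hj => T.ok j (by omega)
    · congr 1
      rw [NNReal.coe_natCast]
      field_simp
      ring
  have h2 : Tendsto (fun m : ℕ => ENNReal.ofReal (36 * a ^ 2 * (1 / (m : ℝ)))) atTop (𝓝 0) := by
    have h3 := ENNReal.tendsto_ofReal ((tendsto_one_div_atTop_nhds_zero_nat (𝕜 := ℝ)).const_mul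
      (36 * a ^ 2))
    rwa [mul_zero, ENNReal.ofReal_zero] at h3
  exact le_antisymm (ge_of_tendsto h2 h1) zero_le

end Pool.Agent.R974.Span
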