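import Pool.Agent.R974.Span.BM

open MeasureTheory ProbabilityTheory Filter Topology Set
open scoped ENNReal NNReal

namespace Pool.Agent.R974.Span

variable {Ω : Type*} [MeasurableSpace Ω] {P : Measure Ω}

/-- The steps of a simple symmetric random walk: independent, `±1` with probability `1/2`. -/
structure Steps (ξ : ℕ → Ω → ℤ) (P : Measure Ω) : Prop where
  meas : ∀ i, Measurable (ξ i)
  indep : iIndepFun ξ P
  pos : ∀ i, P {ω | ξ i ω = 1} = 1 / 2
  neg : ∀ i, P {ω | ξ i ω = -1} = 1 / 2

/-- The walk `RW_k = ξ_0 + ⋯ + ξ_{k-1}`. -/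
def walk (ξ : ℕ → Ω → ℤ) (k : ℕ) (ω : Ω) : ℤ := ∑ i ∈ Finset.range k, ξ i ω

variable {ξ : ℕ → Ω → ℤ}

lemma Steps.shift (h : Steps ξ P) (k : ℕ) : Steps (fun i => ξ (k + i)) P where
  meas i := h.meas _
  indep := h.indep.precomp (add_right_injective k)
  pos i := h.pos _
  neg i := h.neg _

lemma Steps.prob (h : Steps ξ P) : IsProbabilityMeasure P := h.indep.isProbabilityMeasure

lemma Steps.map_eq (h : Steps ξ P) (i : ℕ) :
    P.map (ξ i) = (1 / 2 : ℝ≥0∞) • Measure.dirac (1 : ℤ) + (1 / 2 : ℝ≥0∞) • Measure.dirac (-1 : ℤ) := by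
  have := h.prob
  have hm := h.meas i
  have hmeas : ∀ z : ℤ, MeasurableSet {ω | ξ i ω = z} := fun z => hm (measurableSet_singleton z)
  apply Measure.ext_of_singleton
  intro z
  rw [Measure.map_apply hm (measurableSet_singleton z)]
  have hset : ξ i ⁻¹' {z} = {ω | ξ i ω = z} := rfl
  rw [hset, Measure.add_apply, Measure.smul_apply, Measure.smul_apply,
    Measure.dirac_apply' _ (measurableSet_singleton z),
    Measure.dirac_apply' _ (measurableSet_singleton z)]
  have hunion : P ({ω | ξ i ω = 1} ∪ {ω | ξ i ω = -1}) = 1 := by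
    rw [measure_union _ (hmeas _), h.pos, h.neg, ENNReal.add_halves]
    rw [Set.disjoint_left]
    intro ω h1 h2
    simp only [Set.mem_ofPred_eq] at h1 h2
    omega
  by_cases h1 : z = 1
  · subst h1
    rw [h.pos]
    simp
  by_cases h2 : z = -1
  · subst h2
    rw [h.neg]
    simp
  · have h3 : P {ω | ξ i ω = z} = 0 := by
      have h4 : {ω | ξ i ω = z} ⊆ ({ω | ξ i ω = 1} ∪ {ω | ξ i ω = -1})ᶜ := by
        intro ω hω
        simp only [Set.mem_ofPred_eq] at hω
        simp only [mem_compl_iff, mem_union, Set.mem_ofPred_eq, not_or]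
        omega
      refine measure_mono_null h4 ?_
      rw [prob_compl_eq_zero_iff ((hmeas _).union (hmeas _))]
      exact hunion
    rw [h3]
    have h5 : (1:ℤ) ∉ ({z} : Set ℤ) := by simpa using fun h => h1 h.symm
    have h6 : (-1:ℤ) ∉ ({z} : Set ℤ) := by simpa using fun h => h2 h.symm
    simp [indicator_of_notMem h5, indicator_of_notMem h6]

/-- real-valued step -/
def X (ξ : ℕ → Ω → ℤ) (i : ℕ) (ω : Ω) : ℝ := (ξ i ω : ℝ)

lemma Steps.measX (h : Steps ξ P) (i : ℕ) : Measurable (X ξ i) :=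
  (measurable_from_top (f := fun z : ℤ => (z : ℝ))).comp (h.meas i)

lemma Steps.indepX (h : Steps ξ P) : iIndepFun (X ξ) P :=
  h.indep.comp (fun _ (z : ℤ) => (z : ℝ)) fun _ => measurable_from_top

lemma Steps.identX (h : Steps ξ P) (i : ℕ) : IdentDistrib (X ξ i) (X ξ 0) P P := by
  have h1 : IdentDistrib (ξ i) (ξ 0) P P :=
    ⟨(h.meas i).aemeasurable, (h.meas 0).aemeasurable, by rw [h.map_eq i, h.map_eq 0]⟩
  exact h1.comp (u := fun z : ℤ => (z : ℝ)) measurable_from_top

lemma Steps.ae_step (h : Steps ξ P) : ∀ᵐ ω ∂P, ∀ i, ξ i ω = 1 ∨ ξ i ω = -1 := by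
  rw [ae_all_iff]
  intro i
  have h1 : ∀ᵐ z ∂(P.map (ξ i)), z = 1 ∨ z = -1 := by
    rw [h.map_eq i, ae_add_measure_iff]
    constructor
    · apply Measure.ae_smul_measure
      rw [ae_dirac_iff (MeasurableSet.of_discrete)]
      simp
    · apply Measure.ae_smul_measure
      rw [ae_dirac_iff (MeasurableSet.of_discrete)]
      simp
  exact ae_of_ae_map (h.meas i).aemeasurable h1

lemma Steps.integral_comp (h : Steps ξ P) (i : ℕ) (g : ℤ → ℝ) :
    ∫ ω, g (ξ i ω) ∂P = (g 1 + g (-1)) / 2 := by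
  have h1 : ∫ ω, g (ξ i ω) ∂P = ∫ z, g z ∂(P.map (ξ i)) := by
    rw [integral_map (h.meas i).aemeasurable]
    exact (measurable_from_top (f := g)).aestronglyMeasurable
  rw [h1, h.map_eq i, integral_add_measure, integral_smul_measure, integral_smul_measure,
    integral_dirac, integral_dirac]
  · simp
    ring
  · exact (integrable_dirac (by simp)).smul_measure (by simp)
  · exact (integrable_dirac (by simp)).smul_measure (by simp)

lemma Steps.mean (h : Steps ξ P) (i : ℕ) : P[X ξ i] = 0 := by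
  have := h.integral_comp i (fun z => (z : ℝ))
  simpa [X] using this

lemma Steps.second (h : Steps ξ P) (i : ℕ) : P[X ξ i ^ 2] = 1 := by
  have := h.integral_comp i (fun z => (z : ℝ) ^ 2)
  simpa [X] using this

lemma Steps.ae_abs (h : Steps ξ P) (i : ℕ) : ∀ᵐ ω ∂P, |X ξ i ω| = 1 := by
  filter_upwards [h.ae_step] with ω hω
  rcases hω i with h1 | h1 <;> simp [X, h1]

lemma Steps.memLp (h : Steps ξ P) (i : ℕ) (p : ℝ≥0∞) : MemLp (X ξ i) p P := by
  have := h.prob
  refine MemLp.of_bound (h.measX i).aestronglyMeasurable 1 ?_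
  filter_upwards [h.ae_abs i] with ω hω
  rw [Real.norm_eq_abs, hω]

lemma Steps.var (h : Steps ξ P) (i : ℕ) : Var[X ξ i; P] = 1 := by
  have := h.prob
  rw [variance_eq_sub (h.memLp i 2), h.mean i, h.second i]
  norm_num

lemma Steps.subG (h : Steps ξ P) (i : ℕ) : HasSubgaussianMGF (X ξ i) 1 P := by
  have := h.prob
  have h1 := hasSubgaussianMGF_of_mem_Icc_of_integral_eq_zero (μ := P) (a := -1) (b := 1)
    (h.measX i).aemeasurable (by
      filter_upwards [h.ae_abs i] with ω hω
      exact abs_le.mp hω.le) (h.mean i)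
  have h2 : ((‖(1:ℝ) - (-1)‖₊ / 2) ^ 2 : ℝ≥0) = 1 := by
    have : ‖(1:ℝ) - (-1)‖₊ = 2 := by
      rw [← NNReal.coe_inj]; norm_num
    rw [this]; norm_num
  rwa [h2] at h1

/-- partial sums -/
def S (ξ : ℕ → Ω → ℤ) (k : ℕ) (ω : Ω) : ℝ := ∑ i ∈ Finset.range k, X ξ i ω

lemma S_eq (k : ℕ) (ω : Ω) : S ξ k ω = (walk ξ k ω : ℝ) := by
  unfold S walk X
  push_cast
  rfl

lemma Steps.measS (h : Steps ξ P) (k : ℕ) : Measurable (S ξ k) :=
  Finset.measurable_fun_sum _ fun i _ => h.measX i

lemma Steps.neg' (h : Steps ξ P) : Steps (fun i ω => -ξ i ω) P where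
  meas i := (h.meas i).neg
  indep := h.indep.comp (fun _ (z : ℤ) => -z) fun _ => measurable_from_top
  pos i := by
    have : {ω | -ξ i ω = 1} = {ω | ξ i ω = -1} := by
      ext ω; simp only [Set.mem_ofPred_eq]; omega
    rw [this]; exact h.neg i
  neg i := by
    have : {ω | -ξ i ω = -1} = {ω | ξ i ω = 1} := by
      ext ω; simp only [Set.mem_ofPred_eq]; omega
    rw [this]; exact h.pos i

/-- Hoeffding -/
lemma Steps.hoeff (h : Steps ξ P) (n : ℕ) {a : ℝ} (ha : 0 ≤ a) :
    P.real {ω | a ≤ |S ξ n ω|} ≤ 2 * Real.exp (-a ^ 2 / (2 * n)) := by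
  have := h.prob
  have h1 := HasSubgaussianMGF.measure_sum_range_ge_le_of_iIndepFun h.indepX (n := n) (c := 1)
    (fun i _ => h.subG i) ha
  have h2 := HasSubgaussianMGF.measure_sum_range_ge_le_of_iIndepFun h.neg'.indepX (n := n) (c := 1)
    (fun i _ => h.neg'.subG i) ha
  simp only [NNReal.coe_one, mul_one] at h1 h2
  have h3 : {ω | a ≤ |S ξ n ω|} ⊆ {ω | a ≤ ∑ i ∈ Finset.range n, X ξ i ω} ∪
      {ω | a ≤ ∑ i ∈ Finset.range n, X (fun i ω => -ξ i ω) i ω} := by
    intro ω hω
    have h4 : ∑ i ∈ Finset.range n, X (fun i ω => -ξ i ω) i ω = -S ξ n ω := by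
      unfold S X
      push_cast
      rw [Finset.sum_neg_distrib]
    have hω' : a ≤ |S ξ n ω| := hω
    rcases le_abs.mp hω' with h5 | h5
    · exact Or.inl h5
    · right
      show a ≤ ∑ i ∈ Finset.range n, X (fun i ω => -ξ i ω) i ω
      rw [h4]; exact h5
  calc P.real {ω | a ≤ |S ξ n ω|} ≤ P.real ({ω | a ≤ ∑ i ∈ Finset.range n, X ξ i ω} ∪
      {ω | a ≤ ∑ i ∈ Finset.range n, X (fun i ω => -ξ i ω) i ω}) := measureReal_mono h3
    _ ≤ _ := measureReal_union_le _ _
    _ ≤ 2 * Real.exp (-a ^ 2 / (2 * n)) := by linarith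

/-- Ottaviani + Hoeffding: a maximal inequality -/
lemma Steps.maximal (h : Steps ξ P) (n : ℕ) {a : ℝ} (ha : 0 < a) :
    P.real {ω | ∃ k ≤ n, a ≤ |S ξ k ω|} ≤ 4 * Real.exp (-a ^ 2 / (8 * n)) := by
  have := h.prob
  by_cases hbig : a ^ 2 < 8 * n
  · have h1 : (1:ℝ) ≤ 4 * Real.exp (-a ^ 2 / (8 * n)) := by
      have hn : (0:ℝ) < 8 * n := lt_trans (by positivity) hbig
      have h2 : -1 ≤ -a ^ 2 / (8 * n) := by
        rw [le_div_iff₀ hn]; linarith
      have h3 := Real.exp_le_exp.mpr h2
      have h4 := Real.exp_neg_one_gt_d9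
      linarith
    exact (measureReal_mono (subset_univ _)).trans (by simpa using h1)
  push Not at hbig
  -- first passage events
  set A : ℕ → Set Ω := fun k => {ω | a ≤ |S ξ k ω| ∧ ∀ i < k, |S ξ i ω| < a} with hA
  have hAm : ∀ k, MeasurableSet (A k) := by
    intro k
    have : A k = {ω | a ≤ |S ξ k ω|} ∩ ⋂ i, ⋂ _ : i < k, {ω | |S ξ i ω| < a} := by
      ext ω; simp [hA]
    rw [this]
    refine (measurableSet_le measurable_const (h.measS k).abs).inter
      (MeasurableSet.iInter fun i => MeasurableSet.iInter fun _ =>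
        measurableSet_lt (h.measS i).abs measurable_const)
  have hdisj : Set.PairwiseDisjoint (↑(Finset.range (n + 1)) : Set ℕ) A := by
    intro i _ j _ hij
    rw [Function.onFun, Set.disjoint_left]
    rintro ω ⟨h1, h2⟩ ⟨h3, h4⟩
    rcases lt_or_gt_of_ne hij with hlt | hlt
    · exact absurd (h4 i hlt) (not_lt.mpr h1)
    · exact absurd (h2 j hlt) (not_lt.mpr h3)
  have hcover : {ω | ∃ k ≤ n, a ≤ |S ξ k ω|} ⊆ ⋃ k ∈ Finset.range (n + 1), A k := by
    rintro ω ⟨k, hk, hak⟩
    classical
    have hex : ∃ k, a ≤ |S ξ k ω| := ⟨k, hak⟩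
    refine mem_iUnion₂.mpr ⟨Nat.find hex, ?_, Nat.find_spec hex, fun i hi => ?_⟩
    · rw [Finset.mem_range]
      have := Nat.find_min' hex hak
      omega
    · exact not_le.mp (Nat.find_min hex hi)
  have hrest : ∀ k ≤ n, 1 / 2 * P.real (A k) ≤ P.real (A k ∩ {ω | a / 2 ≤ |S ξ n ω|}) := by
    intro k hk
    set T : Ω → ℝ := fun ω => ∑ i ∈ Finset.Ico k n, X ξ i ω with hT
    have hTm : Measurable T := Finset.measurable_fun_sum _ fun i _ => h.measX i
    have hsum : ∀ ω, S ξ n ω = S ξ k ω + T ω := fun ω => (Finset.sum_range_add_sum_Ico _ hk).symm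
    -- Chebyshev
    have hTL : MemLp T 2 P := memLp_finsetSum _ fun i _ => h.memLp i 2
    have hTE : P[T] = 0 := by
      rw [hT, integral_finsetSum _ fun i _ => (h.memLp i 1).integrable le_rfl]
      apply Finset.sum_eq_zero
      intro i _
      exact h.mean i
    have hTV : Var[T; P] ≤ n := by
      have h1 : T = ∑ i ∈ Finset.Ico k n, X ξ i := by
        funext ω; simp [hT]
      rw [h1, IndepFun.variance_sum (fun i _ => h.memLp i 2)]
      · rw [Finset.sum_congr rfl fun i _ => h.var i, Finset.sum_const, Nat.card_Ico, nsmul_eq_mul,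
          mul_one]
        exact_mod_cast Nat.sub_le n k
      · intro i _ j _ hij
        exact h.indepX.indepFun hij
    have hcheb : P.real {ω | a / 2 ≤ |T ω|} ≤ 1 / 2 := by
      have h1 := meas_ge_le_variance_div_sq hTL (c := a / 2) (by positivity)
      rw [hTE] at h1
      simp only [sub_zero] at h1
      have h2 : Var[T; P] / (a / 2) ^ 2 ≤ 1 / 2 := by
        rw [div_le_iff₀ (by positivity)]
        nlinarith
      have h3 := h1.trans (ENNReal.ofReal_le_ofReal h2)
      have h4 := ENNReal.toReal_mono ENNReal.ofReal_ne_top h3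
      rwa [ENNReal.toReal_ofReal (by norm_num)] at h4
    have hcompl : 1 / 2 ≤ P.real {ω | |T ω| < a / 2} := by
      have h1 : {ω | |T ω| < a / 2} = {ω | a / 2 ≤ |T ω|}ᶜ := by
        ext ω; simp
      rw [h1, probReal_compl_eq_one_sub (measurableSet_le measurable_const hTm.abs)]
      linarith
    have hindep : P.real (A k ∩ {ω | |T ω| < a / 2}) = P.real (A k) * P.real {ω | |T ω| < a / 2} := by
      have h1 := h.indepX.indepFun_finset (Finset.range k) (Finset.Ico k n) (by
        rw [Finset.disjoint_left]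
        intro i hi hi2
        rw [Finset.mem_range] at hi
        rw [Finset.mem_Ico] at hi2
        omega) h.measX
      set U : Set ((i : Finset.range k) → ℝ) := {g | a ≤ |∑ i : Finset.range k, g i| ∧
        ∀ j < k, |∑ i : Finset.range k, if (i : ℕ) < j then g i else 0| < a} with hU
      set V : Set ((i : Finset.Ico k n) → ℝ) := {g | |∑ i, g i| < a / 2} with hV
      have hUm : MeasurableSet U := by
        have : U = {g | a ≤ |∑ i : Finset.range k, g i|} ∩ ⋂ j, ⋂ _ : j < k,
            {g | |∑ i : Finset.range k, if (i : ℕ) < j then g i else 0| < a} := by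
          ext g; simp [hU]
        rw [this]
        refine (measurableSet_le measurable_const (by fun_prop)).inter
          (MeasurableSet.iInter fun j => MeasurableSet.iInter fun _ =>
            measurableSet_lt ?_ measurable_const)
        apply Measurable.abs
        apply Finset.measurable_fun_sum
        intro i _
        split_ifs <;> fun_prop
      have hVm : MeasurableSet V := measurableSet_lt (by fun_prop) measurable_const
      have h2 : A k = (fun ω (i : Finset.range k) => X ξ i ω) ⁻¹' U := by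
        ext ω
        have e1 : ∑ i : Finset.range k, X ξ i ω = S ξ k ω := by
          rw [Finset.sum_coe_sort (Finset.range k) (fun i => X ξ i ω)]; rfl
        have e2 : ∀ j < k, (∑ i : Finset.range k, if (i : ℕ) < j then X ξ i ω else 0) = S ξ j ω := by
          intro j hj
          rw [Finset.sum_coe_sort (Finset.range k) (fun i => if i < j then X ξ i ω else 0),
            ← Finset.sum_filter]
          unfold S
          congr 1
          ext i
          simp only [Finset.mem_filter, Finset.mem_range]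
          omega
        simp only [hA, hU, Set.mem_ofPred_eq, mem_preimage, e1]
        constructor
        · rintro ⟨h3, h4⟩
          exact ⟨h3, fun j hj => by rw [e2 j hj]; exact h4 j hj⟩
        · rintro ⟨h3, h4⟩
          exact ⟨h3, fun j hj => by have := h4 j hj; rwa [e2 j hj] at this⟩
      have h3 : {ω | |T ω| < a / 2} = (fun ω (i : Finset.Ico k n) => X ξ i ω) ⁻¹' V := by
        ext ω
        simp only [hV, Set.mem_ofPred_eq, mem_preimage, hT]
        rw [Finset.sum_coe_sort (Finset.Ico k n) (fun i => X ξ i ω)]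
      rw [h2, h3]
      unfold Measure.real
      rw [h1.measure_inter_preimage_eq_mul _ _ hUm hVm, ENNReal.toReal_mul]
    have hincl : A k ∩ {ω | |T ω| < a / 2} ⊆ A k ∩ {ω | a / 2 ≤ |S ξ n ω|} := by
      rintro ω ⟨h1, h2⟩
      refine ⟨h1, ?_⟩
      have h3 : a ≤ |S ξ k ω| := h1.1
      have h4 : |T ω| < a / 2 := h2
      show a / 2 ≤ |S ξ n ω|
      rw [hsum]
      have h5 : |S ξ k ω| ≤ |S ξ k ω + T ω| + |T ω| := by
        calc |S ξ k ω| = |(S ξ k ω + T ω) + -T ω| := by ring_nf
          _ ≤ |S ξ k ω + T ω| + |-T ω| := abs_add_le _ _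
          _ = _ := by rw [abs_neg]
      linarith
    calc 1 / 2 * P.real (A k) ≤ P.real (A k) * P.real {ω | |T ω| < a / 2} := by
          rw [mul_comm]
          exact mul_le_mul_of_nonneg_left hcompl measureReal_nonneg
      _ = P.real (A k ∩ {ω | |T ω| < a / 2}) := hindep.symm
      _ ≤ _ := measureReal_mono hincl
  have hfin : P.real {ω | ∃ k ≤ n, a ≤ |S ξ k ω|} ≤ 2 * P.real {ω | a / 2 ≤ |S ξ n ω|} := by
    calc P.real {ω | ∃ k ≤ n, a ≤ |S ξ k ω|} ≤ P.real (⋃ k ∈ Finset.range (n + 1), A k) :=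
          measureReal_mono hcover (measure_ne_top P _)
      _ ≤ ∑ k ∈ Finset.range (n + 1), P.real (A k) := measureReal_biUnion_finset_le _ _
      _ ≤ ∑ k ∈ Finset.range (n + 1), 2 * P.real (A k ∩ {ω | a / 2 ≤ |S ξ n ω|}) := by
          apply Finset.sum_le_sum
          intro k hk
          have := hrest k (by rw [Finset.mem_range] at hk; omega)
          linarith
      _ = 2 * P.real (⋃ k ∈ Finset.range (n + 1), A k ∩ {ω | a / 2 ≤ |S ξ n ω|}) := by
          rw [← Finset.mul_sum, measureReal_biUnion_finset]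
          · intro i hi j hj hij
            exact (hdisj hi hj hij).mono inter_subset_left inter_subset_left
          · intro k _
            exact (hAm k).inter (measurableSet_le measurable_const (h.measS n).abs)
      _ ≤ 2 * P.real {ω | a / 2 ≤ |S ξ n ω|} := by
          apply mul_le_mul_of_nonneg_left _ (by norm_num)
          refine measureReal_mono ?_ (measure_ne_top P _)
          intro ω hω
          obtain ⟨k, _, hk⟩ := mem_iUnion₂.mp hω
          exact hk.2
  have hho := h.hoeff n (a := a / 2) (by positivity)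
  have hexp : -(a / 2) ^ 2 / (2 * n) = -a ^ 2 / (8 * n) := by
    rcases Nat.eq_zero_or_pos n with rfl | hn
    · simp
    · have : (0:ℝ) < n := by exact_mod_cast hn
      field_simp
      ring
  rw [hexp] at hho
  linarith

end Pool.Agent.R974.Span
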